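import Pool.Agent.Results.MP_790549_co.CommonNegativeCircles
import Pool.Agent.Helper17_Spider.Menger

/-! # Signed paths, described by their vertex sets -/

set_option autoImplicit false

namespace Pool.Agent.D0H8.NC

open SimpleGraph Pool.Agent.Results.MP_790549_co.CommonNegativeCircles

variable {V : Type}

/-- a path from `x` to `y` with vertex set `X` and sign `c` -/
def Pth (G : SimpleGraph V) (σ : Sym2 V → ZMod 2) (X : Set V) (x y : V) (c : ZMod 2) : Prop :=
  ∃ w : G.Walk x y, w.IsPath ∧ (∀ v, v ∈ X ↔ v ∈ w.support) ∧ sgn σ w = c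

variable {G : SimpleGraph V} {σ : Sym2 V → ZMod 2}

theorem Pth.left {X : Set V} {x y : V} {c : ZMod 2} (h : Pth G σ X x y c) : x ∈ X := by
  obtain ⟨w, _, h2, _⟩ := h
  exact (h2 x).2 w.start_mem_support

theorem Pth.right {X : Set V} {x y : V} {c : ZMod 2} (h : Pth G σ X x y c) : y ∈ X := by
  obtain ⟨w, _, h2, _⟩ := h
  exact (h2 y).2 w.end_mem_support

theorem Pth.refl (x : V) : Pth G σ {x} x x 0 :=
  ⟨Walk.nil, by simp, by simp, by simp [sgn]⟩

theorem Pth.symm {X : Set V} {x y : V} {c : ZMod 2} (h : Pth G σ X x y c) : Pth G σ X y x c := by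
  obtain ⟨w, h1, h2, h3⟩ := h
  exact ⟨w.reverse, h1.reverse, by simpa using h2, by rw [sgn_reverse, h3]⟩

theorem Pth.edge {x y : V} (h : G.Adj x y) : Pth G σ {x, y} x y (σ s(x, y)) :=
  ⟨Walk.cons h Walk.nil, by simp [h.ne], by simp, by simp [sgn]⟩

theorem Pth.append {X Y : Set V} {x y z : V} {c d : ZMod 2} (h : Pth G σ X x y c)
    (h' : Pth G σ Y y z d) (hd : ∀ v ∈ X, v ∈ Y → v = y) : Pth G σ (X ∪ Y) x z (c + d) := by
  obtain ⟨w, h1, h2, h3⟩ := h
  obtain ⟨w', h1', h2', h3'⟩ := h'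
  refine ⟨w.append w', ?_, ?_, by rw [sgn_append, h3, h3']⟩
  · rw [Walk.isPath_def, Walk.support_append, List.nodup_append]
    refine ⟨h1.support_nodup, h1'.support_nodup.tail, ?_⟩
    intro a ha b hb hab
    subst hab
    have hay : a = y := hd a ((h2 a).2 ha) ((h2' a).2 (List.mem_of_mem_tail hb))
    subst hay
    have hn := h1'.support_nodup
    rw [Walk.support_eq_cons] at hn
    exact (List.nodup_cons.1 hn).1 hb
  · intro v
    rw [Walk.mem_support_append_iff, Set.mem_union, h2, h2']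

theorem Pth.split {X : Set V} {x y z : V} {c : ZMod 2} (h : Pth G σ X x y c) (hz : z ∈ X) :
    ∃ A B a b, (∀ v, v ∈ X ↔ v ∈ A ∨ v ∈ B) ∧ (∀ v ∈ A, v ∈ B → v = z) ∧ a + b = c ∧
      Pth G σ A x z a ∧ Pth G σ B z y b := by
  classical
  obtain ⟨w, h1, h2, h3⟩ := h
  have hzw := (h2 z).1 hz
  have hspec := w.take_spec hzw
  refine ⟨{v | v ∈ (w.takeUntil z hzw).support}, {v | v ∈ (w.dropUntil z hzw).support},
    sgn σ (w.takeUntil z hzw), sgn σ (w.dropUntil z hzw), ?_, ?_, ?_, ?_, ?_⟩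
  · intro v
    rw [h2 v]
    conv_lhs => rw [← hspec]
    rw [Walk.mem_support_append_iff]
    rfl
  · intro v hv hv'
    by_contra hne
    have hn : ((w.takeUntil z hzw).append (w.dropUntil z hzw)).IsPath := by rw [hspec]; exact h1
    rw [Walk.isPath_def, Walk.support_append, List.nodup_append] at hn
    have hv2 : v ∈ (w.dropUntil z hzw).support.tail := by
      have : v ∈ (w.dropUntil z hzw).support := hv'
      rw [Walk.support_eq_cons, List.mem_cons] at this
      exact this.resolve_left hne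
    exact hn.2.2 v hv v hv2 rfl
  · rw [← sgn_append, hspec, h3]
  · exact ⟨_, h1.takeUntil hzw, fun v => Iff.rfl, rfl⟩
  · exact ⟨_, h1.dropUntil hzw, fun v => Iff.rfl, rfl⟩

theorem Pth.congr {X Y : Set V} {x y : V} {c d : ZMod 2} (h : Pth G σ X x y c)
    (hXY : ∀ v, v ∈ X ↔ v ∈ Y) (hcd : c = d) : Pth G σ Y x y d := by
  obtain ⟨w, h1, h2, h3⟩ := h
  exact ⟨w, h1, fun v => (hXY v).symm.trans (h2 v), h3.trans hcd⟩

theorem Pth.finite {X : Set V} {x y : V} {c : ZMod 2} (h : Pth G σ X x y c) : X.Finite := by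
  classical
  obtain ⟨w, h1, h2, h3⟩ := h
  have : X = (w.support.toFinset : Set V) := by ext v; simp [h2]
  rw [this]; exact Finset.finite_toSet _

theorem Pth.eq_of_eq {X : Set V} {x : V} {c : ZMod 2} (h : Pth G σ X x x c) :
    X = {x} ∧ c = 0 := by
  obtain ⟨w, h1, h2, h3⟩ := h
  rw [Walk.isPath_iff_eq_nil] at h1
  subst h1
  refine ⟨?_, by rw [← h3]; simp [sgn]⟩
  ext v; rw [h2 v]; simp

/-- a sub-path whose ends are the only vertices in `A` and `B` -/
theorem Pth.proper {X A B : Set V} {x y : V} {c : ZMod 2} (h : Pth G σ X x y c) (hx : x ∈ A)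
    (hy : y ∈ B) : ∃ X' x' y' c', X' ⊆ X ∧ x' ∈ A ∧ y' ∈ B ∧ Pth G σ X' x' y' c' ∧
      (∀ v ∈ X', v ∈ A → v = x') ∧ (∀ v ∈ X', v ∈ B → v = y') := by
  classical
  have key : ∀ n : ℕ, ∀ X' x' y' c', X' ⊆ X → x' ∈ A → y' ∈ B → Pth G σ X' x' y' c' →
      X'.ncard ≤ n → ∃ X' x' y' c', X' ⊆ X ∧ x' ∈ A ∧ y' ∈ B ∧ Pth G σ X' x' y' c' ∧
      (∀ v ∈ X', v ∈ A → v = x') ∧ (∀ v ∈ X', v ∈ B → v = y') := by
    intro n
    induction n with
    | zero =>
      intro X' x' y' c' _ _ _ hp hn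
      have := (Set.ncard_eq_zero hp.finite).1 (Nat.le_zero.1 hn)
      exact absurd hp.left (by rw [this]; simp)
    | succ n ih =>
      intro X' x' y' c' hs hx' hy' hp hn
      by_cases h1 : ∀ v ∈ X', v ∈ A → v = x'
      · by_cases h2 : ∀ v ∈ X', v ∈ B → v = y'
        · exact ⟨X', x', y', c', hs, hx', hy', hp, h1, h2⟩
        · push Not at h2
          obtain ⟨v, hv, hvB, hne⟩ := h2
          obtain ⟨P, Q, a, b, h3, h4, h5, h6, h7⟩ := hp.split hv
          refine ih P x' v a (fun z hz => hs ((h3 z).2 (Or.inl hz))) hx' hvB h6 ?_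
          have hlt : P.ncard < X'.ncard := by
            apply Set.ncard_lt_ncard _ hp.finite
            refine ⟨fun z hz => (h3 z).2 (Or.inl hz), fun hcon => ?_⟩
            have hyP : y' ∈ P := hcon hp.right
            exact hne (h4 y' hyP h7.right).symm
          omega
      · push Not at h1
        obtain ⟨v, hv, hvA, hne⟩ := h1
        obtain ⟨P, Q, a, b, h3, h4, h5, h6, h7⟩ := hp.split hv
        refine ih Q v y' b (fun z hz => hs ((h3 z).2 (Or.inr hz))) hvA hy' h7 ?_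
        have hlt : Q.ncard < X'.ncard := by
          apply Set.ncard_lt_ncard _ hp.finite
          refine ⟨fun z hz => (h3 z).2 (Or.inr hz), fun hcon => ?_⟩
          have hxQ : x' ∈ Q := hcon hp.left
          exact hne (h4 x' h6.left hxQ).symm
        omega
  exact key X.ncard X x y c subset_rfl hx hy h le_rfl

/-- paths from reachability -/
theorem pth_of_rtg {U : V → Prop} {x y : V}
    (h : Relation.ReflTransGen (fun a b => G.Adj a b ∧ U b) x y) (hx : U x) :
    ∃ X c, Pth G σ X x y c ∧ ∀ v ∈ X, U v := by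
  classical
  induction h with
  | refl => exact ⟨{x}, 0, Pth.refl x, by simpa using hx⟩
  | @tail b c _ hbc ih =>
    obtain ⟨X, c', hp, hU⟩ := ih
    by_cases hc : c ∈ X
    · obtain ⟨P, Q, a, b, h3, h4, h5, h6, h7⟩ := hp.split hc
      exact ⟨P, a, h6, fun v hv => hU v ((h3 v).2 (Or.inl hv))⟩
    · refine ⟨X ∪ {b, c}, c' + σ s(b, c), hp.append (Pth.edge hbc.1) ?_, ?_⟩
      · intro v hv hv'
        rcases hv' with rfl | hv'
        · rfl
        · rw [Set.mem_singleton_iff] at hv'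
          subst hv'; exact absurd hv hc
      · intro v hv
        rcases hv with hv | rfl | hv
        · exact hU v hv
        · exact hU _ hp.right
        · rw [Set.mem_singleton_iff] at hv
          subst hv; exact hbc.2

theorem rtg_of_pth {X : Set V} {x y : V} {c : ZMod 2} {U : V → Prop} (h : Pth G σ X x y c)
    (hU : ∀ v ∈ X, U v) : Relation.ReflTransGen (fun a b => G.Adj a b ∧ U b) x y := by
  obtain ⟨w, h1, h2, h3⟩ := h
  have hU' : ∀ v ∈ w.support, U v := fun v hv => hU v ((h2 v).2 hv)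
  clear h1 h2 h3 hU
  induction w with
  | nil => exact .refl
  | @cons a b c' hab q ih =>
    refine Relation.ReflTransGen.head ⟨hab, hU' b ?_⟩ (ih fun v hv => hU' v ?_)
    · simp
    · simp [hv]

/-- joining two paths along a meeting vertex, taking only part of them -/
theorem Pth.join {X Y : Set V} {x y z t : V} {c d : ZMod 2} (h : Pth G σ X x y c)
    (h' : Pth G σ Y z t d) (hm : (X ∩ Y).Nonempty) :
    ∃ W e, Pth G σ W x t e ∧ W ⊆ X ∪ Y := by
  obtain ⟨m, hmX, hmY⟩ := hm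
  obtain ⟨P, Q, a, b, h3, h4, h5, h6, h7⟩ := h.split hmX
  obtain ⟨P', Q', a', b', h3', h4', h5', h6', h7'⟩ := h'.split hmY
  obtain ⟨W, e, hW, hWU⟩ := pth_of_rtg (σ := σ) (U := fun v => v ∈ X ∪ Y)
    ((rtg_of_pth h6 (U := fun v => v ∈ X ∪ Y) fun v hv => Or.inl ((h3 v).2 (Or.inl hv))).trans
    (rtg_of_pth h7' (U := fun v => v ∈ X ∪ Y) fun v hv => Or.inr ((h3' v).2 (Or.inr hv))))
    (Or.inl h.left)
  exact ⟨W, e, hW, hWU⟩

end Pool.Agent.D0H8.NC
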