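import Pool.Agent.Results.MP_790549_co.CommonNegativeCircles

/-! # Cells of the union of all circles through two edges -/

set_option autoImplicit false

namespace Pool.Agent.D0H8.NC

open SimpleGraph Pool.Agent.Results.MP_790549_co.CommonNegativeCircles

variable {V : Type}

/-- the edges of `G` that lie on a circle together with `e` and `f` -/
def core (G : SimpleGraph V) (e f : Sym2 V) : Set (Sym2 V) :=
  {g | ∃ (u : V) (w : G.Walk u u), w.IsCycle ∧ e ∈ w.edges ∧ f ∈ w.edges ∧ g ∈ w.edges}

/-- the vertices incident with an edge in `A` and with an edge of `L` outside `A` -/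
def bd (L A : Set (Sym2 V)) : Set V := {v | (∃ g ∈ A, v ∈ g) ∧ ∃ g ∈ L, g ∉ A ∧ v ∈ g}

/-- `A` is the side of `e` of a 2-separation of `L` between `e` and `f` -/
def Sep2 (L : Set (Sym2 V)) (e f : Sym2 V) (A : Set (Sym2 V)) : Prop :=
  A ⊆ L ∧ e ∈ A ∧ f ∉ A ∧ (bd L A).ncard ≤ 2

/-- `g` and `h` are in the same cell: no 2-separation between `e` and `f` separates them -/
def SameCell (L : Set (Sym2 V)) (e f g h : Sym2 V) : Prop :=
  ∀ A, Sep2 L e f A → (g ∈ A ↔ h ∈ A)

/-- every circle inside a cell is positive -/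
def CellsBalanced (G : SimpleGraph V) (σ : Sym2 V → ZMod 2) (e f : Sym2 V) : Prop :=
  ∀ (u : V) (w : G.Walk u u), w.IsCycle → (∀ g ∈ w.edges, g ∈ core G e f) →
    (∀ g ∈ w.edges, ∀ h ∈ w.edges, SameCell (core G e f) e f g h) → sgn σ w = 0

/-- 2-connected: more than two vertices, and connected after the removal of at most one -/
def TwoConn (G : SimpleGraph V) : Prop :=
  3 ≤ Nat.card V ∧ ∀ S : Set V, S.ncard ≤ 1 → (G.induce Sᶜ).Connected

end Pool.Agent.D0H8.NC
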