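import Pool.Agent.D0H8.NC.ThreeMain
import Pool.Agent.D0H8.NC.Defs

/-! # Linkages and 2-separations -/

set_option autoImplicit false

namespace Pool.Agent.D0H8.NC

open SimpleGraph Pool.Agent.Results.MP_790549_co.CommonNegativeCircles

variable {V : Type} {G : SimpleGraph V} {σ : Sym2 V → ZMod 2}

theorem bd_compl {L A : Set (Sym2 V)} (hA : A ⊆ L) : bd L (L \ A) = bd L A := by
  ext v
  constructor
  · rintro ⟨⟨g, hg, hv⟩, h, hh, hh', hv'⟩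
    refine ⟨⟨h, ?_, hv'⟩, g, hg.1, hg.2, hv⟩
    by_contra hc
    exact hh' ⟨hh, hc⟩
  · rintro ⟨⟨g, hg, hv⟩, h, hh, hh', hv'⟩
    exact ⟨⟨h, ⟨hh, hh'⟩, hv'⟩, g, hA hg, fun hc => hc.2 hg, hv⟩

theorem walk_grow {F L A : Set (Sym2 V)} (hF : F ⊆ L) {a b : V} (w : (fromEdgeSet F).Walk a b)
    (hw : w.IsPath) (ha : ∃ g ∈ A, a ∈ g) (hbd : ∀ v ∈ w.support, v ∈ bd L A → v = b) :
    (∀ g ∈ w.edges, g ∈ A) ∧ ∃ g ∈ A, b ∈ g := by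
  induction w with
  | nil => exact ⟨by simp, ha⟩
  | @cons x z y hxz q ih =>
    rw [Walk.cons_isPath_iff] at hw
    have hxy : x ≠ y := fun e => hw.2 (e ▸ q.end_mem_support)
    have hmem : s(x, z) ∈ F := by
      rw [fromEdgeSet_adj] at hxz; exact hxz.1
    have hxA : s(x, z) ∈ A := by
      by_contra hc
      exact hxy (hbd x (by simp) ⟨ha, _, hF hmem, hc, by simp⟩)
    obtain ⟨h1, h2⟩ := ih hw.1 ⟨_, hxA, by simp⟩ (fun v hv hv' => hbd v (by simp [hv]) hv')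
    refine ⟨?_, h2⟩
    intro g hg
    rw [Walk.edges_cons, List.mem_cons] at hg
    rcases hg with rfl | hg
    · exact hxA
    · exact h1 g hg

theorem pth_grow {F L A : Set (Sym2 V)} (hF : F ⊆ L) {a b : V} {X : Set V} {c : ZMod 2}
    (hX : Pth (fromEdgeSet F) σ X a b c) (ha : ∃ g ∈ A, a ∈ g)
    (hbd : ∀ v ∈ X, v ∈ bd L A → v = b) :
    Pth (fromEdgeSet (F ∩ A)) σ X a b c ∧ ∃ g ∈ A, b ∈ g := by
  obtain ⟨w, h1, h2, h3⟩ := hX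
  obtain ⟨k1, k2⟩ := walk_grow hF w h1 ha (fun v hv hv' => hbd v ((h2 v).2 hv) hv')
  have hE : ∀ e ∈ w.edges, e ∈ (fromEdgeSet (F ∩ A)).edgeSet := by
    intro e he
    have h4 := w.edges_subset_edgeSet he
    rw [edgeSet_fromEdgeSet] at h4 ⊢
    exact ⟨⟨h4.1, k1 e he⟩, h4.2⟩
  refine ⟨⟨w.transfer _ hE, h1.transfer hE, ?_, ?_⟩, k2⟩
  · intro v; rw [h2, Walk.support_transfer]
  · rw [← h3]; unfold sgn; rw [Walk.edges_transfer]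

theorem inc_of_pth {F : Set (Sym2 V)} {X : Set V} {x y : V} {c : ZMod 2}
    (h : Pth (fromEdgeSet F) σ X x y c) (hx : ∃ g ∈ F, x ∈ g) : ∀ v ∈ X, ∃ g ∈ F, v ∈ g := by
  obtain ⟨w, h1, h2, h3⟩ := h
  intro v hv
  rw [h2] at hv
  clear h1 h2 h3
  induction w with
  | nil =>
    rw [Walk.support_nil, List.mem_singleton] at hv
    subst hv; exact hx
  | @cons a b c hab q ih =>
    rw [Walk.support_cons, List.mem_cons] at hv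
    rcases hv with rfl | hv
    · exact hx
    · rw [fromEdgeSet_adj] at hab
      exact ih ⟨_, hab.1, by simp⟩ hv

theorem half_exists {F L A : Set (Sym2 V)} (hF : F ⊆ L) {a b : V} {R : Set V} {r : ZMod 2}
    (hR : Pth (fromEdgeSet F) σ R a b r) (ha : ∃ g ∈ A, a ∈ g) (hb : ∃ g ∈ L, g ∉ A ∧ b ∈ g) :
    ∃ x ∈ R, x ∈ bd L A := by
  by_contra hcon
  push Not at hcon
  obtain ⟨_, h2⟩ := pth_grow hF hR ha (fun v hv hv' => absurd hv' (hcon v hv))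
  exact hcon b hR.right ⟨h2, hb⟩

theorem half {F L A : Set (Sym2 V)} (hF : F ⊆ L) (hA : A ⊆ L) {a b x : V} {R : Set V}
    {r : ZMod 2} (hR : Pth (fromEdgeSet F) σ R a b r) (ha : ∃ g ∈ A, a ∈ g)
    (hb : ∃ g ∈ L, g ∉ A ∧ b ∈ g) (hx : ∀ v ∈ R, v ∈ bd L A → v = x) :
    ∃ R1 R2 r1 r2, Pth (fromEdgeSet (F ∩ A)) σ R1 a x r1 ∧
      Pth (fromEdgeSet (F \ A)) σ R2 x b r2 ∧ (∀ v, v ∈ R ↔ v ∈ R1 ∨ v ∈ R2) ∧
      (∀ v ∈ R1, v ∈ R2 → v = x) ∧ r1 + r2 = r := by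
  obtain ⟨x0, hx0, hx0'⟩ := half_exists hF hR ha hb
  have e := hx x0 hx0 hx0'
  subst e
  obtain ⟨R1, R2, r1, r2, k1, k2, k3, k4, k5⟩ := hR.split hx0
  refine ⟨R1, R2, r1, r2, (pth_grow hF k4 ha fun v hv hv' => hx v ((k1 v).2 (Or.inl hv)) hv').1,
    ?_, k1, k2, k3⟩
  obtain ⟨g, hg, hg', hbg⟩ := hb
  have h6 := (pth_grow (A := L \ A) hF k5.symm ⟨g, ⟨hg, hg'⟩, hbg⟩ (fun v hv hv' => by
    rw [bd_compl hA] at hv'
    exact hx v ((k1 v).2 (Or.inr hv)) hv')).1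
  refine (h6.mono ?_).symm
  apply fromEdgeSet_mono
  rintro g ⟨hg1, hg2⟩
  exact ⟨hg1, hg2.2⟩

/-- the parts of a path of a linkage in `A`, between `A` and `A'`, and outside `A'` -/
structure Parts (σ : Sym2 V → ZMod 2) (L A A' : Set (Sym2 V)) (s t : V) (P : Set V) (p : ZMod 2)
    (x x' : V) (P1 P2 P3 : Set V) (p1 p2 p3 : ZMod 2) : Prop where
  h1 : Pth (fromEdgeSet A) σ P1 s x p1
  h2 : Pth (fromEdgeSet (A' \ A)) σ P2 x x' p2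
  h3 : Pth (fromEdgeSet (L \ A')) σ P3 x' t p3
  un : ∀ v, v ∈ P ↔ v ∈ P1 ∨ v ∈ P2 ∨ v ∈ P3
  i12 : ∀ v ∈ P1, v ∈ P2 → v = x
  i23 : ∀ v ∈ P2, v ∈ P3 → v = x'
  i13 : ∀ v ∈ P1, v ∈ P3 → v = x ∧ v = x'
  sum : p1 + p2 + p3 = p

theorem parts_of {L A A' : Set (Sym2 V)} {e f : Sym2 V} (hA : A ⊆ L) (hA' : A' ⊆ L)
    (hAA : A ⊆ A') (heA : e ∈ A) (hfL : f ∈ L) (hf : f ∉ A') {s t x x' : V} (hs : s ∈ e)
    (ht : t ∈ f)
    {P : Set V} {p : ZMod 2} (hP : Pth (fromEdgeSet L) σ P s t p)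
    (hx : ∀ v ∈ P, v ∈ bd L A → v = x) (hx' : ∀ v ∈ P, v ∈ bd L A' → v = x') :
    ∃ P1 P2 P3 p1 p2 p3, Parts σ L A A' s t P p x x' P1 P2 P3 p1 p2 p3 := by
  have hF : L ⊆ L := subset_rfl
  obtain ⟨x0, hx0, hx0'⟩ := half_exists (L := L) (A := A) hF hP
    ⟨e, heA, hs⟩ ⟨f, hfL, fun h => hf (hAA h), ht⟩
  have e0 := hx x0 hx0 hx0'
  subst e0
  obtain ⟨P1, R, p1, r, k1, k2, k3, k4, k5⟩ := half (L := L) (A := A) hF hA hP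
    ⟨e, heA, hs⟩ ⟨f, hfL, fun h => hf (hAA h), ht⟩ hx
  obtain ⟨g, hg, hxg⟩ := hx0'.1
  obtain ⟨P2, P3, p2, p3, m1, m2, m3, m4, m5⟩ := half (L := L) (A := A')
    (F := L \ A) (fun g hg => hg.1) hA' k2 ⟨g, hAA hg, hxg⟩
    ⟨f, hfL, hf, ht⟩ (fun v hv hv' => hx' v ((k3 v).2 (Or.inr hv)) hv')
  refine ⟨P1, P2, P3, p1, p2, p3, k1.mono (G := fromEdgeSet A) (fromEdgeSet_mono fun g hg => hg.2),
    m1.mono (G := fromEdgeSet (A' \ A)) (fromEdgeSet_mono fun g hg => ⟨hg.2, hg.1.2⟩),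
    m2.mono (G := fromEdgeSet (L \ A')) (fromEdgeSet_mono fun g hg => ⟨hg.1.1, hg.2⟩), ?_, ?_, m4, ?_, ?_⟩
  · intro v; rw [k3, m3]
  · intro v hv hv'; exact k4 v hv ((m3 v).2 (Or.inl hv'))
  · intro v hv hv'
    have e1 := k4 v hv ((m3 v).2 (Or.inr hv'))
    exact ⟨e1, m4 v (e1 ▸ m1.left) hv'⟩
  · rw [add_assoc, m5, k5]

end Pool.Agent.D0H8.NC
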