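import Pool.Agent.D0H8.NC.Ladder

/-! # Circles that meet a linkage twice are positive -/

set_option autoImplicit false

namespace Pool.Agent.D0H8.NC

open SimpleGraph Pool.Agent.Results.MP_790549_co.CommonNegativeCircles

variable {V : Type} {G : SimpleGraph V} {σ : Sym2 V → ZMod 2} {s1 s2 t1 t2 : V} {κ : ZMod 2}

theorem circle_edge {v x : V} (w : G.Walk v v) (hw : w.IsCycle) (hx : x ∈ w.support) :
    ∃ x1 Q c, G.Adj x x1 ∧ Pth G σ Q x1 x c ∧ sgn σ w = σ s(x, x1) + c ∧
      (∀ z, z ∈ w.support ↔ z ∈ Q) := by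
  classical
  have hr := hw.rotate hx
  have hs : sgn σ (w.rotate x hx) = sgn σ w := by
    unfold sgn
    exact ((w.rotate_edges x hx).perm.map σ).sum_eq
  have hsup : ∀ z, z ∈ (w.rotate x hx).support ↔ z ∈ w.support := by
    intro z
    rw [w.mem_support_rotate_iff x hx]
  generalize w.rotate x hx = w' at hr hs hsup
  cases w' with
  | nil => exact absurd hr (by simp)
  | @cons _ x1 _ hadj q =>
    rw [Walk.cons_isCycle_iff] at hr
    refine ⟨x1, {z | z ∈ q.support}, sgn σ q, hadj, ⟨q, hr.1, fun z => Iff.rfl, rfl⟩, ?_, ?_⟩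
    · rw [← hs, sgn_cons]
    · intro z
      rw [← hsup, Walk.support_cons, List.mem_cons]
      constructor
      · rintro (rfl | h)
        · exact q.end_mem_support
        · exact h
      · exact Or.inr

theorem circle_split {v x y : V} (w : G.Walk v v) (hw : w.IsCycle) (hx : x ∈ w.support)
    (hy : y ∈ w.support) (hxy : x ≠ y) :
    ∃ D1 D2 d1 d2, Pth G σ D1 x y d1 ∧ Pth G σ D2 x y d2 ∧ sgn σ w = d1 + d2 ∧
      (∀ z, z ∈ w.support ↔ z ∈ D1 ∨ z ∈ D2) ∧ (∀ z ∈ D1, z ∈ D2 → z = x ∨ z = y) := by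
  obtain ⟨x1, Q, c, h1, h2, h3, h4⟩ := circle_edge (σ := σ) w hw hx
  obtain ⟨A, B, a, b, k1, k2, k3, k4, k5⟩ := h2.split ((h4 y).1 hy)
  have hxA : x ∉ A := fun h => hxy (k2 x h k5.right)
  refine ⟨{x, x1} ∪ A, B, σ s(x, x1) + a, b, (Pth.edge h1).append k4 ?_, k5.symm, ?_, ?_, ?_⟩
  · rintro z (rfl | hz) hz'
    · exact absurd hz' hxA
    · exact hz
  · rw [h3, ← k3, add_assoc]
  · intro z
    rw [h4, k1]
    constructor
    · rintro (h | h)
      · exact Or.inl (Or.inr h)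
      · exact Or.inr h
    · rintro (((rfl | h) | h) | h)
      · exact Or.inr k5.right
      · rw [Set.mem_singleton_iff] at h
        subst h; exact Or.inl k4.left
      · exact Or.inl h
      · exact Or.inr h
  · rintro z ((rfl | h) | h) hz'
    · exact Or.inl rfl
    · rw [Set.mem_singleton_iff] at h
      subst h
      exact Or.inr (k2 _ k4.left hz')
    · exact Or.inr (k2 z h hz')

theorem seg_path {W : Set V} {f : V → ZMod 2} {Q : Set V}
    (hseg : ∀ E a b ε, Pth G σ E a b ε → (∀ v ∈ E, v ∈ Q) → a ∈ W → b ∈ W →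
      (∀ v ∈ E, v ∈ W → v = a ∨ v = b) → ε = f a + f b) :
    ∀ E a b ε, Pth G σ E a b ε → (∀ v ∈ E, v ∈ Q) → a ∈ W → b ∈ W → ε = f a + f b := by
  have key : ∀ n : ℕ, ∀ E a b ε, E.ncard ≤ n → Pth G σ E a b ε → (∀ v ∈ E, v ∈ Q) → a ∈ W →
      b ∈ W → ε = f a + f b := by
    intro n
    induction n with
    | zero =>
      intro E a b ε hn hE
      have := (Set.ncard_eq_zero hE.finite).1 (Nat.le_zero.1 hn)
      exact absurd hE.left (by rw [this]; simp)
    | succ n ih =>
      intro E a b ε hn hE hQ ha hb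
      by_cases hall : ∀ v ∈ E, v ∈ W → v = a ∨ v = b
      · exact hseg E a b ε hE hQ ha hb hall
      · push Not at hall
        obtain ⟨z, hz, hzW, hza, hzb⟩ := hall
        obtain ⟨A, B, p, q, k1, k2, k3, k4, k5⟩ := hE.split hz
        have hlA : A.ncard < E.ncard := by
          apply Set.ncard_lt_ncard _ hE.finite
          refine ⟨fun v hv => (k1 v).2 (Or.inl hv), fun hcon => ?_⟩
          exact hzb (k2 b (hcon hE.right) k5.right).symm
        have hlB : B.ncard < E.ncard := by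
          apply Set.ncard_lt_ncard _ hE.finite
          refine ⟨fun v hv => (k1 v).2 (Or.inr hv), fun hcon => ?_⟩
          exact hza (k2 a k4.left (hcon hE.left)).symm
        have e1 := ih A a z p (by omega) k4 (fun v hv => hQ v ((k1 v).2 (Or.inl hv))) ha hzW
        have e2 := ih B z b q (by omega) k5 (fun v hv => hQ v ((k1 v).2 (Or.inr hv))) hzW hb
        rw [← k3, e1, e2]
        linear_combination zz (f z)
  intro E a b ε hE
  exact key E.ncard E a b ε le_rfl hE

variable {X1 X2 : Set V} {G1 G2 : SimpleGraph V} {f1 f2 : V → ZMod 2} {c1 c2 : ZMod 2}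

theorem Cst.circle [Fintype V] (hC : Cst G σ s1 s2 t1 t2 κ)
    (hL : Lnk G σ s1 s2 t1 t2 X1 X2 G1 G2 f1 f2 c1 c2) {v x y : V} (w : G.Walk v v)
    (hw : w.IsCycle) (hx : x ∈ w.support) (hy : y ∈ w.support) (hxy : x ≠ y) (hxX : x ∈ X1)
    (hyX : y ∈ X1) : sgn σ w = 0 := by
  classical
  by_cases hX2 : ∃ z ∈ w.support, z ∈ X2
  · obtain ⟨z2, hz2, hz2X⟩ := hX2
    have hxz : x ≠ z2 := fun e => hL.dis x hxX (e ▸ hz2X)
    obtain ⟨D1, D2, d1, d2, g1, g2, g3, g4, g5⟩ := circle_split (σ := σ) w hw hx hz2 hxz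
    obtain ⟨a0, P, Q, p, q, a1, a2, a3, a4, a5, a6, a7⟩ := g1.symm.first (W := X1) ⟨x, g1.left, hxX⟩
    obtain ⟨b0, E0, P', ε0, p', b1, b2, b3, b4, b5, b6, b7⟩ :=
      a4.symm.first (W := X2) ⟨z2, a4.left, hz2X⟩
    have hE0X1 : ∀ v ∈ E0, v ∈ X1 → v = a0 := fun v hv hv' => a7 v ((b1 v).2 (Or.inl hv)) hv'
    have hab : a0 ≠ b0 := fun e => hL.dis a0 a6 (e ▸ b6)
    have ha0P' : a0 ∉ P' := fun h => hab (b2 a0 b4.left h)
    have hPD1 : ∀ v ∈ P, v ∈ D1 := fun v hv => (a1 v).2 (Or.inl hv)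
    have hQD1 : ∀ v ∈ Q, v ∈ D1 := fun v hv => (a1 v).2 (Or.inr hv)
    have hP'P : ∀ v ∈ P', v ∈ P := fun v hv => (b1 v).2 (Or.inr hv)
    have hE0P : ∀ v ∈ E0, v ∈ P := fun v hv => (b1 v).2 (Or.inl hv)
    have hz2Q : z2 ∉ Q := by
      intro h
      have := a2 z2 a4.left h
      exact hL.dis a0 a6 (this ▸ hz2X)
    have hP'D2 : ∀ v ∈ P', v ∈ D2 → v = z2 := by
      intro v hv hv'
      rcases g5 v (hPD1 v (hP'P v hv)) hv' with h | h
      · have e := a7 v (hP'P v hv) (h ▸ hxX)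
        exact absurd (e ▸ hv) ha0P'
      · exact h
    have hQ0a : ∀ v ∈ P' ∪ D2, v ∈ Q → v = x := by
      rintro v (hv | hv) hv'
      · have e := a2 v (hP'P v hv) hv'
        exact absurd (e ▸ hv) ha0P'
      · rcases g5 v (hQD1 v hv') hv with h | h
        · exact h
        · exact absurd (h ▸ hv') hz2Q
    have hQ0 : Pth G σ (P' ∪ D2 ∪ Q) b0 a0 (p' + d2 + q) :=
      (b5.append g2.symm hP'D2).append a5.symm hQ0a
    -- a third vertex of the linkage
    obtain ⟨z, hz, hzX, hza⟩ : ∃ z ∈ w.support, z ∈ X1 ∧ z ≠ a0 := by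
      by_cases h : x = a0
      · exact ⟨y, hy, hyX, fun e => hxy (h.trans e.symm)⟩
      · exact ⟨x, hx, hxX, h⟩
    have hzb : z ≠ b0 := fun e => hL.dis z hzX (e ▸ b6)
    have hzQ0 : z ∈ P' ∪ D2 ∪ Q := by
      rcases (g4 z).1 hz with h | h
      · rcases (a1 z).1 h with h | h
        · rcases (b1 z).1 h with h | h
          · exact absurd (hE0X1 z h hzX) hza
          · exact Or.inl (Or.inl h)
        · exact Or.inr h
      · exact Or.inl (Or.inr h)
    obtain ⟨A, B, α, β, m1, m2, m3, m4, m5⟩ := hQ0.split hzQ0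
    have ha0A : a0 ∉ A := fun h => hza (m2 a0 h m5.right).symm
    have hb0B : b0 ∉ B := fun h => hzb (m2 b0 m4.left h).symm
    -- vertices of the first rung on the rest of the circle
    have hE0Q0 : ∀ v ∈ E0, v ∈ P' ∪ D2 ∪ Q → v ∈ X1 ∪ X2 := by
      rintro v hv ((hv' | hv') | hv')
      · exact Or.inr (b2 v hv hv' ▸ b6)
      · rcases g5 v (hPD1 v (hE0P v hv)) hv' with h | h
        · exact Or.inl (h ▸ hxX)
        · exact Or.inr (h ▸ hz2X)
      · exact Or.inl (a2 v (hE0P v hv) hv' ▸ a6)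
    let f : V → ZMod 2 := fun v => if v ∈ X1 then f1 v else f2 v + (ε0 + f1 a0 + f2 b0)
    have hfX1 : ∀ v ∈ X1, f v = f1 v := fun v hv => by simp only [f, if_pos hv]
    have hfX2 : ∀ v ∈ X2, f v = f2 v + (ε0 + f1 a0 + f2 b0) := fun v hv => by
      have : v ∉ X1 := fun h => hL.dis v h hv
      simp only [f, if_neg this]
    have hseg : ∀ Q' : Set V, (∀ v ∈ Q', v ∈ P' ∪ D2 ∪ Q) → (a0 ∉ Q' ∨ b0 ∉ Q') →
        ∀ E a b ε, Pth G σ E a b ε → (∀ v ∈ E, v ∈ Q') → a ∈ X1 ∪ X2 → b ∈ X1 ∪ X2 →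
        (∀ v ∈ E, v ∈ X1 ∪ X2 → v = a ∨ v = b) → ε = f a + f b := by
      intro Q' hQ' hor E a b ε hE hEQ ha hb hEW
      have rung : ∀ (a b : V), Pth G σ E a b ε → a ∈ X1 → b ∈ X2 →
          (∀ v ∈ E, v ∈ X1 ∪ X2 → v = a ∨ v = b) → ε = f a + f b := by
        intro a b hE ha hb hEW
        have hl := hC.ladder hL hE b4 ha hb a6 b6
          (fun v hv hv' => by
            rcases hEW v hv (Or.inl hv') with h | h
            · exact h
            · exact absurd hb (h ▸ hL.dis v hv'))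
          (fun v hv hv' => by
            rcases hEW v hv (Or.inr hv') with h | h
            · exact absurd hv' (hL.dis v (h ▸ ha))
            · exact h)
          hE0X1 b7 (fun v hv hv' => hE0Q0 v hv' (hQ' v (hEQ v hv))) (by
            rcases hor with h | h
            · left; rintro rfl; exact h (hEQ _ hE.left)
            · right; rintro rfl; exact h (hEQ _ hE.right))
        rw [hfX1 a ha, hfX2 b hb]
        linear_combination (norm := (ring_nf; try reduce_mod_char)) hl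
      rcases ha with ha | ha <;> rcases hb with hb | hb
      · rw [hfX1 a ha, hfX1 b hb]
        refine hC.ear hL hE ha hb (fun v hv hv' => hEW v hv (Or.inl hv')) ?_
        intro v hv hv'
        rcases hEW v hv (Or.inr hv') with h | h
        · exact hL.dis v (h ▸ ha) hv'
        · exact hL.dis v (h ▸ hb) hv'
      · exact rung a b hE ha hb hEW
      · rw [rung b a hE.symm hb ha (fun v hv hv' => (hEW v hv hv').symm), add_comm]
      · rw [hfX2 a ha, hfX2 b hb]
        have := hC.swapS.swapT.ear hL.swap hE ha hb (fun v hv hv' => hEW v hv (Or.inr hv')) (by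
          intro v hv hv'
          rcases hEW v hv (Or.inl hv') with h | h
          · exact hL.dis v hv' (h ▸ ha)
          · exact hL.dis v hv' (h ▸ hb))
        rw [this]
        linear_combination -zz (ε0 + f1 a0 + f2 b0)
    have hA := seg_path (hseg A (fun v hv => (m1 v).2 (Or.inl hv)) (Or.inl ha0A)) A b0 z α m4
      (fun v hv => hv) (Or.inr b6) (Or.inl hzX)
    have hB := seg_path (hseg B (fun v hv => (m1 v).2 (Or.inr hv)) (Or.inr hb0B)) B z a0 β m5
      (fun v hv => hv) (Or.inl hzX) (Or.inl a6)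
    rw [hfX2 b0 b6] at hA
    rw [hfX1 a0 a6] at hB
    rw [g3]
    linear_combination (norm := (ring_nf; try reduce_mod_char)) a3 + b3 + m3 + hA + hB
  · push Not at hX2
    obtain ⟨D1, D2, d1, d2, g1, g2, g3, g4, g5⟩ := circle_split (σ := σ) w hw hx hy hxy
    have hseg : ∀ Q' : Set V, (∀ v ∈ Q', v ∈ w.support) →
        ∀ E a b ε, Pth G σ E a b ε → (∀ v ∈ E, v ∈ Q') → a ∈ X1 → b ∈ X1 →
        (∀ v ∈ E, v ∈ X1 → v = a ∨ v = b) → ε = f1 a + f1 b :=
      fun Q' hQ' E a b ε hE hEQ ha hb hEW =>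
        hC.ear hL hE ha hb hEW (fun v hv => hX2 v (hQ' v (hEQ v hv)))
    have h1 := seg_path (hseg D1 (fun v hv => (g4 v).2 (Or.inl hv))) D1 x y d1 g1
      (fun v hv => hv) hxX hyX
    have h2 := seg_path (hseg D2 (fun v hv => (g4 v).2 (Or.inr hv))) D2 x y d2 g2
      (fun v hv => hv) hxX hyX
    rw [g3, h1, h2]
    exact zz _

end Pool.Agent.D0H8.NC
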