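import Pool.Agent.D0H8.NC.Three

/-! # Three-connected graphs: every circle avoiding the two edges is positive -/

set_option autoImplicit false

namespace Pool.Agent.D0H8.NC

open SimpleGraph Pool.Agent.Results.MP_790549_co.CommonNegativeCircles

variable {V : Type} {G : SimpleGraph V} {σ : Sym2 V → ZMod 2} {s1 s2 t1 t2 : V} {κ : ZMod 2}

theorem Cst.two_same [Fintype V] (hC : Cst G σ s1 s2 t1 t2 κ) {X1 X2 : Set V} {c1 c2 : ZMod 2}
    (h1 : Pth G σ X1 s1 t1 c1) (h2 : Pth G σ X2 s2 t2 c2) (hd : ∀ v ∈ X1, v ∉ X2)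
    {v : V} (w : G.Walk v v) (hw : w.IsCycle) {x x' p p' : V} {R R' : Set V} {r r' : ZMod 2}
    (hR : Pth G σ R x p r) (hR' : Pth G σ R' x' p' r') (hx : x ∈ w.support)
    (hx' : x' ∈ w.support) (hp : p ∈ X1) (hp' : p' ∈ X1) (hRR : ∀ v ∈ R, v ∉ R')
    (hRD : ∀ v ∈ R, v ∈ w.support → v = x) (hRD' : ∀ v ∈ R', v ∈ w.support → v = x')
    (hRW : ∀ v ∈ R, v ∈ X1 ∪ X2 → v = p) (hRW' : ∀ v ∈ R', v ∈ X1 ∪ X2 → v = p') :
    sgn σ w = 0 := by
  classical
  have hxx : x ≠ x' := fun e => hRR x hR.left (e ▸ hR'.left)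
  have hpp : p ≠ p' := fun e => hRR p hR.right (e ▸ hR'.right)
  by_cases hD1 : ∃ a ∈ w.support, ∃ b ∈ w.support, a ≠ b ∧ a ∈ X1 ∧ b ∈ X1
  · obtain ⟨a, ha, b, hb, hab, haX, hbX⟩ := hD1
    exact hC.circle' h1 h2 hd w hw ha hb hab haX hbX
  by_cases hD2 : ∃ a ∈ w.support, ∃ b ∈ w.support, a ≠ b ∧ a ∈ X2 ∧ b ∈ X2
  · obtain ⟨a, ha, b, hb, hab, haX, hbX⟩ := hD2
    exact hC.swapS.swapT.circle' h2 h1 (fun v hv hv' => hd v hv' hv) w hw ha hb hab haX hbX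
  push Not at hD1 hD2
  have hxX2 : x ∉ X2 := fun h => by
    have := hRW x hR.left (Or.inr h)
    exact hd p hp (this ▸ h)
  have hxX2' : x' ∉ X2 := fun h => by
    have := hRW' x' hR'.left (Or.inr h)
    exact hd p' hp' (this ▸ h)
  -- an arc avoiding `X2`
  obtain ⟨D, d, hD, hDs, hDX⟩ : ∃ D d, Pth G σ D x x' d ∧ (∀ z ∈ D, z ∈ w.support) ∧
      ∀ z ∈ D, z ∉ X2 := by
    obtain ⟨D1, D2, d1, d2, g1, g2, g3, g4, g5⟩ := circle_split (σ := σ) w hw hx hx' hxx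
    by_cases h : ∀ z ∈ D1, z ∉ X2
    · exact ⟨D1, d1, g1, fun z hz => (g4 z).2 (Or.inl hz), h⟩
    · refine ⟨D2, d2, g2, fun z hz => (g4 z).2 (Or.inr hz), ?_⟩
      intro z hz hzX
      push Not at h
      obtain ⟨u, hu, huX⟩ := h
      have e : u = z := by
        by_contra hne
        exact hD2 u ((g4 u).2 (Or.inl hu)) z ((g4 z).2 (Or.inr hz)) hne huX hzX
      subst e
      rcases g5 u hu hz with h | h
      · exact hxX2 (h ▸ hzX)
      · exact hxX2' (h ▸ hzX)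
  have hRX2 : ∀ z ∈ R, z ∉ X2 := fun z hz h => by
    have := hRW z hz (Or.inr h)
    exact hd p hp (this ▸ h)
  have hRX2' : ∀ z ∈ R', z ∉ X2 := fun z hz h => by
    have := hRW' z hz (Or.inr h)
    exact hd p' hp' (this ▸ h)
  by_cases hx1 : x ∈ X1
  · have hxp : x = p := hRW x hR.left (Or.inl hx1)
    have hE : Pth G σ (D ∪ R') x p' (d + r') :=
      hD.append hR' fun z hz hz' => hRD' z hz' (hDs z hz)
    refine hC.circle_ear h1 h2 hd hE hx1 hp' (hxp ▸ hpp) ?_ ?_ w hw hx hx' hxx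
      (Or.inl hD.left) (Or.inl hD.right)
    · rintro z (hz | hz) hzX
      · left
        by_contra hne
        exact hD1 x hx z (hDs z hz) (Ne.symm hne) hx1 hzX
      · exact Or.inr (hRW' z hz (Or.inl hzX))
    · rintro z (hz | hz)
      · exact hDX z hz
      · exact hRX2' z hz
  by_cases hx1' : x' ∈ X1
  · have hxp : x' = p' := hRW' x' hR'.left (Or.inl hx1')
    have hE : Pth G σ (D ∪ R) x' p (d + r) :=
      hD.symm.append hR fun z hz hz' => hRD z hz' (hDs z hz)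
    refine hC.circle_ear h1 h2 hd hE hx1' hp (hxp ▸ hpp.symm) ?_ ?_ w hw hx hx' hxx
      (Or.inl hD.left) (Or.inl hD.right)
    · rintro z (hz | hz) hzX
      · left
        by_contra hne
        exact hD1 x' hx' z (hDs z hz) (Ne.symm hne) hx1' hzX
      · exact Or.inr (hRW z hz (Or.inl hzX))
    · rintro z (hz | hz)
      · exact hDX z hz
      · exact hRX2 z hz
  have hE0 : Pth G σ (D ∪ R') x p' (d + r') :=
    hD.append hR' fun z hz hz' => hRD' z hz' (hDs z hz)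
  obtain ⟨m, P, Q, p1, q1, a1, a2, a3, a4, a5, a6, a7⟩ :=
    hE0.first (W := X1) ⟨p', Or.inr hR'.right, hp'⟩
  have hPE : ∀ z ∈ P, z ∈ D ∪ R' := fun z hz => (a1 z).2 (Or.inl hz)
  have hRP : ∀ z ∈ R, z ∈ P → z = x := by
    intro z hz hz'
    rcases hPE z hz' with h | h
    · exact hRD z hz (hDs z h)
    · exact absurd h (hRR z hz)
  have hE : Pth G σ (R ∪ P) p m (r + p1) := hR.symm.append a4 hRP
  have hpm : p ≠ m := by
    rintro rfl
    have := hRP _ hR.right a4.right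
    exact hx1 (this ▸ hp)
  refine hC.circle_ear h1 h2 hd hE hp a6 hpm ?_ ?_ w hw hx (y := if m ∈ D then m else x') ?_ ?_
    (Or.inl hR.left) ?_
  · rintro z (hz | hz) hzX
    · exact Or.inl (hRW z hz (Or.inl hzX))
    · exact Or.inr (a7 z hz hzX)
  · rintro z (hz | hz)
    · exact hRX2 z hz
    · rcases hPE z hz with h | h
      · exact hDX z h
      · exact hRX2' z h
  · split_ifs with h
    · exact hDs m h
    · exact hx'
  · split_ifs with h
    · rintro rfl; exact hx1 a6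
    · exact hxx
  · right
    split_ifs with h
    · exact a4.right
    · have hmR : m ∈ R' := (hPE m a4.right).resolve_left h
      have e := hRW' m hmR (Or.inl a6)
      subst e
      have hQ := (a5.eq_of_eq).1
      rcases (a1 x').1 (Or.inl hD.right) with h' | h'
      · exact h'
      · rw [hQ, Set.mem_singleton_iff] at h'
        rw [h']; exact a4.right

theorem Cst.circle_three [Fintype V] (hC : Cst G σ s1 s2 t1 t2 κ) {v : V} (w : G.Walk v v)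
    (hw : w.IsCycle)
    (h3 : ∀ W : Set V, s1 ∈ W → s2 ∈ W → t1 ∈ W → t2 ∈ W → ∀ Z : Finset V, Z.card ≤ 2 →
      ∃ x y X c, x ∈ w.support ∧ y ∈ W ∧ Pth G σ X x y c ∧ ∀ z ∈ X, z ∉ Z) :
    sgn σ w = 0 := by
  have key : ∀ (t1 t2 : V), Cst G σ s1 s2 t1 t2 κ → (∀ W : Set V, s1 ∈ W → s2 ∈ W → t1 ∈ W →
      t2 ∈ W → ∀ Z : Finset V, Z.card ≤ 2 →
      ∃ x y X c, x ∈ w.support ∧ y ∈ W ∧ Pth G σ X x y c ∧ ∀ z ∈ X, z ∉ Z) →
      ∀ X1 X2 c1 c2, Pth G σ X1 s1 t1 c1 → Pth G σ X2 s2 t2 c2 → (∀ v ∈ X1, v ∉ X2) →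
      sgn σ w = 0 := by
    intro t1 t2 hC h3 X1 X2 c1 c2 h1 h2 hd
    rcases menger_pth G σ ∅ {z | z ∈ w.support} (X1 ∪ X2) (by simp) 3 with
      ⟨X, x, y, c, g1, g2⟩ | ⟨Z, g1, g2⟩
    · obtain ⟨a1, a2, a3, a4, a5, a6⟩ := g1 0
      obtain ⟨b1, b2, b3, b4, b5, b6⟩ := g1 1
      obtain ⟨d1, d2, d3, d4, d5, d6⟩ := g1 2
      have h01 := g2 0 1 (by decide)
      have h02 := g2 0 2 (by decide)
      have h12 := g2 1 2 (by decide)
      have hsw : X2 ∪ X1 = X1 ∪ X2 := Set.union_comm _ _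
      rcases a3 with ha | ha <;> rcases b3 with hb | hb
      · exact hC.two_same h1 h2 hd w hw a1 b1 a2 b2 ha hb h01 a4 b4 a5 b5
      · rcases d3 with hdd | hdd
        · exact hC.two_same h1 h2 hd w hw a1 d1 a2 d2 ha hdd h02 a4 d4 a5 d5
        · exact hC.swapS.swapT.two_same h2 h1 (fun v hv hv' => hd v hv' hv) w hw b1 d1 b2 d2 hb hdd
            h12 b4 d4 (by rw [hsw]; exact b5) (by rw [hsw]; exact d5)
      · rcases d3 with hdd | hdd
        · exact hC.two_same h1 h2 hd w hw b1 d1 b2 d2 hb hdd h12 b4 d4 b5 d5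
        · exact hC.swapS.swapT.two_same h2 h1 (fun v hv hv' => hd v hv' hv) w hw a1 d1 a2 d2 ha hdd
            h02 a4 d4 (by rw [hsw]; exact a5) (by rw [hsw]; exact d5)
      · exact hC.swapS.swapT.two_same h2 h1 (fun v hv hv' => hd v hv' hv) w hw a1 b1 a2 b2 ha hb
          h01 a4 b4 (by rw [hsw]; exact a5) (by rw [hsw]; exact b5)
    · exfalso
      obtain ⟨p, q, X, c, hp, hq, hX, hdd⟩ := h3 (X1 ∪ X2) (Or.inl h1.left) (Or.inr h2.left)
        (Or.inl h1.right) (Or.inr h2.right) Z (by omega)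
      obtain ⟨z, hz, hzZ⟩ := g2 p q X c hp hq hX (by simp)
      exact hdd z hz hzZ
  obtain ⟨X1, X2, c1, c2, hd, ⟨h1, h2⟩ | ⟨h1, h2⟩⟩ := hC.exists_link
  · exact key t1 t2 hC h3 X1 X2 c1 c2 h1 h2 hd
  · exact key t2 t1 hC.swapT (fun W a b c d => h3 W a b d c) X1 X2 c1 c2 h1 h2 hd

/-- connectedness of an induced subgraph in terms of paths -/
theorem conn_pth {S : Set V} (h : (G.induce Sᶜ).Connected) {a b : V} (ha : a ∉ S) (hb : b ∉ S) :
    ∃ X c, Pth G σ X a b c ∧ ∀ v ∈ X, v ∉ S := by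
  obtain ⟨p⟩ := h.preconnected ⟨a, ha⟩ ⟨b, hb⟩
  have key : ∀ (u v : (Sᶜ : Set V)) (p : (G.induce Sᶜ).Walk u v),
      Relation.ReflTransGen (fun a b => G.Adj a b ∧ b ∉ S) u.1 v.1 := by
    intro u v p
    induction p with
    | nil => exact .refl
    | @cons x y z hxy _ ih => exact Relation.ReflTransGen.head ⟨hxy, y.2⟩ ih
  obtain ⟨X, c, hX, hU⟩ := pth_of_rtg (σ := σ) (U := fun v => v ∉ S) (key _ _ p) ha
  exact ⟨X, c, hX, hU⟩

theorem Pth.avoid {F : Set (Sym2 V)} {X : Set V} {x y : V} {c : ZMod 2} (h : Pth G σ X x y c)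
    (hF : ∀ a b, a ∈ X → b ∈ X → s(a, b) ∉ F) : Pth (G.deleteEdges F) σ X x y c := by
  obtain ⟨w, h1, h2, h3⟩ := h
  have hE : ∀ e ∈ w.edges, e ∈ (G.deleteEdges F).edgeSet := by
    intro e he
    rw [edgeSet_deleteEdges]
    refine ⟨w.edges_subset_edgeSet he, ?_⟩
    induction e using Sym2.ind with
    | _ a b =>
      exact hF a b ((h2 a).2 (w.fst_mem_support_of_mem_edges he))
        ((h2 b).2 (w.snd_mem_support_of_mem_edges he))
  refine ⟨w.transfer _ hE, h1.transfer hE, ?_, ?_⟩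
  · intro v; rw [h2, Walk.support_transfer]
  · rw [← h3]; unfold sgn; rw [Walk.edges_transfer]

theorem pair_notin {a b c d x y : V} {X : Set V} (h1 : ¬ (a ∈ X ∧ b ∈ X))
    (h2 : ¬ (c ∈ X ∧ d ∈ X)) (hx : x ∈ X) (hy : y ∈ X) :
    s(x, y) ∉ ({s(a, b), s(c, d)} : Set (Sym2 V)) := by
  rintro (h | h)
  · rw [Sym2.eq_iff] at h
    rcases h with ⟨rfl, rfl⟩ | ⟨rfl, rfl⟩
    · exact h1 ⟨hx, hy⟩
    · exact h1 ⟨hy, hx⟩
  · rw [Set.mem_singleton_iff, Sym2.eq_iff] at h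
    rcases h with ⟨rfl, rfl⟩ | ⟨rfl, rfl⟩
    · exact h2 ⟨hx, hy⟩
    · exact h2 ⟨hy, hx⟩

/-- a path from `A ∋ s1, s2` to `B ∋ t1, t2` can be taken without the two edges -/
theorem conn_proper {S : Set V} (h : (G.induce Sᶜ).Connected) {A B : Set V} {a b : V}
    (ha : a ∈ A) (haS : a ∉ S) (hb : b ∈ B) (hbS : b ∉ S)
    (h1 : (s1 ∈ A ∧ s2 ∈ A) ∨ (s1 ∈ B ∧ s2 ∈ B) ∨ s1 ∈ S)
    (h2 : (t1 ∈ A ∧ t2 ∈ A) ∨ (t1 ∈ B ∧ t2 ∈ B) ∨ t1 ∈ S) (hs : s1 ≠ s2) (ht : t1 ≠ t2) :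
    ∃ x y X c, x ∈ A ∧ y ∈ B ∧
      Pth (G.deleteEdges {s(s1, s2), s(t1, t2)}) σ X x y c ∧ ∀ v ∈ X, v ∉ S := by
  obtain ⟨X, c, hX, hXS⟩ := conn_pth (σ := σ) h haS hbS
  obtain ⟨X', x, y, c', k1, k2, k3, k4, k5, k6⟩ := hX.proper ha hb
  refine ⟨x, y, X', c', k2, k3, k4.avoid ?_, fun v hv => hXS v (k1 hv)⟩
  intro p q hp hq
  refine pair_notin ?_ ?_ hp hq
  · rintro ⟨g1, g2⟩
    rcases h1 with h | h | h
    · exact hs ((k5 _ g1 h.1).trans (k5 _ g2 h.2).symm)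
    · exact hs ((k6 _ g1 h.1).trans (k6 _ g2 h.2).symm)
    · exact hXS _ (k1 g1) h
  · rintro ⟨g1, g2⟩
    rcases h2 with h | h | h
    · exact ht ((k5 _ g1 h.1).trans (k5 _ g2 h.2).symm)
    · exact ht ((k6 _ g1 h.1).trans (k6 _ g2 h.2).symm)
    · exact hXS _ (k1 g1) h

theorem cst_three (hG : ThreeConn G) (hs : G.Adj s1 s2) (ht : G.Adj t1 t2) (st11 : s1 ≠ t1)
    (st12 : s1 ≠ t2) (st21 : s2 ≠ t1) (st22 : s2 ≠ t2) (k : ZMod 2)
    (hk : ∀ (u : V) (w : G.Walk u u), w.IsCycle → s(s1, s2) ∈ w.edges → s(t1, t2) ∈ w.edges →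
      sgn σ w = k) :
    Cst (G.deleteEdges {s(s1, s2), s(t1, t2)}) σ s1 s2 t1 t2
      (k + σ s(s1, s2) + σ s(t1, t2)) := by
  classical
  have hne : s(s2, s1) ≠ s(t1, t2) := by
    intro h
    rw [Sym2.eq_iff] at h
    rcases h with ⟨h, -⟩ | ⟨h, -⟩
    · exact st21 h
    · exact st22 h
  have hne' : s(s2, s1) ≠ s(t2, t1) := by rwa [Sym2.eq_swap (a := t2)]
  have hle : G.deleteEdges {s(s1, s2), s(t1, t2)} ≤ G := deleteEdges_le _
  refine ⟨hs.ne, ht.ne, st11, st12, st21, st22, ?_, ?_, ?_, ?_, ?_, ?_, ?_⟩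
  · rw [deleteEdges_adj]; simp
  · rw [deleteEdges_adj]; simp
  · intro X Y c d hX hY hd
    obtain ⟨P, hP1, hP2, hP3⟩ := hX.mono hle
    obtain ⟨Q, hQ1, hQ2, hQ3⟩ := (hY.mono hle).symm
    obtain ⟨w, hw1, hw2, hw3, hw4⟩ := circ σ hs.symm ht hne P Q hP1 hQ1 (by
      intro z hz hz'
      exact hd z ((hP2 z).2 hz) ((hQ2 z).2 hz'))
    rw [Sym2.eq_swap] at hw2 hw4
    have := hk s2 w hw1 hw2 hw3
    rw [hw4, hP3, hQ3] at this
    linear_combination (norm := (ring_nf; try reduce_mod_char)) this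
  · intro X Y c d hX hY hd
    obtain ⟨P, hP1, hP2, hP3⟩ := hX.mono hle
    obtain ⟨Q, hQ1, hQ2, hQ3⟩ := (hY.mono hle).symm
    obtain ⟨w, hw1, hw2, hw3, hw4⟩ := circ σ hs.symm ht.symm hne' P Q hP1 hQ1 (by
      intro z hz hz'
      exact hd z ((hP2 z).2 hz) ((hQ2 z).2 hz'))
    rw [Sym2.eq_swap] at hw2 hw4
    rw [Sym2.eq_swap (a := t2)] at hw3 hw4
    have := hk s2 w hw1 hw2 hw3
    rw [hw4, hP3, hQ3] at this
    linear_combination (norm := (ring_nf; try reduce_mod_char)) this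
  · intro Z hZ h1 h2
    have hc := hG.2 (Z : Set V) (by rw [Set.ncard_coe_finset]; exact hZ)
    obtain ⟨a, ha, haZ⟩ : ∃ a ∈ ({s1, s2} : Set V), a ∉ (Z : Set V) := by
      by_contra hcon
      push Not at hcon
      exact h1 ⟨hcon s1 (by simp), hcon s2 (by simp)⟩
    obtain ⟨b, hb, hbZ⟩ : ∃ b ∈ ({t1, t2} : Set V), b ∉ (Z : Set V) := by
      by_contra hcon
      push Not at hcon
      exact h2 ⟨hcon t1 (by simp), hcon t2 (by simp)⟩
    obtain ⟨x, y, X, c, hx, hy, hX, hd⟩ := conn_proper (σ := σ) (s1 := s1) (s2 := s2) (t1 := t1)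
      (t2 := t2) hc ha haZ hb hbZ (Or.inl ⟨by simp, by simp⟩) (Or.inr (Or.inl ⟨by simp, by simp⟩))
      hs.ne ht.ne
    exact ⟨x, y, X, c, by simpa using hx, by simpa using hy, hX, hd⟩
  · intro m hm1 hm2 _
    have hc := hG.2 ({s1, s2} : Set V) (by rw [Set.ncard_pair hs.ne])
    obtain ⟨x, y, X, c, hx, hy, hX, hd⟩ := conn_proper (σ := σ) (s1 := s1) (s2 := s2) (t1 := t1)
      (t2 := t2) (A := {m}) (B := {t1, t2}) (a := m) (b := t1) hc (by simp) (by simp [hm1, hm2])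
      (by simp) (by simp [st11.symm, st21.symm]) (Or.inr (Or.inr (by simp)))
      (Or.inr (Or.inl ⟨by simp, by simp⟩)) hs.ne ht.ne
    rw [Set.mem_singleton_iff] at hx
    subst hx
    exact ⟨y, X, c, by simpa using hy, hX, fun h => hd _ h (by simp), fun h => hd _ h (by simp)⟩
  · intro m hm1 hm2 _
    have hc := hG.2 ({t1, t2} : Set V) (by rw [Set.ncard_pair ht.ne])
    obtain ⟨x, y, X, c, hx, hy, hX, hd⟩ := conn_proper (σ := σ) (s1 := s1) (s2 := s2) (t1 := t1)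
      (t2 := t2) (A := {m}) (B := {s1, s2}) (a := m) (b := s1) hc (by simp) (by simp [hm1, hm2])
      (by simp) (by simp [st11, st12]) (Or.inr (Or.inl ⟨by simp, by simp⟩))
      (Or.inr (Or.inr (by simp))) hs.ne ht.ne
    rw [Set.mem_singleton_iff] at hx
    subst hx
    exact ⟨y, X, c, by simpa using hy, hX, fun h => hd _ h (by simp), fun h => hd _ h (by simp)⟩

theorem three_le_support {v : V} (w : G.Walk v v) (hw : w.IsCycle) (Z : Finset V)
    (hZ : Z.card ≤ 2) : ∃ x ∈ w.support, x ∉ Z := by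
  classical
  by_contra hcon
  push Not at hcon
  have h1 : w.support.tail.toFinset ⊆ Z := by
    intro z hz
    rw [List.mem_toFinset] at hz
    exact hcon z (List.mem_of_mem_tail hz)
  have h2 := Finset.card_le_card h1
  rw [List.toFinset_card_of_nodup hw.support_nodup] at h2
  have h3 := hw.three_le_length
  rw [List.length_tail, Walk.length_support] at h2
  omega

/-- disjoint edges of a 3-connected graph -/
theorem three_disjoint [Fintype V] (hG : ThreeConn G) (hs : G.Adj s1 s2) (ht : G.Adj t1 t2)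
    (st11 : s1 ≠ t1) (st12 : s1 ≠ t2) (st21 : s2 ≠ t1) (st22 : s2 ≠ t2) (k : ZMod 2)
    (hk : ∀ (u : V) (w : G.Walk u u), w.IsCycle → s(s1, s2) ∈ w.edges → s(t1, t2) ∈ w.edges →
      sgn σ w = k) : BalancedOff G σ {s(s1, s2), s(t1, t2)} := by
  classical
  have hC := cst_three hG hs ht st11 st12 st21 st22 k hk
  intro u w hw hF
  have hE : ∀ e ∈ w.edges, e ∈ (G.deleteEdges {s(s1, s2), s(t1, t2)}).edgeSet := by
    intro e he
    rw [edgeSet_deleteEdges]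
    exact ⟨w.edges_subset_edgeSet he, hF e he⟩
  have hw' := hw.transfer hE
  have := hC.circle_three (w.transfer _ hE) hw' (by
    intro W h1 h2 h3 h4 Z hZ
    have hc := hG.2 (Z : Set V) (by rw [Set.ncard_coe_finset]; exact hZ)
    obtain ⟨x, hx, hxZ⟩ := three_le_support _ hw' Z hZ
    obtain ⟨b, hb, hbZ⟩ : ∃ b ∈ W, b ∉ (Z : Set V) := by
      by_contra hcon
      push Not at hcon
      have h5 := finset_pair hs.ne hZ (hcon s1 h1) (hcon s2 h2) t1 (hcon t1 h3)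
      rcases h5 with h5 | h5
      · exact st11 h5.symm
      · exact st21 h5.symm
    obtain ⟨x', y', X, c, k1, k2, k3, k4⟩ := conn_proper (σ := σ) (s1 := s1) (s2 := s2) (t1 := t1)
      (t2 := t2) (A := {z | z ∈ (w.transfer _ hE).support}) (B := W) (a := x) (b := b) hc hx hxZ hb
      hbZ (Or.inr (Or.inl ⟨h1, h2⟩)) (Or.inr (Or.inl ⟨h3, h4⟩)) hs.ne ht.ne
    exact ⟨x', y', X, c, k1, k2, k3, k4⟩)
  rw [← this]
  unfold sgn
  rw [Walk.edges_transfer]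

end Pool.Agent.D0H8.NC
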