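import Pool.Agent.D0H8.NC.Link

/-! # Covering pairs of 2-separations -/

set_option autoImplicit false

namespace Pool.Agent.D0H8.NC

open SimpleGraph Pool.Agent.Results.MP_790549_co.CommonNegativeCircles

variable {V : Type} {σ : Sym2 V → ZMod 2} {L A A' : Set (Sym2 V)} {e f : Sym2 V}
  {s1 s2 t1 t2 t t' : V} {κ : ZMod 2}

/-- two disjoint paths in `L` from `s1`, `s2` to `t`, `t'` -/
structure Lkg (σ : Sym2 V → ZMod 2) (L : Set (Sym2 V)) (s1 s2 t t' : V) (P Q : Set V)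
    (p q : ZMod 2) : Prop where
  hP : Pth (fromEdgeSet L) σ P s1 t p
  hQ : Pth (fromEdgeSet L) σ Q s2 t' q
  dis : ∀ v ∈ P, v ∉ Q

theorem Lkg.swap {P Q : Set V} {p q : ZMod 2} (h : Lkg σ L s1 s2 t t' P Q p q) :
    Lkg σ L s2 s1 t' t Q P q p :=
  ⟨h.hQ, h.hP, fun v hv hv' => h.dis v hv' hv⟩

/-- the set `L` of edges is covered by the linkages between the ends of `e` and `f` -/
structure Net (σ : Sym2 V → ZMod 2) (L : Set (Sym2 V)) (e f : Sym2 V) (s1 s2 t1 t2 : V) :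
    Prop where
  he : e = s(s1, s2)
  hf : f = s(t1, t2)
  ef : e ≠ f
  eL : e ∈ L
  fL : f ∈ L
  nd : ∀ g ∈ L, ¬ g.IsDiag
  cov : ∀ m m', s(m, m') ∈ L → s(m, m') ≠ e → s(m, m') ≠ f → ∃ t t' P Q p q,
    Ends t t' t1 t2 ∧ Lkg σ L s1 s2 t t' P Q p q ∧ ((m ∈ P ∧ m' ∈ P) ∨ (m ∈ Q ∧ m' ∈ Q))
  one : ∃ t t' P Q p q, Ends t t' t1 t2 ∧ Lkg σ L s1 s2 t t' P Q p q

theorem Net.swap (h : Net σ L e f s1 s2 t1 t2) : Net σ L e f s2 s1 t1 t2 where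
  he := by rw [h.he, Sym2.eq_swap]
  hf := h.hf
  ef := h.ef
  eL := h.eL
  fL := h.fL
  nd := h.nd
  cov := fun m m' h1 h2 h3 => by
    obtain ⟨t, t', P, Q, p, q, k1, k2, k3⟩ := h.cov m m' h1 h2 h3
    exact ⟨t', t, Q, P, q, p, k1.swap, k2.swap, k3.symm⟩
  one := by
    obtain ⟨t, t', P, Q, p, q, k1, k2⟩ := h.one
    exact ⟨t', t, Q, P, q, p, k1.swap, k2.swap⟩

theorem Ends.mem (h : Ends t t' t1 t2) : t ∈ s(t1, t2) ∧ t' ∈ s(t1, t2) := by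
  rcases h with ⟨rfl, rfl⟩ | ⟨rfl, rfl⟩
  · exact ⟨by simp, by simp⟩
  · exact ⟨by simp, by simp⟩

theorem bd_sub (A : Set (Sym2 V)) (Z : Set V) : (∀ v, v ∈ bd L A → v ∈ Z) → bd L A ⊆ Z :=
  fun h v hv => h v hv

/-- two disjoint paths crossing a 2-separation -/
theorem bd_pair [Finite V] (hb : (bd L A).ncard ≤ 2) {F : Set (Sym2 V)} (hF : F ⊆ L) (heA : e ∈ A)
    (h1 : s1 ∈ e) (h2 : s2 ∈ e) {z z' : V} {P Q : Set V} {p q : ZMod 2}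
    (hP : Pth (fromEdgeSet F) σ P s1 z p) (hQ : Pth (fromEdgeSet F) σ Q s2 z' q)
    (hd : ∀ v ∈ P, v ∉ Q) (hz : ∃ g ∈ L, g ∉ A ∧ z ∈ g) (hz' : ∃ g ∈ L, g ∉ A ∧ z' ∈ g) :
    ∃ x ∈ P, ∃ y ∈ Q, x ≠ y ∧ bd L A = {x, y} := by
  obtain ⟨x, hx, hxb⟩ := half_exists hF hP ⟨e, heA, h1⟩ hz
  obtain ⟨y, hy, hyb⟩ := half_exists hF hQ ⟨e, heA, h2⟩ hz'
  have hxy : x ≠ y := fun h => hd x hx (h ▸ hy)
  refine ⟨x, hx, y, hy, hxy, ?_⟩
  symm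
  apply Set.eq_of_subset_of_ncard_le _ _ (Set.toFinite _)
  · rintro v (rfl | hv)
    · exact hxb
    · rw [Set.mem_singleton_iff] at hv
      subst hv; exact hyb
  · rw [Set.ncard_pair hxy]; exact hb

theorem Net.bd_two [Finite V] (hN : Net σ L e f s1 s2 t1 t2) (hA : Sep2 L e f A)
    (hE : Ends t t' t1 t2) {P Q : Set V} {p q : ZMod 2} (hl : Lkg σ L s1 s2 t t' P Q p q) :
    ∃ x ∈ P, ∃ y ∈ Q, x ≠ y ∧ bd L A = {x, y} := by
  have h1 : s1 ∈ e := by rw [hN.he]; simp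
  have h2 : s2 ∈ e := by rw [hN.he]; simp
  have h3 := hE.mem
  rw [← hN.hf] at h3
  exact bd_pair hA.2.2.2 subset_rfl hA.2.1 h1 h2 hl.hP hl.hQ hl.dis ⟨f, hN.fL, hA.2.2.1, h3.1⟩
    ⟨f, hN.fL, hA.2.2.1, h3.2⟩

/-- both paths of a linkage, cut at two nested 2-separations -/
theorem Net.parts [Finite V] (hN : Net σ L e f s1 s2 t1 t2) (hA : Sep2 L e f A)
    (hA' : Sep2 L e f A') (hAA : A ⊆ A')
    (hE : Ends t t' t1 t2) {P Q : Set V} {p q : ZMod 2} (hl : Lkg σ L s1 s2 t t' P Q p q) :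
    ∃ x x' y y' P1 P2 P3 p1 p2 p3 Q1 Q2 Q3 q1 q2 q3,
      Parts σ L A A' s1 t P p x x' P1 P2 P3 p1 p2 p3 ∧
      Parts σ L A A' s2 t' Q q y y' Q1 Q2 Q3 q1 q2 q3 ∧
      bd L A = {x, y} ∧ bd L A' = {x', y'} ∧ x ∈ P ∧ x' ∈ P ∧ y ∈ Q ∧ y' ∈ Q := by
  obtain ⟨x, hx, y, hy, hxy, hb⟩ := hN.bd_two hA hE hl
  obtain ⟨x', hx', y', hy', hxy', hb'⟩ := hN.bd_two hA' hE hl
  have h1 : s1 ∈ e := by rw [hN.he]; simp
  have h2 : s2 ∈ e := by rw [hN.he]; simp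
  have h3 := hE.mem
  rw [← hN.hf] at h3
  obtain ⟨P1, P2, P3, p1, p2, p3, hp⟩ := parts_of hA.1 hA'.1 hAA hA.2.1 hN.fL hA'.2.2.1 h1 h3.1
    hl.hP (x := x) (x' := x') (fun v hv hv' => by
      rw [hb] at hv'
      rcases hv' with h | h
      · exact h
      · rw [Set.mem_singleton_iff] at h
        subst h; exact absurd hy (hl.dis _ hv))
    (fun v hv hv' => by
      rw [hb'] at hv'
      rcases hv' with h | h
      · exact h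
      · rw [Set.mem_singleton_iff] at h
        subst h; exact absurd hy' (hl.dis _ hv))
  obtain ⟨Q1, Q2, Q3, q1, q2, q3, hq⟩ := parts_of hA.1 hA'.1 hAA hA.2.1 hN.fL hA'.2.2.1 h2 h3.2
    hl.hQ (x := y) (x' := y') (fun v hv hv' => by
      rw [hb] at hv'
      rcases hv' with h | h
      · subst h; exact absurd hv (hl.dis _ hx)
      · exact h)
    (fun v hv hv' => by
      rw [hb'] at hv'
      rcases hv' with h | h
      · subst h; exact absurd hv (hl.dis _ hx')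
      · exact h)
  exact ⟨x, x', y, y', P1, P2, P3, p1, p2, p3, Q1, Q2, Q3, q1, q2, q3, hp, hq, hb, hb', hx, hx',
    hy, hy'⟩

/-- where a vertex with an edge between `A` and `A'` lies on a path of a linkage -/
theorem Parts.mid {s x x' m : V} {P P1 P2 P3 : Set V} {p p1 p2 p3 : ZMod 2}
    (hp : Parts σ L A A' s t P p x x' P1 P2 P3 p1 p2 p3) (hAL : A' ⊆ L) (hAA : A ⊆ A')
    (hs : ∃ g ∈ A, s ∈ g) (ht : ∃ g ∈ L, g ∉ A' ∧ t ∈ g)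
    (hx : ∀ v ∈ P, v ∈ bd L A → v = x) (hx' : ∀ v ∈ P, v ∈ bd L A' → v = x')
    (hm : ∃ g ∈ A' \ A, m ∈ g) (hmP : m ∈ P) :
    m ∈ P2 := by
  obtain ⟨g, hg, hmg⟩ := hm
  rcases (hp.un m).1 hmP with h | h | h
  · have h1 := inc_of_pth hp.h1 hs m h
    have h2 := hx m hmP ⟨h1, g, hAL hg.1, hg.2, hmg⟩
    rw [h2]; exact hp.h2.left
  · exact h
  · obtain ⟨g', hg', hg''⟩ := inc_of_pth hp.h3.symm (by
      obtain ⟨k, k1, k2, k3⟩ := ht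
      exact ⟨k, ⟨k1, k2⟩, k3⟩) m h
    have h2 := hx' m hmP ⟨⟨g, hg.1, hmg⟩, g', hg'.1, hg'.2, hg''⟩
    rw [h2]; exact hp.h2.right

/-- an edge between `A` and `A'` lies on a path from the boundary of `A` to that of `A'` -/
theorem Net.edge_part [Finite V] (hN : Net σ L e f s1 s2 t1 t2) (hA : Sep2 L e f A)
    (hA' : Sep2 L e f A') (hAA : A ⊆ A') {m m' : V} (hg : s(m, m') ∈ A' \ A) :
    ∃ a a' X c, Pth (fromEdgeSet (A' \ A)) σ X a a' c ∧ m ∈ X ∧ m' ∈ X ∧ a ∈ bd L A ∧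
      a' ∈ bd L A' ∧ (∀ v ∈ X, v ∈ bd L A → v = a) ∧ (∀ v ∈ X, v ∈ bd L A' → v = a') := by
  have hge : s(m, m') ≠ e := fun h => hg.2 (h ▸ hA.2.1)
  have hgf : s(m, m') ≠ f := fun h => hA'.2.2.1 (h ▸ hg.1)
  obtain ⟨t, t', P, Q, p, q, hE, hl, hor⟩ := hN.cov m m' (hA'.1 hg.1) hge hgf
  have key : ∀ (s1 s2 t t' : V) (P Q : Set V) (p q : ZMod 2), Net σ L e f s1 s2 t1 t2 →
      Ends t t' t1 t2 → Lkg σ L s1 s2 t t' P Q p q → m ∈ P → m' ∈ P →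
      ∃ a a' X c, Pth (fromEdgeSet (A' \ A)) σ X a a' c ∧ m ∈ X ∧ m' ∈ X ∧ a ∈ bd L A ∧
      a' ∈ bd L A' ∧ (∀ v ∈ X, v ∈ bd L A → v = a) ∧ (∀ v ∈ X, v ∈ bd L A' → v = a') := by
    intro s1 s2 t t' P Q p q hN hE hl hm hm'
    obtain ⟨x, x', y, y', P1, P2, P3, p1, p2, p3, Q1, Q2, Q3, q1, q2, q3, hp, hq, hb, hb', hx, hx',
      hy, hy'⟩ := hN.parts hA hA' hAA hE hl
    have hxu : ∀ v ∈ P, v ∈ bd L A → v = x := by
      intro v hv hv'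
      rw [hb] at hv'
      rcases hv' with h | h
      · exact h
      · rw [Set.mem_singleton_iff] at h
        subst h; exact absurd hy (hl.dis _ hv)
    have hxu' : ∀ v ∈ P, v ∈ bd L A' → v = x' := by
      intro v hv hv'
      rw [hb'] at hv'
      rcases hv' with h | h
      · exact h
      · rw [Set.mem_singleton_iff] at h
        subst h; exact absurd hy' (hl.dis _ hv)
    have hs : ∃ g ∈ A, s1 ∈ g := ⟨e, hA.2.1, by rw [hN.he]; simp⟩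
    have ht : ∃ g ∈ L, g ∉ A' ∧ t ∈ g := ⟨f, hN.fL, hA'.2.2.1, by rw [hN.hf]; exact hE.mem.1⟩
    have hsub : ∀ v ∈ P2, v ∈ P := fun v hv => (hp.un v).2 (Or.inr (Or.inl hv))
    exact ⟨x, x', P2, p2, hp.h2, hp.mid hA'.1 hAA hs ht hxu hxu' ⟨_, hg, by simp⟩ hm,
      hp.mid hA'.1 hAA hs ht hxu hxu' ⟨_, hg, by simp⟩ hm', by rw [hb]; simp, by rw [hb']; simp,
      fun v hv => hxu v (hsub v hv), fun v hv => hxu' v (hsub v hv)⟩
  rcases hor with ⟨h1, h2⟩ | ⟨h1, h2⟩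
  · exact key s1 s2 t t' P Q p q hN hE hl h1 h2
  · exact key s2 s1 t' t Q P q p hN.swap hE.swap hl.swap h1 h2

end Pool.Agent.D0H8.NC
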