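import Pool.Agent.D0H8.NC.Cover

/-! # Circles between the members of a covering pair of 2-separations are positive -/

set_option autoImplicit false

namespace Pool.Agent.D0H8.NC

open SimpleGraph Pool.Agent.Results.MP_790549_co.CommonNegativeCircles

variable {V : Type} {σ : Sym2 V → ZMod 2} {L A A' : Set (Sym2 V)} {e f : Sym2 V}
  {s1 s2 t1 t2 t t' : V} {κ : ZMod 2}

theorem inc_of_ne {F : Set (Sym2 V)} {X : Set V} {x y : V} {c : ZMod 2}
    (h : Pth (fromEdgeSet F) σ X x y c) (hxy : x ≠ y) : ∀ v ∈ X, ∃ g ∈ F, v ∈ g := by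
  refine inc_of_pth h ?_
  obtain ⟨w, -, -, -⟩ := h
  cases w with
  | nil => exact absurd rfl hxy
  | @cons _ z _ hxz q =>
    rw [fromEdgeSet_adj] at hxz
    exact ⟨_, hxz.1, by simp⟩

theorem relink (hAL : A' ⊆ L) (hAA : A ⊆ A') {x y z z' : V} {P1 Q1 X Y P3 Q3 : Set V}
    {p1 q1 c d p3 q3 : ZMod 2}
    (hP1 : Pth (fromEdgeSet A) σ P1 s1 x p1) (hQ1 : Pth (fromEdgeSet A) σ Q1 s2 y q1)
    (hX : Pth (fromEdgeSet (A' \ A)) σ X x z c) (hY : Pth (fromEdgeSet (A' \ A)) σ Y y z' d)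
    (hP3 : Pth (fromEdgeSet (L \ A')) σ P3 z t p3) (hQ3 : Pth (fromEdgeSet (L \ A')) σ Q3 z' t' q3)
    (i1 : ∀ v ∈ P1, ∃ g ∈ A, v ∈ g) (i1' : ∀ v ∈ Q1, ∃ g ∈ A, v ∈ g)
    (iX : ∀ v ∈ X, ∃ g ∈ A' \ A, v ∈ g) (iY : ∀ v ∈ Y, ∃ g ∈ A' \ A, v ∈ g)
    (i3 : ∀ v ∈ P3, ∃ g ∈ L \ A', v ∈ g) (i3' : ∀ v ∈ Q3, ∃ g ∈ L \ A', v ∈ g)
    (b1 : ∀ v ∈ P1, v ∈ bd L A → v = x) (b1' : ∀ v ∈ Q1, v ∈ bd L A → v = y)
    (b3 : ∀ v ∈ P3, v ∈ bd L A' → v = z) (b3' : ∀ v ∈ Q3, v ∈ bd L A' → v = z')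
    (d1 : ∀ v ∈ P1, v ∉ Q1) (dX : ∀ v ∈ X, v ∉ Y) (d3 : ∀ v ∈ P3, v ∉ Q3)
    (e1 : ∀ v ∈ P1, v ∉ P3) (e2 : ∀ v ∈ P1, v ∉ Q3) (e3 : ∀ v ∈ Q1, v ∉ P3)
    (e4 : ∀ v ∈ Q1, v ∉ Q3) :
    Lkg σ L s1 s2 t t' (P1 ∪ X ∪ P3) (Q1 ∪ Y ∪ Q3) (p1 + c + p3) (q1 + d + q3) := by
  have m1 : fromEdgeSet A ≤ fromEdgeSet L := fromEdgeSet_mono (hAA.trans hAL)
  have m2 : fromEdgeSet (A' \ A) ≤ fromEdgeSet L := fromEdgeSet_mono fun g hg => hAL hg.1
  have m3 : fromEdgeSet (L \ A') ≤ fromEdgeSet L := fromEdgeSet_mono fun g hg => hg.1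
  have j1 : ∀ v, (∃ g ∈ A, v ∈ g) → (∃ g ∈ A' \ A, v ∈ g) → v ∈ bd L A := by
    rintro v h ⟨g, hg, hv⟩
    exact ⟨h, g, hAL hg.1, hg.2, hv⟩
  have j2 : ∀ v, (∃ g ∈ A' \ A, v ∈ g) → (∃ g ∈ L \ A', v ∈ g) → v ∈ bd L A' := by
    rintro v ⟨g, hg, hv⟩ ⟨g', hg', hv'⟩
    exact ⟨⟨g, hg.1, hv⟩, g', hg'.1, hg'.2, hv'⟩
  have k1 : ∀ v ∈ P1, v ∈ X → v = x := fun v h h' => b1 v h (j1 v (i1 v h) (iX v h'))
  have k2 : ∀ v ∈ P1, v ∉ Y := fun v h h' => by
    have := b1 v h (j1 v (i1 v h) (iY v h'))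
    subst this; exact dX _ hX.left h'
  have k3 : ∀ v ∈ Q1, v ∈ Y → v = y := fun v h h' => b1' v h (j1 v (i1' v h) (iY v h'))
  have k4 : ∀ v ∈ Q1, v ∉ X := fun v h h' => by
    have := b1' v h (j1 v (i1' v h) (iX v h'))
    subst this; exact dX _ h' hY.left
  have k5 : ∀ v ∈ P3, v ∈ X → v = z := fun v h h' => b3 v h (j2 v (iX v h') (i3 v h))
  have k6 : ∀ v ∈ P3, v ∉ Y := fun v h h' => by
    have := b3 v h (j2 v (iY v h') (i3 v h))
    subst this; exact dX _ hX.right h'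
  have k7 : ∀ v ∈ Q3, v ∈ Y → v = z' := fun v h h' => b3' v h (j2 v (iY v h') (i3' v h))
  have k8 : ∀ v ∈ Q3, v ∉ X := fun v h h' => by
    have := b3' v h (j2 v (iX v h') (i3' v h))
    subst this; exact dX _ h' hY.right
  refine ⟨((hP1.mono m1).append (hX.mono m2) k1).append (hP3.mono m3) ?_,
    ((hQ1.mono m1).append (hY.mono m2) k3).append (hQ3.mono m3) ?_, ?_⟩
  · rintro v (h | h) h'
    · exact absurd h' (e1 v h)
    · exact k5 v h' h
  · rintro v (h | h) h'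
    · exact absurd h' (e4 v h)
    · exact k7 v h' h
  · rintro v ((h | h) | h) ((h' | h') | h')
    · exact d1 v h h'
    · exact k2 v h h'
    · exact e2 v h h'
    · exact k4 v h' h
    · exact dX v h h'
    · exact k8 v h' h
    · exact e3 v h' h
    · exact k6 v h h'
    · exact d3 v h h'

theorem Net.sepH [Finite V] (hA : Sep2 L e f A)
    (hA' : Sep2 L e f A') (hAA : A ⊆ A')
    (hcov : ∀ B, Sep2 L e f B → A ⊆ B → B ⊆ A' → B = A ∨ B = A') (Z : Finset V)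
    (hZ : Z.card ≤ 2) (h1 : ¬ (∀ v ∈ bd L A, v ∈ Z)) (h2 : ¬ (∀ v ∈ bd L A', v ∈ Z)) :
    ∃ a b X c, a ∈ bd L A ∧ b ∈ bd L A' ∧ Pth (fromEdgeSet (A' \ A)) σ X a b c ∧
      ∀ v ∈ X, v ∉ Z := by
  by_contra hcon
  push Not at hcon
  set R : Set V := {v | ∃ a ∈ bd L A, a ∉ Z ∧
    Relation.ReflTransGen (fun a b => (fromEdgeSet (A' \ A)).Adj a b ∧ b ∉ Z) a v} with hR
  have hRZ : ∀ v ∈ R, ∃ a ∈ bd L A, ∃ X c, Pth (fromEdgeSet (A' \ A)) σ X a v c ∧
      ∀ v ∈ X, v ∉ Z := by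
    rintro v ⟨a, ha, haZ, hav⟩
    obtain ⟨X, c, hX, hXZ⟩ := pth_of_rtg (σ := σ) (U := fun v => v ∉ Z) hav haZ
    exact ⟨a, ha, X, c, hX, hXZ⟩
  have hRb : ∀ v ∈ R, v ∉ bd L A' := by
    intro v hv hvb
    obtain ⟨a, ha, X, c, hX, hXZ⟩ := hRZ v hv
    obtain ⟨z, hz, hzZ⟩ := hcon a v X c ha hvb hX
    exact hXZ z hz hzZ
  have hRs : ∀ v ∈ R, ∀ u, u ∉ Z → ∀ g ∈ A' \ A, v ∈ g → u ∈ g → u ∈ R := by
    rintro v ⟨a, ha, haZ, hav⟩ u hu g hg hvg hug
    by_cases huv : v = u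
    · subst huv; exact ⟨a, ha, haZ, hav⟩
    · have : g = s(v, u) := (Sym2.mem_and_mem_iff huv).1 ⟨hvg, hug⟩
      subst this
      exact ⟨a, ha, haZ, hav.tail ⟨by rw [fromEdgeSet_adj]; exact ⟨hg, huv⟩, hu⟩⟩
  set B : Set (Sym2 V) := A ∪ {g | g ∈ A' \ A ∧ ∃ v ∈ R, v ∈ g} with hB
  have hAB : A ⊆ B := Set.subset_union_left
  have hBA : B ⊆ A' := by
    rintro g (hg | hg)
    · exact hAA hg
    · exact hg.1.1
  have hbd : ∀ v ∈ bd L B, v ∈ Z := by
    rintro v ⟨⟨g, hg, hvg⟩, h, hhL, hhB, hvh⟩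
    by_contra hvZ
    have hvR : v ∈ R ∨ ∃ g ∈ A, v ∈ g := by
      rcases hg with hg | ⟨hg, u, hu, hug⟩
      · exact Or.inr ⟨g, hg, hvg⟩
      · exact Or.inl (hRs u hu v hvZ g hg hug hvg)
    have hhA : h ∉ A := fun hh => hhB (Or.inl hh)
    have hvR' : v ∈ R := by
      rcases hvR with h1 | h1
      · exact h1
      · exact ⟨v, ⟨h1, h, hhL, hhA, hvh⟩, hvZ, .refl⟩
    by_cases hhA' : h ∈ A'
    · exact hhB (Or.inr ⟨⟨hhA', hhA⟩, v, hvR', hvh⟩)
    · exact hRb v hvR' ⟨⟨g, hBA hg, hvg⟩, h, hhL, hhA', hvh⟩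
  have hS : Sep2 L e f B := by
    refine ⟨hBA.trans hA'.1, hAB hA.2.1, fun h => hA'.2.2.1 (hBA h), ?_⟩
    have := Set.ncard_le_ncard (t := (Z : Set V)) (fun v hv => hbd v hv) (Set.toFinite _)
    rw [Set.ncard_coe_finset] at this
    omega
  rcases hcov B hS hAB hBA with h | h
  · exact h1 (h ▸ hbd)
  · exact h2 (h ▸ hbd)

theorem Net.cover_pos [Fintype V] (hN : Net σ L e f s1 s2 t1 t2)
    (hsame : ∀ t t' P Q p q, Ends t t' t1 t2 → Lkg σ L s1 s2 t t' P Q p q → p + q = κ)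
    (hA : Sep2 L e f A) (hA' : Sep2 L e f A') (hAA : A ⊆ A')
    (hcov : ∀ B, Sep2 L e f B → A ⊆ B → B ⊆ A' → B = A ∨ B = A')
    {u : V} (w : (fromEdgeSet (A' \ A)).Walk u u) (hw : w.IsCycle) : sgn σ w = 0 := by
  classical
  obtain ⟨m, m', hmm, hmw⟩ : ∃ m m', m ≠ m' ∧ s(m, m') ∈ w.edges := by
    cases w with
    | nil => exact absurd hw (by simp)
    | @cons _ z _ h q => exact ⟨u, z, h.ne, by simp⟩
  have hg : s(m, m') ∈ A' \ A := by
    have := w.edges_subset_edgeSet hmw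
    rw [edgeSet_fromEdgeSet] at this
    exact this.1
  have hms := w.fst_mem_support_of_mem_edges hmw
  have hms' := w.snd_mem_support_of_mem_edges hmw
  have hge : s(m, m') ≠ e := fun h => hg.2 (h ▸ hA.2.1)
  have hgf : s(m, m') ≠ f := fun h => hA'.2.2.1 (h ▸ hg.1)
  obtain ⟨t, t', P, Q, p, q, hE, hl, hor⟩ := hN.cov m m' (hA'.1 hg.1) hge hgf
  have key : ∀ (s1 s2 t t' : V) (P Q : Set V) (p q : ZMod 2), Net σ L e f s1 s2 t1 t2 →
      (∀ t t' P Q p q, Ends t t' t1 t2 → Lkg σ L s1 s2 t t' P Q p q → p + q = κ) →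
      Ends t t' t1 t2 → Lkg σ L s1 s2 t t' P Q p q → m ∈ P → m' ∈ P → sgn σ w = 0 := by
    intro s1 s2 t t' P Q p q hN hsame hE hl hm hm'
    obtain ⟨x, x', y, y', P1, P2, P3, p1, p2, p3, Q1, Q2, Q3, q1, q2, q3, hp, hq, hb, hb', hx, hx',
      hy, hy'⟩ := hN.parts hA hA' hAA hE hl
    have hxu : ∀ v ∈ P, v ∈ bd L A → v = x := by
      intro v hv hv'
      rw [hb] at hv'
      rcases hv' with h | h
      · exact h
      · rw [Set.mem_singleton_iff] at h
        subst h; exact absurd hy (hl.dis _ hv)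
    have hxu' : ∀ v ∈ P, v ∈ bd L A' → v = x' := by
      intro v hv hv'
      rw [hb'] at hv'
      rcases hv' with h | h
      · exact h
      · rw [Set.mem_singleton_iff] at h
        subst h; exact absurd hy' (hl.dis _ hv)
    have hyu : ∀ v ∈ Q, v ∈ bd L A → v = y := by
      intro v hv hv'
      rw [hb] at hv'
      rcases hv' with h | h
      · subst h; exact absurd hv (hl.dis _ hx)
      · exact h
    have hyu' : ∀ v ∈ Q, v ∈ bd L A' → v = y' := by
      intro v hv hv'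
      rw [hb'] at hv'
      rcases hv' with h | h
      · subst h; exact absurd hv (hl.dis _ hx')
      · exact h
    have hs : ∃ g ∈ A, s1 ∈ g := ⟨e, hA.2.1, by rw [hN.he]; simp⟩
    have hs2 : ∃ g ∈ A, s2 ∈ g := ⟨e, hA.2.1, by rw [hN.he]; simp⟩
    have ht : ∃ g ∈ L \ A', t ∈ g := ⟨f, ⟨hN.fL, hA'.2.2.1⟩, by rw [hN.hf]; exact hE.mem.1⟩
    have ht2 : ∃ g ∈ L \ A', t' ∈ g := ⟨f, ⟨hN.fL, hA'.2.2.1⟩, by rw [hN.hf]; exact hE.mem.2⟩
    have ht' : ∃ g ∈ L, g ∉ A' ∧ t ∈ g := by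
      obtain ⟨g, hg, hv⟩ := ht
      exact ⟨g, hg.1, hg.2, hv⟩
    have hm2 : m ∈ P2 := hp.mid hA'.1 hAA hs ht' hxu hxu' ⟨_, hg, by simp⟩ hm
    have hm2' : m' ∈ P2 := hp.mid hA'.1 hAA hs ht' hxu hxu' ⟨_, hg, by simp⟩ hm'
    have hP1 : ∀ v ∈ P1, v ∈ P := fun v hv => (hp.un v).2 (Or.inl hv)
    have hP2 : ∀ v ∈ P2, v ∈ P := fun v hv => (hp.un v).2 (Or.inr (Or.inl hv))
    have hP3 : ∀ v ∈ P3, v ∈ P := fun v hv => (hp.un v).2 (Or.inr (Or.inr hv))
    have hQ1 : ∀ v ∈ Q1, v ∈ Q := fun v hv => (hq.un v).2 (Or.inl hv)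
    have hQ2 : ∀ v ∈ Q2, v ∈ Q := fun v hv => (hq.un v).2 (Or.inr (Or.inl hv))
    have hQ3 : ∀ v ∈ Q3, v ∈ Q := fun v hv => (hq.un v).2 (Or.inr (Or.inr hv))
    have hxx : x ≠ x' := by
      rintro rfl
      have := (hp.h2.eq_of_eq).1
      rw [this, Set.mem_singleton_iff] at hm2 hm2'
      exact hmm (hm2.trans hm2'.symm)
    have hxy : x ≠ y := fun h => hl.dis x hx (h ▸ hy)
    have hxy' : x' ≠ y' := fun h => hl.dis x' hx' (h ▸ hy')
    have hxy1 : x ≠ y' := fun h => hl.dis x hx (h ▸ hy')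
    have hxy2 : x' ≠ y := fun h => hl.dis x' hx' (h ▸ hy)
    have i1 := inc_of_pth hp.h1 hs
    have i1' := inc_of_pth hq.h1 hs2
    have i3 := inc_of_pth hp.h3.symm ht
    have i3' := inc_of_pth hq.h3.symm ht2
    have hx13 : ∀ v ∈ P1, v ∉ P3 := fun v h h' => by
      obtain ⟨e1, e2⟩ := hp.i13 v h h'
      exact hxx (e1.symm.trans e2)
    have m1 : fromEdgeSet A ≤ fromEdgeSet L := fromEdgeSet_mono (hAA.trans hA'.1)
    have m2 : fromEdgeSet (A' \ A) ≤ fromEdgeSet L := fromEdgeSet_mono fun g hg => hA'.1 hg.1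
    have m3 : fromEdgeSet (L \ A') ≤ fromEdgeSet L := fromEdgeSet_mono fun g hg => hg.1
    have j1 : ∀ v, (∃ g ∈ A, v ∈ g) → (∃ g ∈ A' \ A, v ∈ g) → v ∈ bd L A := by
      rintro v h ⟨g, hg, hv⟩
      exact ⟨h, g, hA'.1 hg.1, hg.2, hv⟩
    have j2 : ∀ v, (∃ g ∈ A' \ A, v ∈ g) → (∃ g ∈ L \ A', v ∈ g) → v ∈ bd L A' := by
      rintro v ⟨g, hg, hv⟩ ⟨g', hg', hv'⟩
      exact ⟨⟨g, hg.1, hv⟩, g', hg'.1, hg'.2, hv'⟩
    by_cases hyy : y = y'
    · subst hyy
      -- no edge between `A` and `A'` at `y`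
      have hny : ¬ ∃ g ∈ A' \ A, y ∈ g := by
        rintro ⟨g, hg, hyg⟩
        obtain ⟨y', rfl⟩ := Sym2.mem_iff_exists.1 hyg
        have hyy' : y ≠ y' := by
          rintro rfl
          exact hN.nd _ (hA'.1 hg.1) (by simp)
        obtain ⟨a, a', X, c, k1, k2, k3, k4, k5, k6, k7⟩ := hN.edge_part hA hA' hAA hg
        have e1 := k6 y k2 (by rw [hb]; simp)
        have e2 := k7 y k2 (by rw [hb']; simp)
        subst e1
        subst e2
        rw [(k1.eq_of_eq).1, Set.mem_singleton_iff] at k3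
        exact hyy' k3.symm
      have hrank : ∀ X c, Pth (fromEdgeSet (A' \ A)) σ X x x' c → (∀ z ∈ X, z ∉ ({y} : Set V)) →
          c = κ + p1 + p3 + q := by
        intro X c hX hXy
        have iX := inc_of_ne hX hxx
        have hl' : Lkg σ L s1 s2 t t' (P1 ∪ X ∪ P3) Q (p1 + c + p3) q := by
          refine ⟨((hp.h1.mono m1).append (hX.mono m2) ?_).append (hp.h3.mono m3) ?_, hl.hQ, ?_⟩
          · intro v h h'
            exact hxu v (hP1 v h) (j1 v (i1 v h) (iX v h'))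
          · rintro v (h | h) h'
            · exact absurd h' (hx13 v h)
            · exact hxu' v (hP3 v h') (j2 v (iX v h) (i3 v h'))
          · rintro v ((h | h) | h)
            · exact hl.dis v (hP1 v h)
            · intro h'
              have hvy : v ≠ y := fun h1 => hXy v h h1
              rcases (hq.un v).1 h' with h2 | h2 | h2
              · have := hyu v h' (j1 v (i1' v h2) (iX v h))
                exact hvy this
              · rw [(hq.h2.eq_of_eq).1] at h2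
                exact hvy h2
              · have := hyu' v h' (j2 v (iX v h) (i3' v h2))
                exact hvy this
            · exact hl.dis v (hP3 v h)
        have := hsame _ _ _ _ _ _ hE hl'
        linear_combination (norm := (ring_nf; try reduce_mod_char)) this
      obtain ⟨a, a', X, c, k1, k2, k3, k4, k5, k6, k7⟩ := hN.edge_part hA hA' hAA hg
      have hXy : ∀ z ∈ X, z ∉ ({y} : Set V) := by
        intro z hz hzy
        rw [Set.mem_singleton_iff] at hzy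
        subst hzy
        have e1 := k6 z hz (by rw [hb]; simp)
        have e2 := k7 z hz (by rw [hb']; simp)
        subst e1
        subst e2
        rw [(k1.eq_of_eq).1, Set.mem_singleton_iff] at k2 k3
        exact hmm (k2.trans k3.symm)
      have ha : a = x := by
        rw [hb] at k4
        rcases k4 with h | h
        · exact h
        · exact absurd h (hXy a k1.left)
      have ha' : a' = x' := by
        rw [hb'] at k5
        rcases k5 with h | h
        · exact h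
        · exact absurd h (hXy a' k1.right)
      subst ha
      subst ha'
      refine rank1 hrank k1 hXy w hw ?_ hms hms' hmm k2 k3
      intro z hz hzy
      rw [Set.mem_singleton_iff] at hzy
      subst hzy
      obtain ⟨n, -, -, h1, -⟩ := circle_edge (σ := σ) w hw hz
      exact hny ⟨s(z, n), by
        rw [fromEdgeSet_adj] at h1; exact h1.1, by simp⟩
    · have hq13 : ∀ v ∈ Q1, v ∉ Q3 := fun v h h' => by
        obtain ⟨e1, e2⟩ := hq.i13 v h h'
        exact hyy (e1.symm.trans e2)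
      have hC : Cst (fromEdgeSet (A' \ A)) σ x y x' y' (κ + p1 + p3 + q1 + q3) := by
        refine ⟨hxy, hxy', hxx, hxy1, hxy2.symm, hyy, ?_, ?_, ?_, ?_, ?_, ?_, ?_⟩
        · intro h
          rw [fromEdgeSet_adj] at h
          obtain ⟨a, a', X, c, k1, k2, k3, k4, k5, k6, k7⟩ := hN.edge_part hA hA' hAA h.1
          exact h.2 ((k6 x k2 (by rw [hb]; simp)).trans (k6 y k3 (by rw [hb]; simp)).symm)
        · intro h
          rw [fromEdgeSet_adj] at h
          obtain ⟨a, a', X, c, k1, k2, k3, k4, k5, k6, k7⟩ := hN.edge_part hA hA' hAA h.1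
          exact h.2 ((k7 x' k2 (by rw [hb']; simp)).trans (k7 y' k3 (by rw [hb']; simp)).symm)
        · intro X Y c d hX hY hd
          have hl' := relink (t := t) (t' := t') hA'.1 hAA hp.h1 hq.h1 hX hY hp.h3 hq.h3 i1 i1'
            (inc_of_ne hX hxx) (inc_of_ne hY hyy) i3 i3' (fun v h => hxu v (hP1 v h))
            (fun v h => hyu v (hQ1 v h)) (fun v h => hxu' v (hP3 v h))
            (fun v h => hyu' v (hQ3 v h)) (fun v h h' => hl.dis v (hP1 v h) (hQ1 v h')) hd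
            (fun v h h' => hl.dis v (hP3 v h) (hQ3 v h')) hx13
            (fun v h h' => hl.dis v (hP1 v h) (hQ3 v h'))
            (fun v h h' => hl.dis v (hP3 v h') (hQ1 v h)) hq13
          have := hsame _ _ _ _ _ _ hE hl'
          linear_combination (norm := (ring_nf; try reduce_mod_char)) this
        · intro X Y c d hX hY hd
          have hl' := relink (t := t') (t' := t) hA'.1 hAA hp.h1 hq.h1 hX hY hq.h3 hp.h3 i1 i1'
            (inc_of_ne hX hxy1) (inc_of_ne hY hxy2.symm) i3' i3 (fun v h => hxu v (hP1 v h))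
            (fun v h => hyu v (hQ1 v h)) (fun v h => hyu' v (hQ3 v h))
            (fun v h => hxu' v (hP3 v h)) (fun v h h' => hl.dis v (hP1 v h) (hQ1 v h')) hd
            (fun v h h' => hl.dis v (hP3 v h') (hQ3 v h))
            (fun v h h' => hl.dis v (hP1 v h) (hQ3 v h')) hx13 hq13
            (fun v h h' => hl.dis v (hP3 v h') (hQ1 v h))
          have := hsame _ _ _ _ _ _ hE.swap hl'
          linear_combination (norm := (ring_nf; try reduce_mod_char)) this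
        · intro Z hZ h1 h2
          obtain ⟨a, b, X, c, k1, k2, k3, k4⟩ := Net.sepH (σ := σ) hA hA' hAA hcov Z hZ
            (fun h => h1 ⟨h x (by rw [hb]; simp), h y (by rw [hb]; simp)⟩)
            (fun h => h2 ⟨h x' (by rw [hb']; simp), h y' (by rw [hb']; simp)⟩)
          rw [hb] at k1
          rw [hb'] at k2
          exact ⟨a, b, X, c, by simpa using k1, by simpa using k2, k3, k4⟩
        · rintro m h1 h2 ⟨m', h3⟩
          rw [fromEdgeSet_adj] at h3
          obtain ⟨a, a', X, c, k1, k2, k3, k4, k5, k6, k7⟩ := hN.edge_part hA hA' hAA h3.1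
          obtain ⟨X1, X2, c1, c2, g1, g2, g3, g4, g5⟩ := k1.split k2
          have hma : m ≠ a := by
            rintro rfl
            rw [hb] at k4
            rcases k4 with h | h
            · exact h1 h
            · exact h2 h
          have haX : ∀ z ∈ X2, z ∉ bd L A := by
            intro z hz hzb
            have e1 := k6 z ((g1 z).2 (Or.inr hz)) hzb
            subst e1
            exact hma (g2 z g4.left hz).symm
          rw [hb'] at k5
          exact ⟨a', X2, c2, by simpa using k5, g5, fun h => haX x h (by rw [hb]; simp),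
            fun h => haX y h (by rw [hb]; simp)⟩
        · rintro m h1 h2 ⟨m', h3⟩
          rw [fromEdgeSet_adj] at h3
          obtain ⟨a, a', X, c, k1, k2, k3, k4, k5, k6, k7⟩ := hN.edge_part hA hA' hAA h3.1
          obtain ⟨X1, X2, c1, c2, g1, g2, g3, g4, g5⟩ := k1.split k2
          have hma : m ≠ a' := by
            rintro rfl
            rw [hb'] at k5
            rcases k5 with h | h
            · exact h1 h
            · exact h2 h
          have haX : ∀ z ∈ X1, z ∉ bd L A' := by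
            intro z hz hzb
            have e1 := k7 z ((g1 z).2 (Or.inl hz)) hzb
            subst e1
            exact hma (g2 z hz g5.right).symm
          rw [hb] at k4
          exact ⟨a, X1, c1, by simpa using k4, g4.symm, fun h => haX x' h (by rw [hb']; simp),
            fun h => haX y' h (by rw [hb']; simp)⟩
      exact hC.circle' hp.h2 hq.h2 (fun v h h' => hl.dis v (hP2 v h) (hQ2 v h')) w hw hms hms' hmm
        hm2 hm2'
  rcases hor with ⟨h1, h2⟩ | ⟨h1, h2⟩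
  · exact key s1 s2 t t' P Q p q hN hsame hE hl h1 h2
  · refine key s2 s1 t' t Q P q p hN.swap ?_ hE.swap hl.swap h1 h2
    intro t t' P Q p q k1 k2
    rw [add_comm]
    exact hsame t' t Q P q p k1.swap k2.swap

end Pool.Agent.D0H8.NC
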