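import Pool.Agent.D0H8.NC.Pair

/-! # Disjoint and touching pairs of circles -/

set_option autoImplicit false

namespace Pool.Agent.D0H8.NC

open SimpleGraph Pool.Agent.Results.MP_790549_co.CommonNegativeCircles

variable {V : Type} {G : SimpleGraph V} {σ : Sym2 V → ZMod 2} {s1 s2 t1 t2 : V} {κ : ZMod 2}

/-- Menger's theorem in terms of `Pth`, in the graph without the vertices in `U` -/
theorem menger_pth [Fintype V] (G : SimpleGraph V) (σ : Sym2 V → ZMod 2) (U A B : Set V)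
    (hU : ∀ v ∈ A, v ∉ U) (k : ℕ) :
    (∃ (X : Fin k → Set V) (x y : Fin k → V) (c : Fin k → ZMod 2),
      (∀ i, Pth G σ (X i) (x i) (y i) (c i) ∧ x i ∈ A ∧ y i ∈ B ∧ (∀ v ∈ X i, v ∈ A → v = x i) ∧
        (∀ v ∈ X i, v ∈ B → v = y i) ∧ ∀ v ∈ X i, v ∉ U) ∧
      ∀ i j, i ≠ j → ∀ v ∈ X i, v ∉ X j) ∨
    ∃ Z : Finset V, Z.card < k ∧ ∀ a b X c, a ∈ A → b ∈ B → Pth G σ X a b c → (∀ v ∈ X, v ∉ U) →
      ∃ v ∈ X, v ∈ Z := by
  rcases Pool.Agent.H17Sp.menger_sets (fun a b => G.Adj a b ∧ b ∉ U) A B k with ⟨W, h1, h2⟩ | ⟨Z, h1, h2⟩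
  · left
    have key : ∀ i, ∃ X x y c, Pth G σ X x y c ∧ x ∈ A ∧ y ∈ B ∧ (∀ v ∈ X, v ∈ A → v = x) ∧
        (∀ v ∈ X, v ∈ B → v = y) ∧ (∀ v ∈ X, v ∉ U) ∧ ∀ v ∈ X, v ∈ W i := by
      intro i
      obtain ⟨x, hx, hxW, y, hy, hxy⟩ := h2 i
      obtain ⟨X, c, hX, hXW⟩ := pth_of_rtg (σ := σ) (U := fun v => v ∈ W i ∧ v ∉ U)
        (Pool.Agent.H17Sp.rtg_mono' (fun a b hab => ⟨hab.1.1, hab.2, hab.1.2⟩) hxy) ⟨hxW, hU x hx⟩
      obtain ⟨X', x', y', c', k1, k2, k3, k4, k5, k6⟩ := hX.proper hx hy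
      exact ⟨X', x', y', c', k4, k2, k3, k5, k6, fun v hv => (hXW v (k1 hv)).2,
        fun v hv => (hXW v (k1 hv)).1⟩
    choose X x y c h3 h4 h5 h6 h7 h8 h9 using key
    exact ⟨X, x, y, c, fun i => ⟨h3 i, h4 i, h5 i, h6 i, h7 i, h8 i⟩,
      fun i j hij v hv hv' => h1 i j hij v (h9 i v hv) (h9 j v hv')⟩
  · right
    refine ⟨Z, h1, ?_⟩
    intro a b X c ha hb hX hXU
    by_contra hcon
    push Not at hcon
    apply h2 a ha (hcon a hX.left) b hb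
    have := rtg_of_pth (U := fun v => v ∉ U ∧ v ∉ Z) hX fun v hv => ⟨hXU v hv, hcon v hv⟩
    exact Pool.Agent.H17Sp.rtg_mono' (fun a b hab => ⟨⟨hab.1, hab.2.1⟩, hab.2.2⟩) this

theorem Pth.third {X : Set V} {x y : V} {c : ZMod 2} (h : Pth G σ X x y c) (hne : x ≠ y)
    (hxy : ¬ G.Adj x y) : ∃ m ∈ X, m ≠ x ∧ m ≠ y ∧ ∃ m', G.Adj m m' := by
  obtain ⟨w, h1, h2, h3⟩ := h
  cases w with
  | nil => exact absurd rfl hne
  | @cons _ m _ hm q =>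
    refine ⟨m, (h2 m).2 (by simp), hm.ne', ?_, x, hm.symm⟩
    rintro rfl
    exact hxy hm

theorem finset_pair {Z : Finset V} {a b : V} (hab : a ≠ b) (hZ : Z.card ≤ 2) (ha : a ∈ Z)
    (hb : b ∈ Z) : ∀ v ∈ Z, v = a ∨ v = b := by
  classical
  intro v hv
  by_contra hcon
  push Not at hcon
  have h : ({a, b, v} : Finset V) ⊆ Z := by
    intro z hz
    simp only [Finset.mem_insert, Finset.mem_singleton] at hz
    rcases hz with rfl | rfl | rfl <;> assumption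
  have h2 := Finset.card_le_card h
  rw [Finset.card_eq_three.2 ⟨a, b, v, hab, hcon.1.symm, hcon.2.symm, rfl⟩] at h2
  omega

/-- a separator of at most two vertices between a path joining `s1`, `s2` and a path joining
`t1`, `t2` -/
theorem Cst.nosep (hC : Cst G σ s1 s2 t1 t2 κ) {A B : Set V} {a b : ZMod 2}
    (hA : Pth G σ A s1 s2 a) (hB : Pth G σ B t1 t2 b) (Z : Finset V) (hZ : Z.card ≤ 2) :
    ∃ x y X c, x ∈ A ∧ y ∈ B ∧ Pth G σ X x y c ∧ ∀ v ∈ X, v ∉ Z := by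
  by_cases hS : s1 ∈ Z ∧ s2 ∈ Z
  · obtain ⟨m, hm, h1, h2, h3⟩ := hA.third hC.s12 hC.ns
    obtain ⟨t, X, c, ht, hX, h4, h5⟩ := hC.sepS m h1 h2 h3
    refine ⟨m, t, X, c, hm, ?_, hX, ?_⟩
    · rcases ht with rfl | rfl
      · exact hB.left
      · exact hB.right
    · intro v hv hvZ
      rcases finset_pair hC.s12 hZ hS.1 hS.2 v hvZ with rfl | rfl
      · exact h4 hv
      · exact h5 hv
  · by_cases hT : t1 ∈ Z ∧ t2 ∈ Z
    · obtain ⟨m, hm, h1, h2, h3⟩ := hB.third hC.t12 hC.nt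
      obtain ⟨s, X, c, hs, hX, h4, h5⟩ := hC.sepT m h1 h2 h3
      refine ⟨s, m, X, c, ?_, hm, hX.symm, ?_⟩
      · rcases hs with rfl | rfl
        · exact hA.left
        · exact hA.right
      · intro v hv hvZ
        rcases finset_pair hC.t12 hZ hT.1 hT.2 v hvZ with rfl | rfl
        · exact h4 hv
        · exact h5 hv
    · obtain ⟨x, y, X, c, hx, hy, hX, hd⟩ := hC.sep Z hZ hS hT
      refine ⟨x, y, X, c, ?_, ?_, hX, hd⟩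
      · rcases hx with rfl | rfl
        · exact hA.left
        · exact hA.right
      · rcases hy with rfl | rfl
        · exact hB.left
        · exact hB.right

/-- two disjoint circles, one through each edge -/
theorem Cst.disj [Fintype V] (hC : Cst G σ s1 s2 t1 t2 κ) {A B : Set V} {a b : ZMod 2}
    (hA : Pth G σ A s1 s2 a) (hB : Pth G σ B t1 t2 b) (hAB : ∀ v ∈ A, v ∉ B) : a + b = κ := by
  rcases menger_pth G σ ∅ A B (by simp) 3 with ⟨X, x, y, c, h1, h2⟩ | ⟨Z, h1, h2⟩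
  · obtain ⟨a1, a2, a3, a4, a5, a6⟩ := h1 0
    obtain ⟨b1, b2, b3, b4, b5, b6⟩ := h1 1
    obtain ⟨c1, c2, c3, c4, c5, c6⟩ := h1 2
    exact hC.three hA hB a1 b1 c1 a2 b2 c2 a3 b3 c3 (h2 0 1 (by decide)) (h2 0 2 (by decide))
      (h2 1 2 (by decide)) a4 b4 c4 a5 b5 c5 hAB
  · exfalso
    obtain ⟨p, q, X, c, hp, hq, hX, hd⟩ := hC.nosep hA hB Z (by omega)
    obtain ⟨v, hv, hvZ⟩ := h2 p q X c hp hq hX (by simp)
    exact hd v hv hvZ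

/-- three connections, the middle one trivial -/
theorem Cst.three_u (hC : Cst G σ s1 s2 t1 t2 κ) {J K B : Set V} {u : V} {j k b : ZMod 2}
    (hJ : Pth G σ J s1 u j) (hK : Pth G σ K s2 u k) (hJK : ∀ v ∈ J, v ∈ K → v = u)
    (hB : Pth G σ B t1 t2 b) (hu : u ∈ B) (hAB : ∀ v ∈ J ∪ K, v ∈ B → v = u)
    {x1 x3 y1 y3 : V} {X1 X3 : Set V} {r1 r3 : ZMod 2}
    (hR1 : Pth G σ X1 x1 y1 r1) (hR3 : Pth G σ X3 x3 y3 r3)
    (hx1 : x1 ∈ J) (hx3 : x3 ∈ K) (hy1 : y1 ∈ B) (hy3 : y3 ∈ B)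
    (hu1 : x1 ≠ u) (hu3 : x3 ≠ u)
    (h13 : ∀ v ∈ X1, v ∉ X3)
    (hA1 : ∀ v ∈ X1, v ∈ J ∪ K → v = x1) (hA3 : ∀ v ∈ X3, v ∈ J ∪ K → v = x3)
    (hB1 : ∀ v ∈ X1, v ∈ B → v = y1) (hB3 : ∀ v ∈ X3, v ∈ B → v = y3) : j + k + b = κ := by
  have huX1 : u ∉ X1 := fun h => hu1 (hA1 u h (Or.inl hJ.right)).symm
  have huX3 : u ∉ X3 := fun h => hu3 (hA3 u h (Or.inl hJ.right)).symm
  have ny13 : y1 ≠ y3 := fun e => h13 y1 hR1.right (e ▸ hR3.right)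
  have ny1u : y1 ≠ u := fun e => huX1 (e ▸ hR1.right)
  have ny3u : y3 ≠ u := fun e => huX3 (e ▸ hR3.right)
  obtain ⟨J1, J2, j1, j2, m1, m2, m3, m4, m5⟩ := hJ.split hx1
  obtain ⟨K1, K2, k1, k2, n1, n2, n3, n4, n5⟩ := hK.split hx3
  have huJ1 : u ∉ J1 := fun h => hu1 (m2 u h m5.right).symm
  have huK1 : u ∉ K1 := fun h => hu3 (n2 u h n5.right).symm
  have sJ1 : ∀ v ∈ J1, v ∈ J := fun v hv => (m1 v).2 (Or.inl hv)
  have sK1 : ∀ v ∈ K1, v ∈ K := fun v hv => (n1 v).2 (Or.inl hv)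
  obtain ⟨β1u, β13, βu3, e2, b1u, b13, bu3⟩ := tri hB hy1 hu hy3 ny1u ny13 ny3u.symm
  have a13 : Lk2 G σ ((J ∪ K) \ {u}) x1 x3 s1 s2 (j1 + k1) :=
    ⟨J1, K1, j1, k1, fun v hv => ⟨Or.inl (sJ1 v hv), fun e => huJ1 (e ▸ hv)⟩,
      fun v hv => ⟨Or.inr (sK1 v hv), fun e => huK1 (e ▸ hv)⟩,
      fun v hv hv' => huJ1 (hJK v (sJ1 v hv) (sK1 v hv') ▸ hv), rfl, Or.inl ⟨m4.symm, n4.symm⟩⟩
  have a1u : Lk2 G σ (J ∪ K) x1 u s1 s2 (j1 + k) :=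
    ⟨J1, K, j1, k, fun v hv => Or.inl (sJ1 v hv), fun v hv => Or.inr hv,
      fun v hv hv' => huJ1 (hJK v (sJ1 v hv) hv' ▸ hv), rfl, Or.inl ⟨m4.symm, hK.symm⟩⟩
  have a3u : Lk2 G σ (J ∪ K) x3 u s1 s2 (k1 + j) :=
    ⟨K1, J, k1, j, fun v hv => Or.inr (sK1 v hv), fun v hv => Or.inl hv,
      fun v hv hv' => huK1 (hJK v hv' (sK1 v hv) ▸ hv), rfl, Or.inr ⟨n4.symm, hJ.symm⟩⟩
  have q13 := hC.pair a13 b13 hR1 hR3 h13 (fun v hv hv' => hA1 v hv hv'.1) hB1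
    (fun v hv hv' => hA3 v hv hv'.1) hB3 (fun v hv hv' => absurd (hAB v hv.1 hv') hv.2)
  have q1u := hC.pair a1u b1u hR1 (Pth.refl u) (fun v hv e => huX1 (e ▸ hv)) hA1 hB1
    (fun v hv _ => hv) (fun v hv _ => hv) (fun v hv hv' => ⟨hAB v hv hv', hAB v hv hv'⟩)
  have q3u := hC.pair a3u bu3.symm hR3 (Pth.refl u) (fun v hv e => huX3 (e ▸ hv)) hA3 hB3
    (fun v hv _ => hv) (fun v hv _ => hv) (fun v hv hv' => ⟨hAB v hv hv', hAB v hv hv'⟩)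
  rw [← e2]
  linear_combination (norm := (ring_nf; try reduce_mod_char)) q13 + q1u + q3u

end Pool.Agent.D0H8.NC
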