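import Pool.Agent.D0H8.NC.TouchMain

/-! # Ears and rungs of a linkage -/

set_option autoImplicit false

namespace Pool.Agent.D0H8.NC

open SimpleGraph Pool.Agent.Results.MP_790549_co.CommonNegativeCircles

variable {V : Type} {G : SimpleGraph V} {σ : Sym2 V → ZMod 2} {s1 s2 t1 t2 : V} {κ : ZMod 2}

theorem Cst.touch [Fintype V] (hC : Cst G σ s1 s2 t1 t2 κ) {A B : Set V} {a b : ZMod 2} {u : V}
    (hA : Pth G σ A s1 s2 a) (hB : Pth G σ B t1 t2 b) (huA : u ∈ A) (huB : u ∈ B)
    (hu1 : u ≠ s1) (hu2 : u ≠ s2) (hAB : ∀ v ∈ A, v ∈ B → v = u) : a + b = κ := by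
  classical
  obtain ⟨J, K, j, k, h1, h2, h3, h4, h5⟩ := hA.split huA
  obtain ⟨p, q, X, c, hp, hq, hX, hd⟩ := hC.nosep hA hB {u} (by simp)
  obtain ⟨R, x, y, r, g1, g2, g3, g4, g5, g6⟩ := hX.proper hp hq
  have hxu : x ≠ u := by
    have := hd x (g1 g4.left)
    simpa using this
  have hJB : ∀ v ∈ J, v ∈ B → v = u := fun v hv hv' => hAB v ((h1 v).2 (Or.inl hv)) hv'
  have hKB : ∀ v ∈ K, v ∈ B → v = u := fun v hv hv' => hAB v ((h1 v).2 (Or.inr hv)) hv'
  rcases (h1 x).1 g2 with hx | hx
  · have hk := hC.swapS.touch_aux h5.symm hB huB hu2 hKB J.ncard {s1} J s1 0 j le_rfl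
      (Pth.refl s1) h4 (fun v hv _ => hv) hu1.symm (by
        rintro v hv (hv' | hv')
        · rw [Set.mem_singleton_iff] at hv'
          subst hv'
          exact h2 _ h4.left hv
        · exact h2 v hv' hv) (by
        rintro v (hv | hv) hv'
        · rw [Set.mem_singleton_iff] at hv
          subst hv
          exact hJB _ h4.left hv'
        · exact hJB v hv hv') (Or.inl rfl) ⟨x, Or.inr hx, hxu, y, R, r, g3, g4, by
        rintro v hv (hv' | hv' | hv')
        · exact g5 v hv ((h1 v).2 (Or.inr hv'))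
        · rw [Set.mem_singleton_iff] at hv'
          subst hv'
          exact g5 _ hv ((h1 _).2 (Or.inl h4.left))
        · exact g5 v hv ((h1 v).2 (Or.inl hv')), g6⟩
    rw [← hk, ← h3]; ring
  · have hk := hC.touch_aux h4 hB huB hu1 hJB K.ncard {s2} K s2 0 k le_rfl
      (Pth.refl s2) h5.symm (fun v hv _ => hv) hu2.symm (by
        rintro v hv (hv' | hv')
        · rw [Set.mem_singleton_iff] at hv'
          subst hv'
          exact h2 _ hv h5.right
        · exact h2 v hv hv') (by
        rintro v (hv | hv) hv'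
        · rw [Set.mem_singleton_iff] at hv
          subst hv
          exact hKB _ h5.right hv'
        · exact hKB v hv hv') (Or.inl rfl) ⟨x, Or.inr hx, hxu, y, R, r, g3, g4, by
        rintro v hv (hv' | hv' | hv')
        · exact g5 v hv ((h1 v).2 (Or.inl hv'))
        · rw [Set.mem_singleton_iff] at hv'
          subst hv'
          exact g5 _ hv ((h1 _).2 (Or.inr h5.right))
        · exact g5 v hv ((h1 v).2 (Or.inr hv')), g6⟩
    rw [← hk, ← h3]; ring

/-- two circles, one through each edge, with at most one common vertex -/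
theorem Cst.meet [Fintype V] (hC : Cst G σ s1 s2 t1 t2 κ) {A B : Set V} {a b : ZMod 2}
    (hA : Pth G σ A s1 s2 a) (hB : Pth G σ B t1 t2 b)
    (hAB : ∀ v ∈ A, v ∈ B → ∀ v' ∈ A, v' ∈ B → v = v') : a + b = κ := by
  by_cases h : ∃ u ∈ A, u ∈ B
  · obtain ⟨u, huA, huB⟩ := h
    have hAB' : ∀ v ∈ A, v ∈ B → v = u := fun v hv hv' => hAB v hv hv' u huA huB
    by_cases h1 : u = s1 ∨ u = s2
    · have := hC.flip.touch hB hA huB huA (by
        rintro rfl
        rcases h1 with h1 | h1
        · exact hC.st11 h1.symm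
        · exact hC.st21 h1.symm) (by
        rintro rfl
        rcases h1 with h1 | h1
        · exact hC.st12 h1.symm
        · exact hC.st22 h1.symm) (fun v hv hv' => hAB' v hv' hv)
      rw [← this, add_comm]
    · push Not at h1
      exact hC.touch hA hB huA huB h1.1 h1.2 hAB'
  · push Not at h
    exact hC.disj hA hB h

/-- the signature is the coboundary of `s` -/
def Pot (G : SimpleGraph V) (σ : Sym2 V → ZMod 2) (s : V → ZMod 2) : Prop :=
  ∀ a b, G.Adj a b → σ s(a, b) = s a + s b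

theorem Pot.pth {s : V → ZMod 2} (h : Pot G σ s) {X : Set V} {x y : V} {c : ZMod 2}
    (hX : Pth G σ X x y c) : c = s x + s y := by
  obtain ⟨w, h1, h2, h3⟩ := hX
  rw [← h3]
  clear h1 h2 h3
  induction w with
  | nil => rw [sgn_nil]; exact (zz _).symm
  | @cons a b c hab q ih =>
    rw [sgn_cons, ih, h a b hab]
    linear_combination zz (s b)

theorem Pth.mono {G' : SimpleGraph V} (hG : G' ≤ G) {X : Set V} {x y : V} {c : ZMod 2}
    (h : Pth G' σ X x y c) : Pth G σ X x y c := by
  obtain ⟨w, h1, h2, h3⟩ := h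
  refine ⟨w.mapLe hG, h1.mapLe hG, ?_, ?_⟩
  · intro v; rw [h2, Walk.support_mapLe_eq_support]
  · rw [← h3]
    unfold sgn
    rw [Walk.edges_mapLe_eq_edges]

theorem path_pot {x y : V} (w : G.Walk x y) (hw : w.IsPath) :
    ∃ s : V → ZMod 2, ∀ a b, s(a, b) ∈ w.edges → σ s(a, b) = s a + s b := by
  classical
  induction w with
  | nil => exact ⟨0, by simp⟩
  | @cons x z y hxz q ih =>
    rw [Walk.cons_isPath_iff] at hw
    obtain ⟨s, hs⟩ := ih hw.1
    refine ⟨Function.update s x (s z + σ s(x, z)), ?_⟩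
    intro a b hab
    rw [Walk.edges_cons, List.mem_cons] at hab
    have hzx : z ≠ x := hxz.ne'
    rcases hab with hab | hab
    · rw [Sym2.eq_iff] at hab
      rcases hab with ⟨rfl, rfl⟩ | ⟨rfl, rfl⟩
      · rw [Function.update_self, Function.update_of_ne hzx]
        linear_combination -zz (s b)
      · rw [Function.update_self, Function.update_of_ne hzx, Sym2.eq_swap]
        linear_combination -zz (s a)
    · have ha : a ≠ x := by
        rintro rfl
        exact hw.2 (q.fst_mem_support_of_mem_edges hab)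
      have hb : b ≠ x := by
        rintro rfl
        exact hw.2 (q.snd_mem_support_of_mem_edges hab)
      rw [Function.update_of_ne ha, Function.update_of_ne hb]
      exact hs a b hab

theorem Pth.pot {X : Set V} {x y : V} {c : ZMod 2} (h : Pth G σ X x y c) :
    ∃ (G' : SimpleGraph V) (s : V → ZMod 2), G' ≤ G ∧ Pth G' σ X x y c ∧ Pot G' σ s := by
  obtain ⟨w, h1, h2, h3⟩ := h
  obtain ⟨s, hs⟩ := path_pot (σ := σ) w h1
  have hE : ∀ e ∈ w.edges, e ∈ (fromEdgeSet {e | e ∈ w.edges}).edgeSet := by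
    intro e he
    rw [edgeSet_fromEdgeSet]
    refine ⟨he, ?_⟩
    intro hd
    exact G.not_isDiag_of_mem_edgeSet (w.edges_subset_edgeSet he) hd
  refine ⟨fromEdgeSet {e | e ∈ w.edges}, s, ?_, ⟨w.transfer _ hE, ?_, ?_, ?_⟩, ?_⟩
  · intro a b hab
    rw [fromEdgeSet_adj] at hab
    exact w.edges_subset_edgeSet hab.1
  · exact h1.transfer hE
  · intro v; rw [h2, Walk.support_transfer]
  · rw [← h3]
    unfold sgn
    rw [Walk.edges_transfer]
  · intro a b hab
    rw [fromEdgeSet_adj] at hab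
    exact hs a b hab.1

/-- a linkage with potentials on its two paths -/
structure Lnk (G : SimpleGraph V) (σ : Sym2 V → ZMod 2) (s1 s2 t1 t2 : V) (X1 X2 : Set V)
    (G1 G2 : SimpleGraph V) (f1 f2 : V → ZMod 2) (c1 c2 : ZMod 2) : Prop where
  le1 : G1 ≤ G
  le2 : G2 ≤ G
  p1 : Pth G1 σ X1 s1 t1 c1
  p2 : Pth G2 σ X2 s2 t2 c2
  pot1 : Pot G1 σ f1
  pot2 : Pot G2 σ f2
  dis : ∀ v ∈ X1, v ∉ X2

variable {X1 X2 : Set V} {G1 G2 : SimpleGraph V} {f1 f2 : V → ZMod 2} {c1 c2 : ZMod 2}

theorem Lnk.swap (h : Lnk G σ s1 s2 t1 t2 X1 X2 G1 G2 f1 f2 c1 c2) :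
    Lnk G σ s2 s1 t2 t1 X2 X1 G2 G1 f2 f1 c2 c1 :=
  ⟨h.le2, h.le1, h.p2, h.p1, h.pot2, h.pot1, fun v hv hv' => h.dis v hv' hv⟩

theorem Cst.ear (hC : Cst G σ s1 s2 t1 t2 κ) (hL : Lnk G σ s1 s2 t1 t2 X1 X2 G1 G2 f1 f2 c1 c2)
    {E : Set V} {a b : V} {ε : ZMod 2} (hE : Pth G σ E a b ε) (ha : a ∈ X1) (hb : b ∈ X1)
    (h1 : ∀ v ∈ E, v ∈ X1 → v = a ∨ v = b) (h2 : ∀ v ∈ E, v ∉ X2) : ε = f1 a + f1 b := by
  by_cases hab : a = b
  · subst hab
    rw [(hE.eq_of_eq).2]; exact (zz _).symm
  have hκ := hC.link1 _ _ _ _ (hL.p1.mono hL.le1) (hL.p2.mono hL.le2) hL.dis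
  have hc1 := hL.pot1.pth hL.p1
  have key : ∀ (a b : V) (ε : ZMod 2), Pth G σ E a b ε → a ≠ b →
      (∀ v ∈ E, v ∈ X1 → v = a ∨ v = b) →
      (∃ A B C p q r, Pth G1 σ A s1 a p ∧ Pth G1 σ B a b q ∧ Pth G1 σ C b t1 r ∧ p + q + r = c1 ∧
      (∀ v, v ∈ X1 ↔ v ∈ A ∨ v ∈ B ∨ v ∈ C) ∧ (∀ v ∈ A, v ∈ B → v = a) ∧
      (∀ v ∈ B, v ∈ C → v = b) ∧ (∀ v ∈ A, v ∈ C → v = a ∧ v = b)) → ε = f1 a + f1 b := by
    intro a b ε hE hab h1 ⟨A, B, C, p, q, r, k1, k2, k3, k4, k5, k6, k7, k8⟩
    have hAC : ∀ v ∈ A, v ∉ C := fun v hv hv' => hab ((k8 v hv hv').1.symm.trans (k8 v hv hv').2)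
    have hnew : Pth G σ (A ∪ E ∪ C) s1 t1 (p + ε + r) := by
      refine ((k1.mono hL.le1).append hE ?_).append (k3.mono hL.le1) ?_
      · intro v hv hv'
        rcases h1 v hv' ((k5 v).2 (Or.inl hv)) with h | h
        · exact h
        · subst h; exact absurd k3.left (hAC _ hv)
      · rintro v (hv | hv) hv'
        · exact absurd hv' (hAC v hv)
        · rcases h1 v hv ((k5 v).2 (Or.inr (Or.inr hv'))) with h | h
          · subst h; exact absurd hv' (hAC _ k1.right)
          · exact h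
    have e1 := hC.link1 _ _ _ _ hnew (hL.p2.mono hL.le2) (by
      rintro v ((hv | hv) | hv)
      · exact hL.dis v ((k5 v).2 (Or.inl hv))
      · exact h2 v hv
      · exact hL.dis v ((k5 v).2 (Or.inr (Or.inr hv))))
    have e2 := hL.pot1.pth k2
    linear_combination (norm := (ring_nf; try reduce_mod_char)) e1 + hκ + k4 + e2
  rcases hL.p1.order ha hb with ho | ho
  · exact key a b ε hE hab h1 ho
  · obtain ⟨A, B, C, p, q, r, k1, k2, k3, k4, k5, k6, k7, k8⟩ := ho
    have := key b a ε hE.symm (Ne.symm hab) (fun v hv hv' => (h1 v hv hv').symm)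
      ⟨A, B, C, p, q, r, k1, k2, k3, k4, k5, k6, k7, fun v hv hv' => (k8 v hv hv').symm⟩
    rw [this, add_comm]

/-- two rungs -/
theorem Cst.ladder [Fintype V] (hC : Cst G σ s1 s2 t1 t2 κ)
    (hL : Lnk G σ s1 s2 t1 t2 X1 X2 G1 G2 f1 f2 c1 c2)
    {E E' : Set V} {a b a' b' : V} {ε ε' : ZMod 2} (hE : Pth G σ E a b ε)
    (hE' : Pth G σ E' a' b' ε') (ha : a ∈ X1) (hb : b ∈ X2) (ha' : a' ∈ X1) (hb' : b' ∈ X2)
    (h1 : ∀ v ∈ E, v ∈ X1 → v = a) (h2 : ∀ v ∈ E, v ∈ X2 → v = b)
    (h1' : ∀ v ∈ E', v ∈ X1 → v = a') (h2' : ∀ v ∈ E', v ∈ X2 → v = b')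
    (hEE : ∀ v ∈ E, v ∈ E' → v ∈ X1 ∪ X2) (hne : a ≠ a' ∨ b ≠ b') :
    ε + f1 a + f2 b = ε' + f1 a' + f2 b' := by
  have hκ := hC.link1 _ _ _ _ (hL.p1.mono hL.le1) (hL.p2.mono hL.le2) hL.dis
  have hc1 := hL.pot1.pth hL.p1
  have hc2 := hL.pot2.pth hL.p2
  -- the common vertices of the rungs
  have hcom : ∀ v ∈ E, v ∈ E' → (v = a ∧ v = a') ∨ (v = b ∧ v = b') := by
    intro v hv hv'
    rcases hEE v hv hv' with h | h
    · exact Or.inl ⟨h1 v hv h, h1' v hv' h⟩
    · exact Or.inr ⟨h2 v hv h, h2' v hv' h⟩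
  have key : ∀ (E E' : Set V) (a b a' b' : V) (ε ε' : ZMod 2), Pth G σ E a b ε →
      Pth G σ E' a' b' ε' → b ∈ X2 → b' ∈ X2 →
      (∀ v ∈ E, v ∈ X1 → v = a) → (∀ v ∈ E, v ∈ X2 → v = b) →
      (∀ v ∈ E', v ∈ X1 → v = a') → (∀ v ∈ E', v ∈ X2 → v = b') →
      (∀ v ∈ E, v ∈ E' → (v = a ∧ v = a') ∨ (v = b ∧ v = b')) → (a ≠ a' ∨ b ≠ b') →
      (∃ A B C p q r, Pth G1 σ A s1 a p ∧ Pth G1 σ B a a' q ∧ Pth G1 σ C a' t1 r ∧ p + q + r = c1 ∧
      (∀ v, v ∈ X1 ↔ v ∈ A ∨ v ∈ B ∨ v ∈ C) ∧ (∀ v ∈ A, v ∈ B → v = a) ∧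
      (∀ v ∈ B, v ∈ C → v = a') ∧ (∀ v ∈ A, v ∈ C → v = a ∧ v = a')) →
      ε + f1 a + f2 b = ε' + f1 a' + f2 b' := by
    intro E E' a b a' b' ε ε' hE hE' hb hb' h1 h2 h1' h2' hcom hne
      ⟨A, B, C, p, q, r, k1, k2, k3, k4, k5, k6, k7, k8⟩
    have hA1 : ∀ v ∈ A, v ∈ X1 := fun v hv => (k5 v).2 (Or.inl hv)
    have hC1 : ∀ v ∈ C, v ∈ X1 := fun v hv => (k5 v).2 (Or.inr (Or.inr hv))
    have eA := hL.pot1.pth k1
    have eC := hL.pot1.pth k3
    rcases hL.p2.order hb hb' with ⟨A2, B2, C2, p2, q2, r2, m1, m2, m3, m4, m5, m6, m7, m8⟩ |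
      ⟨A2, B2, C2, p2, q2, r2, m1, m2, m3, m4, m5, m6, m7, m8⟩
    · -- not crossing
      have hA2 : ∀ v ∈ A2, v ∈ X2 := fun v hv => (m5 v).2 (Or.inl hv)
      have hC2 : ∀ v ∈ C2, v ∈ X2 := fun v hv => (m5 v).2 (Or.inr (Or.inr hv))
      have eA2 := hL.pot2.pth m1
      have eC2 := hL.pot2.pth m3
      have hP : Pth G σ (A ∪ E ∪ A2) s1 s2 (p + ε + p2) := by
        refine ((k1.mono hL.le1).append hE ?_).append (m1.mono hL.le2).symm ?_
        · intro v hv hv'; exact h1 v hv' (hA1 v hv)
        · rintro v (hv | hv) hv'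
          · exact absurd (hA2 v hv') (hL.dis v (hA1 v hv))
          · exact h2 v hv (hA2 v hv')
      have hQ : Pth G σ (C ∪ E' ∪ C2) t1 t2 (r + ε' + r2) := by
        refine (((k3.mono hL.le1).symm).append hE' ?_).append (m3.mono hL.le2) ?_
        · intro v hv hv'; exact h1' v hv' (hC1 v hv)
        · rintro v (hv | hv) hv'
          · exact absurd (hC2 v hv') (hL.dis v (hC1 v hv))
          · exact h2' v hv (hC2 v hv')
      have hcases : ∀ v ∈ A ∪ E ∪ A2, v ∈ C ∪ E' ∪ C2 → (v = a ∧ v = a') ∨ (v = b ∧ v = b') := by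
        rintro v ((hv | hv) | hv) ((hv' | hv') | hv')
        · exact Or.inl (k8 v hv hv')
        · left
          have e := h1' v hv' (hA1 v hv)
          exact ⟨(k8 v hv (e ▸ k3.left)).1, e⟩
        · exact absurd (hC2 v hv') (hL.dis v (hA1 v hv))
        · left
          have e := h1 v hv (hC1 v hv')
          exact ⟨e, (k8 v (e ▸ k1.right) hv').2⟩
        · exact hcom v hv hv'
        · right
          have e := h2 v hv (hC2 v hv')
          exact ⟨e, (m8 v (e ▸ m1.right) hv').2⟩
        · exact absurd (hA2 v hv) (hL.dis v (hC1 v hv'))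
        · right
          have e := h2' v hv' (hA2 v hv)
          exact ⟨(m8 v hv (e ▸ m3.left)).1, e⟩
        · right
          exact m8 v hv hv'
      have hm := hC.meet hP hQ (by
        intro v hv hv' z hz hz'
        rcases hcases v hv hv' with h | h <;> rcases hcases z hz hz' with h' | h'
        · exact h.1.trans h'.1.symm
        · exfalso
          rcases hne with hne | hne
          · exact hne (h.1.symm.trans h.2)
          · exact hne (h'.1.symm.trans h'.2)
        · exfalso
          rcases hne with hne | hne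
          · exact hne (h'.1.symm.trans h'.2)
          · exact hne (h.1.symm.trans h.2)
        · exact h.1.trans h'.1.symm)
      linear_combination (norm := (ring_nf; try reduce_mod_char)) hm + hκ + hc1 + hc2 + eA + eC +
        eA2 + eC2
    · -- crossing, or a common end
      by_cases hbb : b = b'
      · -- the common end is treated like the case above
        subst hbb
        have haa : a ≠ a' := hne.resolve_right (fun h => h rfl)
        have hB2 : B2 = {b} := (m2.eq_of_eq).1
        have hA2 : ∀ v ∈ A2, v ∈ X2 := fun v hv => (m5 v).2 (Or.inl hv)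
        have hC2 : ∀ v ∈ C2, v ∈ X2 := fun v hv => (m5 v).2 (Or.inr (Or.inr hv))
        have eA2 := hL.pot2.pth m1
        have eC2 := hL.pot2.pth m3
        have hP : Pth G σ (A ∪ E ∪ A2) s1 s2 (p + ε + p2) := by
          refine ((k1.mono hL.le1).append hE ?_).append (m1.mono hL.le2).symm ?_
          · intro v hv hv'; exact h1 v hv' (hA1 v hv)
          · rintro v (hv | hv) hv'
            · exact absurd (hA2 v hv') (hL.dis v (hA1 v hv))
            · exact h2 v hv (hA2 v hv')
        have hQ : Pth G σ (C ∪ E' ∪ C2) t1 t2 (r + ε' + r2) := by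
          refine (((k3.mono hL.le1).symm).append hE' ?_).append (m3.mono hL.le2) ?_
          · intro v hv hv'; exact h1' v hv' (hC1 v hv)
          · rintro v (hv | hv) hv'
            · exact absurd (hC2 v hv') (hL.dis v (hC1 v hv))
            · exact h2' v hv (hC2 v hv')
        have hcases : ∀ v ∈ A ∪ E ∪ A2, v ∈ C ∪ E' ∪ C2 → v = b := by
          rintro v ((hv | hv) | hv) ((hv' | hv') | hv')
          · exact absurd ((k8 v hv hv').1.symm.trans (k8 v hv hv').2) haa
          · have e := h1' v hv' (hA1 v hv)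
            exact absurd ((k8 v hv (e ▸ k3.left)).1.symm.trans e) haa
          · exact absurd (hC2 v hv') (hL.dis v (hA1 v hv))
          · have e := h1 v hv (hC1 v hv')
            exact absurd (e.symm.trans (k8 v (e ▸ k1.right) hv').2) haa
          · rcases hcom v hv hv' with h | h
            · exact absurd (h.1.symm.trans h.2) haa
            · exact h.1
          · exact h2 v hv (hC2 v hv')
          · exact absurd (hA2 v hv) (hL.dis v (hC1 v hv'))
          · exact h2' v hv' (hA2 v hv)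
          · exact (m8 v hv hv').1
        have hm := hC.meet hP hQ (by
          intro v hv hv' z hz hz'
          rw [hcases v hv hv', hcases z hz hz'])
        linear_combination (norm := (ring_nf; try reduce_mod_char)) hm + hκ + hc1 + hc2 + eA + eC +
          eA2 + eC2
      · by_cases haa : a = a'
        · -- common end in `X1`, other order: exchange the rungs
          subst haa
          have hA2 : ∀ v ∈ A2, v ∈ X2 := fun v hv => (m5 v).2 (Or.inl hv)
          have hC2 : ∀ v ∈ C2, v ∈ X2 := fun v hv => (m5 v).2 (Or.inr (Or.inr hv))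
          have eA2 := hL.pot2.pth m1
          have eC2 := hL.pot2.pth m3
          have hP : Pth G σ (A ∪ E' ∪ A2) s1 s2 (p + ε' + p2) := by
            refine ((k1.mono hL.le1).append hE' ?_).append (m1.mono hL.le2).symm ?_
            · intro v hv hv'; exact h1' v hv' (hA1 v hv)
            · rintro v (hv | hv) hv'
              · exact absurd (hA2 v hv') (hL.dis v (hA1 v hv))
              · exact h2' v hv (hA2 v hv')
          have hQ : Pth G σ (C ∪ E ∪ C2) t1 t2 (r + ε + r2) := by
            refine (((k3.mono hL.le1).symm).append hE ?_).append (m3.mono hL.le2) ?_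
            · intro v hv hv'; exact h1 v hv' (hC1 v hv)
            · rintro v (hv | hv) hv'
              · exact absurd (hC2 v hv') (hL.dis v (hC1 v hv))
              · exact h2 v hv (hC2 v hv')
          have hcases : ∀ v ∈ A ∪ E' ∪ A2, v ∈ C ∪ E ∪ C2 → v = a := by
            rintro v ((hv | hv) | hv) ((hv' | hv') | hv')
            · exact (k8 v hv hv').1
            · exact h1 v hv' (hA1 v hv)
            · exact absurd (hC2 v hv') (hL.dis v (hA1 v hv))
            · exact h1' v hv (hC1 v hv')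
            · rcases hcom v hv' hv with h | h
              · exact h.1
              · exact absurd (h.1.symm.trans h.2) hbb
            · have e := h2' v hv (hC2 v hv')
              exact absurd ((m8 v (e ▸ m1.right) hv').1.symm.trans e) hbb
            · exact absurd (hA2 v hv) (hL.dis v (hC1 v hv'))
            · have e := h2 v hv' (hA2 v hv)
              exact absurd (e.symm.trans (m8 v hv (e ▸ m3.left)).2) hbb
            · exact absurd ((m8 v hv hv').1.symm.trans (m8 v hv hv').2) hbb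
          have hm := hC.meet hP hQ (by
            intro v hv hv' z hz hz'
            rw [hcases v hv hv', hcases z hz hz'])
          linear_combination (norm := (ring_nf; try reduce_mod_char)) hm + hκ + hc1 + hc2 + eA +
            eC + eA2 + eC2
        · -- crossing rungs
          have hA2 : ∀ v ∈ A2, v ∈ X2 := fun v hv => (m5 v).2 (Or.inl hv)
          have hC2 : ∀ v ∈ C2, v ∈ X2 := fun v hv => (m5 v).2 (Or.inr (Or.inr hv))
          have eA2 := hL.pot2.pth m1
          have eC2 := hL.pot2.pth m3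
          have hP : Pth G σ (A ∪ E ∪ C2) s1 t2 (p + ε + r2) := by
            refine ((k1.mono hL.le1).append hE ?_).append (m3.mono hL.le2) ?_
            · intro v hv hv'; exact h1 v hv' (hA1 v hv)
            · rintro v (hv | hv) hv'
              · exact absurd (hC2 v hv') (hL.dis v (hA1 v hv))
              · exact h2 v hv (hC2 v hv')
          have hQ : Pth G σ (A2 ∪ E' ∪ C) s2 t1 (p2 + ε' + r) := by
            refine ((m1.mono hL.le2).append hE'.symm ?_).append (k3.mono hL.le1) ?_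
            · intro v hv hv'; exact h2' v hv' (hA2 v hv)
            · rintro v (hv | hv) hv'
              · exact absurd (hA2 v hv) (hL.dis v (hC1 v hv'))
              · exact h1' v hv (hC1 v hv')
          have hm := hC.link2 _ _ _ _ hP hQ (by
            rintro v ((hv | hv) | hv) ((hv' | hv') | hv')
            · exact hL.dis v (hA1 v hv) (hA2 v hv')
            · have e := h1' v hv' (hA1 v hv)
              exact haa ((k8 v hv (e ▸ k3.left)).1.symm.trans e)
            · exact haa ((k8 v hv hv').1.symm.trans (k8 v hv hv').2)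
            · have e := h2 v hv (hA2 v hv')
              exact hbb (e.symm.trans (m8 v hv' (e ▸ m3.left)).2)
            · rcases hcom v hv hv' with h | h
              · exact haa (h.1.symm.trans h.2)
              · exact hbb (h.1.symm.trans h.2)
            · have e := h1 v hv (hC1 v hv')
              exact haa (e.symm.trans (k8 v (e ▸ k1.right) hv').2)
            · exact hbb ((m8 v hv' hv).1.symm.trans (m8 v hv' hv).2)
            · have e := h2' v hv' (hC2 v hv)
              exact hbb ((m8 v (e ▸ m1.right) hv).1.symm.trans e)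
            · exact hL.dis v (hC1 v hv') (hC2 v hv))
          linear_combination (norm := (ring_nf; try reduce_mod_char)) hm + hκ + hc1 + hc2 + eA +
            eC + eA2 + eC2
  rcases hL.p1.order ha ha' with ho | ho
  · exact key E E' a b a' b' ε ε' hE hE' hb hb' h1 h2 h1' h2' hcom hne ho
  · obtain ⟨A, B, C, p, q, r, k1, k2, k3, k4, k5, k6, k7, k8⟩ := ho
    exact (key E' E a' b' a b ε' ε hE' hE hb' hb h1' h2' h1 h2
      (fun v hv hv' => (hcom v hv' hv).imp And.symm And.symm)
      (hne.imp Ne.symm Ne.symm)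
      ⟨A, B, C, p, q, r, k1, k2, k3, k4, k5, k6, k7, fun v hv hv' => (k8 v hv hv').symm⟩).symm

end Pool.Agent.D0H8.NC
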