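import Pool.Agent.D0H8.NC.CoverPos

/-! # The lattice of 2-separations -/

set_option autoImplicit false

namespace Pool.Agent.D0H8.NC

open SimpleGraph Pool.Agent.Results.MP_790549_co.CommonNegativeCircles

variable {V : Type} {σ : Sym2 V → ZMod 2} {L A A' B : Set (Sym2 V)} {e f : Sym2 V}
  {s1 s2 t1 t2 t t' : V} {κ : ZMod 2}

theorem ncard_pair_le' (a b : V) : ({a, b} : Set V).ncard ≤ 2 := by
  have h := Set.ncard_insert_le a ({b} : Set V)
  rw [Set.ncard_singleton] at h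
  exact h

theorem bd_submod [Finite V] (hA : A ⊆ L) (hB : B ⊆ L) :
    (bd L (A ∪ B)).ncard + (bd L (A ∩ B)).ncard ≤ (bd L A).ncard + (bd L B).ncard := by
  have h1 : bd L (A ∪ B) ∪ bd L (A ∩ B) ⊆ bd L A ∪ bd L B := by
    rintro v (⟨⟨g, hg, hv⟩, h, hh, hh', hv'⟩ | ⟨⟨g, hg, hv⟩, h, hh, hh', hv'⟩)
    · rcases hg with hg | hg
      · exact Or.inl ⟨⟨g, hg, hv⟩, h, hh, fun k => hh' (Or.inl k), hv'⟩
      · exact Or.inr ⟨⟨g, hg, hv⟩, h, hh, fun k => hh' (Or.inr k), hv'⟩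
    · by_cases hhA : h ∈ A
      · exact Or.inr ⟨⟨g, hg.2, hv⟩, h, hh, fun k => hh' ⟨hhA, k⟩, hv'⟩
      · exact Or.inl ⟨⟨g, hg.1, hv⟩, h, hh, hhA, hv'⟩
  have h2 : bd L (A ∪ B) ∩ bd L (A ∩ B) ⊆ bd L A ∩ bd L B := by
    rintro v ⟨⟨-, h, hh, hh', hv'⟩, ⟨g, hg, hv⟩, -⟩
    exact ⟨⟨⟨g, hg.1, hv⟩, h, hh, fun k => hh' (Or.inl k), hv'⟩,
      ⟨g, hg.2, hv⟩, h, hh, fun k => hh' (Or.inr k), hv'⟩
  have h3 := Set.ncard_le_ncard h1 (Set.toFinite _)
  have h4 := Set.ncard_le_ncard h2 (Set.toFinite _)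
  have h5 := Set.ncard_union_add_ncard_inter (bd L (A ∪ B)) (bd L (A ∩ B)) (Set.toFinite _)
    (Set.toFinite _)
  have h6 := Set.ncard_union_add_ncard_inter (bd L A) (bd L B) (Set.toFinite _)
    (Set.toFinite _)
  omega

theorem Net.bd_lower [Finite V] (hN : Net σ L e f s1 s2 t1 t2) (heA : e ∈ A)
    (hfA : f ∉ A) : 2 ≤ (bd L A).ncard := by
  obtain ⟨t, t', P, Q, p, q, hE, hl⟩ := hN.one
  have h1 : s1 ∈ e := by rw [hN.he]; simp
  have h2 : s2 ∈ e := by rw [hN.he]; simp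
  have h3 := hE.mem
  rw [← hN.hf] at h3
  obtain ⟨x, hx, hxb⟩ := half_exists subset_rfl hl.hP ⟨e, heA, h1⟩ ⟨f, hN.fL, hfA, h3.1⟩
  obtain ⟨y, hy, hyb⟩ := half_exists subset_rfl hl.hQ ⟨e, heA, h2⟩ ⟨f, hN.fL, hfA, h3.2⟩
  have hxy : x ≠ y := fun h => hl.dis x hx (h ▸ hy)
  rw [← Set.ncard_pair hxy]
  apply Set.ncard_le_ncard _ (Set.toFinite _)
  rintro v (rfl | hv)
  · exact hxb
  · rw [Set.mem_singleton_iff] at hv
    subst hv; exact hyb

theorem Net.sep2_lattice [Finite V] (hN : Net σ L e f s1 s2 t1 t2) (hA : Sep2 L e f A)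
    (hB : Sep2 L e f B) : Sep2 L e f (A ∪ B) ∧ Sep2 L e f (A ∩ B) := by
  have h1 : f ∉ A ∪ B := by
    rintro (h | h)
    · exact hA.2.2.1 h
    · exact hB.2.2.1 h
  have h2 : f ∉ A ∩ B := fun h => hA.2.2.1 h.1
  have h3 := hN.bd_lower (A := A ∪ B) (Or.inl hA.2.1) h1
  have h4 := hN.bd_lower (A := A ∩ B) ⟨hA.2.1, hB.2.1⟩ h2
  have h5 := bd_submod hA.1 hB.1
  have h6 := hA.2.2.2
  have h7 := hB.2.2.2
  exact ⟨⟨Set.union_subset hA.1 hB.1, Or.inl hA.2.1, h1, by omega⟩,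
    ⟨fun g hg => hA.1 hg.1, ⟨hA.2.1, hB.2.1⟩, h2, by omega⟩⟩

/-- a covering pair bounds a cell -/
theorem Net.same_cell [Finite V] (hN : Net σ L e f s1 s2 t1 t2) (hA : Sep2 L e f A)
    (hA' : Sep2 L e f A') (hAA : A ⊆ A')
    (hcov : ∀ B, Sep2 L e f B → A ⊆ B → B ⊆ A' → B = A ∨ B = A') {g h : Sym2 V}
    (hg : g ∈ A' \ A) (hh : h ∈ A' \ A) : SameCell L e f g h := by
  intro B hB
  have h1 := (hN.sep2_lattice (hN.sep2_lattice hA hB).1 hA').2
  rcases hcov _ h1 (fun k hk => ⟨Or.inl hk, hAA hk⟩) (fun k hk => hk.2) with h2 | h2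
  · have key : ∀ k ∈ A' \ A, k ∉ B := by
      intro k hk hkB
      have : k ∈ (A ∪ B) ∩ A' := ⟨Or.inr hkB, hk.1⟩
      rw [h2] at this
      exact hk.2 this
    exact ⟨fun k => absurd k (key g hg), fun k => absurd k (key h hh)⟩
  · have key : ∀ k ∈ A' \ A, k ∈ B := by
      intro k hk
      have : k ∈ (A ∪ B) ∩ A' := by rw [h2]; exact hk.1
      exact this.1.resolve_left hk.2
    exact ⟨fun _ => key h hh, fun _ => key g hg⟩

theorem Net.sep2_first [Finite V] (hN : Net σ L e f s1 s2 t1 t2) : Sep2 L e f {e} := by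
  refine ⟨by simpa using hN.eL, rfl, fun h => hN.ef h.symm, ?_⟩
  have h1 : bd L {e} ⊆ {s1, s2} := by
    rintro v ⟨⟨g, hg, hv⟩, -⟩
    rw [Set.mem_singleton_iff] at hg
    rw [hg, hN.he] at hv
    simpa using hv
  calc (bd L {e}).ncard ≤ ({s1, s2} : Set V).ncard := Set.ncard_le_ncard h1 (Set.toFinite _)
    _ ≤ 2 := ncard_pair_le' _ _

theorem Net.sep2_last [Finite V] (hN : Net σ L e f s1 s2 t1 t2) : Sep2 L e f (L \ {f}) := by
  refine ⟨Set.diff_subset, ⟨hN.eL, hN.ef⟩, fun h => h.2 rfl, ?_⟩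
  rw [bd_compl (by simpa using hN.fL)]
  have h1 : bd L {f} ⊆ {t1, t2} := by
    rintro v ⟨⟨g, hg, hv⟩, -⟩
    rw [Set.mem_singleton_iff] at hg
    rw [hg, hN.hf] at hv
    simpa using hv
  calc (bd L {f}).ncard ≤ ({t1, t2} : Set V).ncard := Set.ncard_le_ncard h1 (Set.toFinite _)
    _ ≤ 2 := ncard_pair_le' _ _

/-- all half-linkages in `A` have the same sign -/
def HS (σ : Sym2 V → ZMod 2) (L : Set (Sym2 V)) (s1 s2 : V) (A : Set (Sym2 V)) : Prop :=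
  ∃ κ, ∀ z z' P Q p q, z ∈ bd L A → z' ∈ bd L A → Pth (fromEdgeSet A) σ P s1 z p →
    Pth (fromEdgeSet A) σ Q s2 z' q → (∀ v ∈ P, v ∉ Q) → p + q = κ

theorem Net.hs_first [Finite V] (hN : Net σ L e f s1 s2 t1 t2) : HS σ L s1 s2 {e} := by
  have key : ∀ (s1 s2 z : V) (P : Set V) (p : ZMod 2), e = s(s1, s2) →
      Pth (fromEdgeSet {e}) σ P s1 z p → s2 ∉ P → p = 0 := by
    rintro s1 s2 z P p he ⟨w, h1, h2, h3⟩ hs
    cases w with
    | nil => rw [← h3, sgn_nil]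
    | @cons _ c _ h q =>
      exfalso
      rw [fromEdgeSet_adj, Set.mem_singleton_iff, he, Sym2.eq_iff] at h
      rcases h with ⟨⟨-, h⟩ | ⟨h, h'⟩, h''⟩
      · subst h
        exact hs ((h2 c).2 (by simp))
      · exact h'' h'.symm
  refine ⟨0, ?_⟩
  intro z z' P Q p q _ _ hP hQ hd
  rw [key s1 s2 z P p hN.he hP (fun h => hd s2 h hQ.left),
    key s2 s1 z' Q q (by rw [hN.he, Sym2.eq_swap]) hQ (hd s1 hP.left), add_zero]

theorem Net.hs_step [Finite V] (hN : Net σ L e f s1 s2 t1 t2) (hA : Sep2 L e f A)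
    (hA' : Sep2 L e f A') (hAA : A ⊆ A')
    (hpot : ∃ φ : V → ZMod 2, Pot (fromEdgeSet (A' \ A)) σ φ) (h : HS σ L s1 s2 A) :
    HS σ L s1 s2 A' := by
  obtain ⟨φ, hφ⟩ := hpot
  obtain ⟨κ, hκ⟩ := h
  refine ⟨κ + ∑ᶠ v ∈ bd L A, φ v + ∑ᶠ v ∈ bd L A', φ v, ?_⟩
  intro z z' P Q p q hz hz' hP hQ hd
  have h1 : s1 ∈ e := by rw [hN.he]; simp
  have h2 : s2 ∈ e := by rw [hN.he]; simp
  have hzz : z ≠ z' := fun h => hd z hP.right (h ▸ hQ.right)
  have hb' : bd L A' = {z, z'} := by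
    symm
    apply Set.eq_of_subset_of_ncard_le _ _ (Set.toFinite _)
    · rintro v (rfl | hv)
      · exact hz
      · rw [Set.mem_singleton_iff] at hv
        subst hv; exact hz'
    · rw [Set.ncard_pair hzz]; exact hA'.2.2.2
  have hzA : ∃ g ∈ L, g ∉ A ∧ z ∈ g := by
    obtain ⟨-, g, hg, hg', hzg⟩ := hz
    exact ⟨g, hg, fun hh => hg' (hAA hh), hzg⟩
  have hzA' : ∃ g ∈ L, g ∉ A ∧ z' ∈ g := by
    obtain ⟨-, g, hg, hg', hzg⟩ := hz'
    exact ⟨g, hg, fun hh => hg' (hAA hh), hzg⟩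
  obtain ⟨x, hx, y, hy, hxy, hb⟩ := bd_pair hA.2.2.2 hA'.1 hA.2.1 h1 h2 hP hQ hd hzA hzA'
  obtain ⟨R1, R2, r1, r2, k1, k2, k3, k4, k5⟩ := half hA'.1 hA.1 hP ⟨e, hA.2.1, h1⟩ hzA (x := x)
    (fun v hv hv' => by
      rw [hb] at hv'
      rcases hv' with h | h
      · exact h
      · rw [Set.mem_singleton_iff] at h
        subst h; exact absurd hy (hd _ hv))
  obtain ⟨S1, S2, q1, q2, m1, m2, m3, m4, m5⟩ := half hA'.1 hA.1 hQ ⟨e, hA.2.1, h2⟩ hzA' (x := y)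
    (fun v hv hv' => by
      rw [hb] at hv'
      rcases hv' with h | h
      · subst h; exact absurd hv (hd _ hx)
      · exact h)
  have e1 := hκ x y R1 S1 r1 q1 (by rw [hb]; simp) (by rw [hb]; simp)
    (k1.mono (fromEdgeSet_mono fun g hg => hg.2)) (m1.mono (fromEdgeSet_mono fun g hg => hg.2))
    (fun v hv hv' => hd v ((k3 v).2 (Or.inl hv)) ((m3 v).2 (Or.inl hv')))
  have e2 := hφ.pth k2
  have e3 := hφ.pth m2
  rw [hb, hb', finsum_mem_pair hxy, finsum_mem_pair hzz]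
  linear_combination (norm := (ring_nf; try reduce_mod_char)) e1 + e2 + e3 - k5 - m5

theorem Net.hs_all [Finite V] (hN : Net σ L e f s1 s2 t1 t2)
    (hpot : ∀ A A', Sep2 L e f A → Sep2 L e f A' → A ⊆ A' →
      (∀ B, Sep2 L e f B → A ⊆ B → B ⊆ A' → B = A ∨ B = A') →
      ∃ φ : V → ZMod 2, Pot (fromEdgeSet (A' \ A)) σ φ) :
    ∀ A, Sep2 L e f A → HS σ L s1 s2 A := by
  have key : ∀ n : ℕ, ∀ A, Sep2 L e f A → A.ncard ≤ n → HS σ L s1 s2 A := by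
    intro n
    induction n with
    | zero =>
      intro A hA hn
      have := (Set.ncard_eq_zero (Set.toFinite A)).1 (Nat.le_zero.1 hn)
      exact absurd hA.2.1 (by rw [this]; simp)
    | succ n ih =>
      intro A hA hn
      by_cases hAe : A = {e}
      · rw [hAe]; exact hN.hs_first
      · have hne : ({B | Sep2 L e f B ∧ B ⊂ A} : Set (Set (Sym2 V))).Nonempty := by
          refine ⟨{e}, hN.sep2_first, ?_⟩
          rw [Set.ssubset_iff_subset_ne]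
          exact ⟨by simpa using hA.2.1, fun h => hAe h.symm⟩
        obtain ⟨B, hB⟩ := Set.Finite.exists_maximal (Set.toFinite _) hne
        obtain ⟨⟨hB1, hB2⟩, hB3⟩ := hB
        have hcov : ∀ C, Sep2 L e f C → B ⊆ C → C ⊆ A → C = B ∨ C = A := by
          intro C hC hBC hCA
          by_cases hCA' : C = A
          · exact Or.inr hCA'
          · left
            have : C ⊂ A := Set.ssubset_iff_subset_ne.2 ⟨hCA, hCA'⟩
            exact Set.Subset.antisymm (hB3 ⟨hC, this⟩ hBC) hBC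
        have hlt := Set.ncard_lt_ncard hB2 (Set.toFinite _)
        exact hN.hs_step hB1 hA hB2.subset (hpot B A hB1 hA hB2.subset hcov)
          (ih B hB1 (by omega))
  exact fun A hA => key A.ncard A hA le_rfl

end Pool.Agent.D0H8.NC
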