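import Pool.Agent.D0H8.NC.Cells

/-! # Circles through two edges and linkages -/

set_option autoImplicit false

namespace Pool.Agent.D0H8.NC

open SimpleGraph Pool.Agent.Results.MP_790549_co.CommonNegativeCircles

variable {V : Type} {G : SimpleGraph V} {σ : Sym2 V → ZMod 2}

theorem cyc_edge {u a b : V} (w : G.Walk u u) (hw : w.IsCycle) (hab : s(a, b) ∈ w.edges) :
    ∃ q : G.Walk b a, q.IsPath ∧ s(a, b) ∉ q.edges ∧ sgn σ w = σ s(a, b) + sgn σ q ∧
      (∀ g, g ∈ w.edges ↔ g = s(a, b) ∨ g ∈ q.edges) := by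
  classical
  have ha : a ∈ w.support := w.fst_mem_support_of_mem_edges hab
  have hr := hw.rotate ha
  have hs : sgn σ (w.rotate a ha) = sgn σ w := by
    unfold sgn
    exact ((w.rotate_edges a ha).perm.map σ).sum_eq
  have hed : ∀ z, z ∈ (w.rotate a ha).edges ↔ z ∈ w.edges := by
    intro z
    exact (w.rotate_edges a ha).perm.mem_iff
  generalize w.rotate a ha = w' at hr hs hed
  cases w' with
  | nil => exact absurd hr (by simp)
  | @cons _ x1 _ h q' =>
    rw [Walk.cons_isCycle_iff] at hr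
    by_cases hb : b = x1
    · subst hb
      refine ⟨q', hr.1, hr.2, by rw [← hs, sgn_cons], ?_⟩
      intro g
      rw [← hed, Walk.edges_cons, List.mem_cons]
    · have h1 : s(a, b) ∈ q'.edges := by
        have := (hed s(a, b)).2 hab
        rw [Walk.edges_cons, List.mem_cons] at this
        rcases this with h2 | h2
        · exfalso
          rw [Sym2.eq_iff] at h2
          rcases h2 with ⟨_, h2⟩ | ⟨h2, h3⟩
          · exact hb h2
          · exact hb (h3.trans h2)
        · exact h2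
      obtain ⟨q'', hq''⟩ : ∃ q'' : G.Walk a x1, q' = q''.reverse := ⟨q'.reverse, by simp⟩
      subst hq''
      rw [Walk.edges_reverse, List.mem_reverse] at h1
      cases q'' with
      | nil => exact absurd h1 (by simp)
      | @cons _ c _ h2 r =>
        have hp : (Walk.cons h2 r).IsPath := by
          have := hr.1.reverse
          rwa [Walk.reverse_reverse] at this
        rw [Walk.cons_isPath_iff] at hp
        rw [Walk.edges_cons, List.mem_cons] at h1
        have hbc : b = c := by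
          rcases h1 with h1 | h1
          · rw [Sym2.eq_iff] at h1
            rcases h1 with ⟨_, h1⟩ | ⟨h3, h4⟩
            · exact h1
            · exact h4.trans h3
          · exact absurd (r.fst_mem_support_of_mem_edges h1) hp.2
        subst hbc
        refine ⟨r.concat h.symm, ?_, ?_, ?_, ?_⟩
        · exact Walk.IsPath.concat hp.1 hp.2 h.symm
        · rw [Walk.edges_concat, List.concat_eq_append, List.mem_append, not_or]
          refine ⟨fun h3 => hp.2 (r.fst_mem_support_of_mem_edges h3), ?_⟩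
          intro h3
          rw [List.mem_singleton, Sym2.eq_iff] at h3
          rcases h3 with ⟨h3, h4⟩ | ⟨_, h3⟩
          · exact hb (h4.trans h3)
          · exact hb h3
        · rw [← hs, sgn_cons, sgn_reverse, sgn_cons]
          unfold sgn
          rw [Walk.edges_concat, List.concat_eq_append, List.map_append, List.sum_append]
          simp only [List.map_cons, List.map_nil, List.sum_cons, List.sum_nil, add_zero]
          rw [Sym2.eq_swap (a := x1)]
          ring
        · intro g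
          rw [← hed, Walk.edges_cons, Walk.edges_reverse, Walk.edges_concat, Walk.edges_cons,
            List.concat_eq_append, List.mem_append, List.mem_cons, List.mem_reverse, List.mem_cons,
            List.mem_singleton, Sym2.eq_swap (a := x1)]
          tauto

theorem path_edge {a b c d : V} (q : G.Walk a b) (hq : q.IsPath) (hcd : s(c, d) ∈ q.edges) :
    ∃ c' d', ((c' = c ∧ d' = d) ∨ (c' = d ∧ d' = c)) ∧ ∃ (q1 : G.Walk a c') (q2 : G.Walk d' b),
      q1.IsPath ∧ q2.IsPath ∧ (∀ v ∈ q1.support, v ∉ q2.support) ∧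
      sgn σ q = sgn σ q1 + σ s(c, d) + sgn σ q2 ∧
      (∀ g, g ∈ q.edges ↔ g ∈ q1.edges ∨ g = s(c, d) ∨ g ∈ q2.edges) ∧
      (∀ v, v ∈ q.support ↔ v ∈ q1.support ∨ v ∈ q2.support) := by
  induction q with
  | nil => exact absurd hcd (by simp)
  | @cons x z y h r ih =>
    rw [Walk.cons_isPath_iff] at hq
    rw [Walk.edges_cons, List.mem_cons] at hcd
    by_cases h1 : s(c, d) = s(x, z)
    · have h2 : (x = c ∧ z = d) ∨ (x = d ∧ z = c) := by
        rw [Sym2.eq_iff] at h1
        rcases h1 with ⟨h1, h2⟩ | ⟨h1, h2⟩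
        · exact Or.inl ⟨h1.symm, h2.symm⟩
        · exact Or.inr ⟨h2.symm, h1.symm⟩
      refine ⟨x, z, h2, Walk.nil, r, by simp, hq.1, ?_, ?_, ?_, ?_⟩
      · intro v hv
        rw [Walk.support_nil, List.mem_singleton] at hv
        subst hv; exact hq.2
      · rw [sgn_cons, sgn_nil, h1]; ring
      · intro g; rw [Walk.edges_cons, List.mem_cons, h1]; simp
      · intro v; rw [Walk.support_cons, List.mem_cons]; simp
    · obtain ⟨c', d', k1, q1, q2, k2, k3, k4, k5, k6, k7⟩ := ih hq.1 (hcd.resolve_left h1)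
      refine ⟨c', d', k1, Walk.cons h q1, q2, ?_, k3, ?_, ?_, ?_, ?_⟩
      · rw [Walk.cons_isPath_iff]
        exact ⟨k2, fun h3 => hq.2 ((k7 x).2 (Or.inl h3))⟩
      · intro v hv
        rw [Walk.support_cons, List.mem_cons] at hv
        rcases hv with rfl | hv
        · exact fun h3 => hq.2 ((k7 v).2 (Or.inr h3))
        · exact k4 v hv
      · rw [sgn_cons, sgn_cons, k5]; ring
      · intro g; rw [Walk.edges_cons, Walk.edges_cons, List.mem_cons, List.mem_cons, k6]; tauto
      · intro v; rw [Walk.support_cons, Walk.support_cons, List.mem_cons, List.mem_cons, k7]; tauto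

/-- the ends of `f` in some order -/
def Ends (t t' t1 t2 : V) : Prop := (t = t1 ∧ t' = t2) ∨ (t = t2 ∧ t' = t1)

theorem Ends.swap {t t' t1 t2 : V} (h : Ends t t' t1 t2) : Ends t' t t1 t2 := by
  rcases h with ⟨h1, h2⟩ | ⟨h1, h2⟩
  · exact Or.inr ⟨h2, h1⟩
  · exact Or.inl ⟨h2, h1⟩

theorem circ_to_link {s1 s2 t1 t2 u : V} (w : G.Walk u u) (hw : w.IsCycle)
    (he : s(s1, s2) ∈ w.edges) (hf : s(t1, t2) ∈ w.edges) (hef : s(s1, s2) ≠ s(t1, t2)) :
    ∃ t t' P Q p q, Ends t t' t1 t2 ∧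
      Pth (fromEdgeSet ({g | g ∈ w.edges} \ {s(s1, s2), s(t1, t2)})) σ P s1 t p ∧
      Pth (fromEdgeSet ({g | g ∈ w.edges} \ {s(s1, s2), s(t1, t2)})) σ Q s2 t' q ∧
      (∀ v ∈ P, v ∉ Q) ∧ sgn σ w = σ s(s1, s2) + σ s(t1, t2) + p + q ∧
      (∀ m m', s(m, m') ∈ w.edges → s(m, m') ≠ s(s1, s2) → s(m, m') ≠ s(t1, t2) →
        (m ∈ P ∧ m' ∈ P) ∨ (m ∈ Q ∧ m' ∈ Q)) := by
  rw [Sym2.eq_swap (a := s1)] at he hef
  obtain ⟨r, h1, h2, h3, h4⟩ := cyc_edge (σ := σ) w hw he
  have hfr : s(t1, t2) ∈ r.edges := by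
    rcases (h4 _).1 hf with h | h
    · exact absurd h.symm hef
    · exact h
  obtain ⟨t, t', k1, q1, q2, k2, k3, k4, k5, k6, k7⟩ := path_edge (σ := σ) r h1 hfr
  have hends : Ends t t' t1 t2 := k1
  have hboth : ∀ {a b : V} (q' : G.Walk a b), (∀ g ∈ q'.edges, g ∈ r.edges) →
      (t ∉ q'.support ∨ t' ∉ q'.support) →
      ∀ g ∈ q'.edges, g ∈ (fromEdgeSet ({g | g ∈ w.edges} \ {s(s1, s2), s(t1, t2)})).edgeSet := by
    intro a b q' hq' ht g hg
    rw [edgeSet_fromEdgeSet]
    refine ⟨⟨(h4 g).2 (Or.inr (hq' g hg)), ?_⟩, ?_⟩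
    · rintro (h | h)
      · rw [Sym2.eq_swap] at h
        exact h2 (h ▸ hq' g hg)
      · rw [Set.mem_singleton_iff] at h
        subst h
        have ha := q'.fst_mem_support_of_mem_edges hg
        have hb := q'.snd_mem_support_of_mem_edges hg
        rcases k1 with ⟨rfl, rfl⟩ | ⟨rfl, rfl⟩
        · rcases ht with ht | ht
          · exact ht ha
          · exact ht hb
        · rcases ht with ht | ht
          · exact ht hb
          · exact ht ha
    · intro hd
      exact G.not_isDiag_of_mem_edgeSet (q'.edges_subset_edgeSet hg) hd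
  have e1 := hboth q1 (fun g hg => (k6 g).2 (Or.inl hg))
    (Or.inr fun h => k4 t' h q2.start_mem_support)
  have e2 := hboth q2 (fun g hg => (k6 g).2 (Or.inr (Or.inr hg)))
    (Or.inl fun h => k4 t q1.end_mem_support h)
  refine ⟨t, t', {v | v ∈ q1.support}, {v | v ∈ q2.support}, sgn σ q1, sgn σ q2, hends,
    ⟨q1.transfer _ e1, k2.transfer e1, ?_, ?_⟩,
    Pth.symm ⟨q2.transfer _ e2, k3.transfer e2, ?_, ?_⟩, fun v hv hv' => k4 v hv hv', ?_, ?_⟩
  · intro v; rw [Walk.support_transfer]; rfl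
  · unfold sgn; rw [Walk.edges_transfer]
  · intro v; rw [Walk.support_transfer]; rfl
  · unfold sgn; rw [Walk.edges_transfer]
  · rw [h3, k5, Sym2.eq_swap]; ring
  · intro m m' hm hm1 hm2
    rw [Sym2.eq_swap (a := s1)] at hm1
    rcases (h4 _).1 hm with h | h
    · exact absurd h hm1
    · rcases (k6 _).1 h with h | h | h
      · exact Or.inl ⟨q1.fst_mem_support_of_mem_edges h, q1.snd_mem_support_of_mem_edges h⟩
      · exact absurd h hm2
      · exact Or.inr ⟨q2.fst_mem_support_of_mem_edges h, q2.snd_mem_support_of_mem_edges h⟩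

theorem link_to_circ {s1 s2 t1 t2 t t' : V} {X Y : Set V} {c d : ZMod 2} (hs : G.Adj s1 s2)
    (ht : G.Adj t1 t2) (hef : s(s1, s2) ≠ s(t1, t2)) (hends : Ends t t' t1 t2)
    (hX : Pth G σ X s1 t c) (hY : Pth G σ Y s2 t' d) (hd : ∀ v ∈ X, v ∉ Y) :
    ∃ (u : V) (w : G.Walk u u), w.IsCycle ∧ s(s1, s2) ∈ w.edges ∧ s(t1, t2) ∈ w.edges ∧
      sgn σ w = σ s(s1, s2) + σ s(t1, t2) + (c + d) := by
  have htt : G.Adj t t' := by
    rcases hends with ⟨rfl, rfl⟩ | ⟨rfl, rfl⟩
    · exact ht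
    · exact ht.symm
  have hf : s(t, t') = s(t1, t2) := by
    rcases hends with ⟨rfl, rfl⟩ | ⟨rfl, rfl⟩
    · rfl
    · exact Sym2.eq_swap
  obtain ⟨P, hP1, hP2, hP3⟩ := hX
  obtain ⟨Q, hQ1, hQ2, hQ3⟩ := hY.symm
  obtain ⟨w, hw1, hw2, hw3, hw4⟩ := circ σ hs.symm htt (by rw [Sym2.eq_swap, hf]; exact hef) P Q
    hP1 hQ1 (by
      intro z hz hz'
      exact hd z ((hP2 z).2 hz) ((hQ2 z).2 hz'))
  rw [Sym2.eq_swap, hf] at hw4
  rw [Sym2.eq_swap] at hw2
  rw [hf] at hw3
  exact ⟨s2, w, hw1, hw2, hw3, by rw [hw4, hP3, hQ3]⟩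

end Pool.Agent.D0H8.NC
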