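import Pool.Agent.D0H8.NC.Lattice

/-! # Circles through two edges: all of the same sign if and only if the cells are balanced -/

set_option autoImplicit false

namespace Pool.Agent.D0H8.NC

open SimpleGraph Pool.Agent.Results.MP_790549_co.CommonNegativeCircles

variable {V : Type} {G : SimpleGraph V} {σ : Sym2 V → ZMod 2} {s1 s2 t1 t2 : V}

theorem core_sub (e f : Sym2 V) : core G e f ⊆ G.edgeSet := by
  rintro g ⟨u, w, -, -, -, h⟩
  exact w.edges_subset_edgeSet h

theorem core_le (e f : Sym2 V) : fromEdgeSet (core G e f) ≤ G := by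
  intro a b h
  rw [fromEdgeSet_adj] at h
  exact core_sub e f h.1

theorem net_core (hef : s(s1, s2) ≠ s(t1, t2)) {u : V} (w : G.Walk u u) (hw : w.IsCycle)
    (he : s(s1, s2) ∈ w.edges) (hf : s(t1, t2) ∈ w.edges) :
    Net σ (core G s(s1, s2) s(t1, t2)) s(s1, s2) s(t1, t2) s1 s2 t1 t2 := by
  have key : ∀ (u : V) (w : G.Walk u u), w.IsCycle → s(s1, s2) ∈ w.edges → s(t1, t2) ∈ w.edges →
      ∃ t t' P Q p q, Ends t t' t1 t2 ∧
        Lkg σ (core G s(s1, s2) s(t1, t2)) s1 s2 t t' P Q p q ∧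
        ∀ m m', s(m, m') ∈ w.edges → s(m, m') ≠ s(s1, s2) → s(m, m') ≠ s(t1, t2) →
          (m ∈ P ∧ m' ∈ P) ∨ (m ∈ Q ∧ m' ∈ Q) := by
    intro u w hw he hf
    obtain ⟨t, t', P, Q, p, q, h1, h2, h3, h4, -, h5⟩ := circ_to_link (σ := σ) w hw he hf hef
    have hle : fromEdgeSet ({g | g ∈ w.edges} \ {s(s1, s2), s(t1, t2)}) ≤
        fromEdgeSet (core G s(s1, s2) s(t1, t2)) :=
      fromEdgeSet_mono fun g hg => ⟨u, w, hw, he, hf, hg.1⟩
    exact ⟨t, t', P, Q, p, q, h1, ⟨h2.mono hle, h3.mono hle, h4⟩, h5⟩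
  refine ⟨rfl, rfl, hef, ⟨u, w, hw, he, hf, he⟩, ⟨u, w, hw, he, hf, hf⟩, ?_, ?_, ?_⟩
  · intro g hg
    exact G.not_isDiag_of_mem_edgeSet (core_sub _ _ hg)
  · rintro m m' ⟨u', w', h1, h2, h3, h4⟩ h5 h6
    obtain ⟨t, t', P, Q, p, q, k1, k2, k3⟩ := key u' w' h1 h2 h3
    exact ⟨t, t', P, Q, p, q, k1, k2, k3 m m' h4 h5 h6⟩
  · obtain ⟨t, t', P, Q, p, q, k1, k2, -⟩ := key u w hw he hf
    exact ⟨t, t', P, Q, p, q, k1, k2⟩

theorem two_edges {u : V} (w : G.Walk u u) (hw : w.IsCycle) (e : Sym2 V) :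
    ∃ g ∈ w.edges, g ≠ e := by
  classical
  by_contra hcon
  push Not at hcon
  have h1 : w.edges.toFinset ⊆ {e} := by
    intro g hg
    rw [List.mem_toFinset] at hg
    rw [Finset.mem_singleton]
    exact hcon g hg
  have h2 := Finset.card_le_card h1
  rw [List.toFinset_card_of_nodup hw.edges_nodup, Walk.length_edges, Finset.card_singleton] at h2
  have h3 := hw.three_le_length
  omega

/-- if all circles through `e` and `f` have the same sign then every circle in a cell is positive -/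
theorem cells_of_same [Finite V] {e f : Sym2 V} (hef : e ≠ f) {k : ZMod 2}
    (hk : ∀ (u : V) (w : G.Walk u u), w.IsCycle → e ∈ w.edges → f ∈ w.edges → sgn σ w = k) :
    CellsBalanced G σ e f := by
  classical
  have := Fintype.ofFinite V
  induction e using Sym2.ind with
  | _ s1 s2 =>
  induction f using Sym2.ind with
  | _ t1 t2 =>
  intro u w hw hcore hcell
  obtain ⟨g0, hg0, -⟩ := two_edges w hw s(s1, s2)
  obtain ⟨u0, w0, c1, c2, c3, -⟩ := hcore g0 hg0
  have hN := net_core (σ := σ) hef w0 c1 c2 c3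
  have hs : G.Adj s1 s2 := w0.edges_subset_edgeSet c2
  have ht : G.Adj t1 t2 := w0.edges_subset_edgeSet c3
  have hsame : ∀ t t' P Q p q, Ends t t' t1 t2 →
      Lkg σ (core G s(s1, s2) s(t1, t2)) s1 s2 t t' P Q p q →
      p + q = k + σ s(s1, s2) + σ s(t1, t2) := by
    intro t t' P Q p q h1 h2
    obtain ⟨u', w', k1, k2, k3, k4⟩ := link_to_circ hs ht hef h1 (h2.hP.mono (core_le _ _))
      (h2.hQ.mono (core_le _ _)) h2.dis
    have := hk u' w' k1 k2 k3
    linear_combination (norm := (ring_nf; try reduce_mod_char)) this + k4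
  generalize hL : core G s(s1, s2) s(t1, t2) = L at *
  have hfirst := hN.sep2_first
  have hlast := hN.sep2_last
  have hne : s(s1, s2) ∉ w.edges := by
    intro he
    obtain ⟨g, hg, hge⟩ := two_edges w hw s(s1, s2)
    exact hge ((hcell g hg _ he _ hfirst).2 rfl)
  have hnf : s(t1, t2) ∉ w.edges := by
    intro hf
    obtain ⟨g, hg, hgf⟩ := two_edges w hw s(t1, t2)
    exact ((hcell g hg _ hf _ hlast).1 ⟨hcore g hg, hgf⟩).2 rfl
  obtain ⟨A, ⟨hA1, hA2⟩, hA3⟩ := Set.Finite.exists_maximal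
    (s := {A | Sep2 L s(s1, s2) s(t1, t2) A ∧ ∀ g ∈ w.edges, g ∉ A}) (Set.toFinite _)
    ⟨{s(s1, s2)}, hfirst, fun g hg h => hne (by
      rw [Set.mem_singleton_iff] at h
      exact h ▸ hg)⟩
  obtain ⟨A', ⟨hA1', hA2', hA3'⟩, hA4'⟩ := Set.Finite.exists_minimal
    (s := {B | Sep2 L s(s1, s2) s(t1, t2) B ∧ A ⊆ B ∧ ∀ g ∈ w.edges, g ∈ B}) (Set.toFinite _)
    ⟨L \ {s(t1, t2)}, hlast, fun g hg => ⟨hA1.1 hg, fun h => hA1.2.2.1 (by
      rw [Set.mem_singleton_iff] at h
      exact h ▸ hg)⟩, fun g hg => ⟨hcore g hg, fun h => hnf (by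
      rw [Set.mem_singleton_iff] at h
      exact h ▸ hg)⟩⟩
  have hcov : ∀ B, Sep2 L s(s1, s2) s(t1, t2) B → A ⊆ B → B ⊆ A' → B = A ∨ B = A' := by
    intro B hB hAB hBA
    by_cases h : ∀ g ∈ w.edges, g ∉ B
    · exact Or.inl (Set.Subset.antisymm (hA3 ⟨hB, h⟩ hAB) hAB)
    · push Not at h
      obtain ⟨g, hg, hgB⟩ := h
      exact Or.inr (Set.Subset.antisymm hBA
        (hA4' ⟨hB, hAB, fun g' hg' => (hcell g hg g' hg' B hB).1 hgB⟩ hBA))
  have hE : ∀ g ∈ w.edges, g ∈ (fromEdgeSet (A' \ A)).edgeSet := by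
    intro g hg
    rw [edgeSet_fromEdgeSet]
    exact ⟨⟨hA3' g hg, hA2 g hg⟩, G.not_isDiag_of_mem_edgeSet (w.edges_subset_edgeSet hg)⟩
  have := hN.cover_pos hsame hA1 hA1' hA2' hcov (w.transfer _ hE) (hw.transfer hE)
  rw [← this]
  unfold sgn
  rw [Walk.edges_transfer]

/-- if every circle in a cell is positive then all circles through `e` and `f` have the same
sign -/
theorem same_of_cells [Finite V] {e f : Sym2 V} (hef : e ≠ f) (hc : CellsBalanced G σ e f)
    {u u' : V} (w : G.Walk u u) (w' : G.Walk u' u') (hw : w.IsCycle) (he : e ∈ w.edges)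
    (hf : f ∈ w.edges) (hw' : w'.IsCycle) (he' : e ∈ w'.edges) (hf' : f ∈ w'.edges) :
    sgn σ w = sgn σ w' := by
  classical
  induction e using Sym2.ind with
  | _ s1 s2 =>
  induction f using Sym2.ind with
  | _ t1 t2 =>
  have hN := net_core (σ := σ) hef w hw he hf
  have hpot : ∀ A A', Sep2 (core G s(s1, s2) s(t1, t2)) s(s1, s2) s(t1, t2) A →
      Sep2 (core G s(s1, s2) s(t1, t2)) s(s1, s2) s(t1, t2) A' → A ⊆ A' →
      (∀ B, Sep2 (core G s(s1, s2) s(t1, t2)) s(s1, s2) s(t1, t2) B → A ⊆ B → B ⊆ A' →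
        B = A ∨ B = A') →
      ∃ φ : V → ZMod 2, Pot (fromEdgeSet (A' \ A)) σ φ := by
    intro A A' hA hA' hAA hcov
    have hbal : BalancedOff (fromEdgeSet (A' \ A)) σ ∅ := by
      intro v q hq _
      have hqE : ∀ g ∈ q.edges, g ∈ A' \ A := by
        intro g hg
        have := q.edges_subset_edgeSet hg
        rw [edgeSet_fromEdgeSet] at this
        exact this.1
      have hqG : ∀ g ∈ q.edges, g ∈ G.edgeSet := fun g hg => core_sub _ _ (hA'.1 (hqE g hg).1)
      have := hc v (q.transfer G hqG) (hq.transfer hqG)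
        (by
          intro g hg
          rw [Walk.edges_transfer] at hg
          exact hA'.1 (hqE g hg).1)
        (by
          intro g hg h hh
          rw [Walk.edges_transfer] at hg hh
          exact hN.same_cell hA hA' hAA hcov (hqE g hg) (hqE h hh))
      rw [← this]
      unfold sgn
      rw [Walk.edges_transfer]
    obtain ⟨φ, hφ⟩ := exists_potential σ ∅ hbal
    exact ⟨φ, fun a b hab => by rw [hφ a b hab (by simp), cob_mk]⟩
  obtain ⟨κ, hκ⟩ := hN.hs_all hpot _ hN.sep2_last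
  have key : ∀ (v : V) (q : G.Walk v v), q.IsCycle → s(s1, s2) ∈ q.edges →
      s(t1, t2) ∈ q.edges → sgn σ q = σ s(s1, s2) + σ s(t1, t2) + κ := by
    intro v q hq hqe hqf
    obtain ⟨t, t', P, Q, p, r, h1, h2, h3, h4, h5, -⟩ := circ_to_link (σ := σ) q hq hqe hqf hef
    have hle : fromEdgeSet ({g | g ∈ q.edges} \ {s(s1, s2), s(t1, t2)}) ≤
        fromEdgeSet (core G s(s1, s2) s(t1, t2) \ {s(t1, t2)}) :=
      fromEdgeSet_mono fun g hg => ⟨⟨v, q, hq, hqe, hqf, hg.1⟩, fun h => hg.2 (Or.inr h)⟩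
    have k1 := h2.mono hle
    have k2 := h3.mono hle
    have i1 := inc_of_pth k1 ⟨s(s1, s2), ⟨hN.eL, hef⟩, by simp⟩ t k1.right
    have i2 := inc_of_pth k2 ⟨s(s1, s2), ⟨hN.eL, hef⟩, by simp⟩ t' k2.right
    have := hκ t t' P Q p r ⟨i1, s(t1, t2), hN.fL, fun h => h.2 rfl, h1.mem.1⟩
      ⟨i2, s(t1, t2), hN.fL, fun h => h.2 rfl, h1.mem.2⟩ k1 k2 h4
    rw [h5, ← this]
    ring
  rw [key u w hw he hf, key u' w' hw' he' hf']

/-- two edges of a 2-connected graph lie in a common circle -/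
theorem two_circle [Finite V] (hG : TwoConn G) {e f : Sym2 V} (he : e ∈ G.edgeSet)
    (hf : f ∈ G.edgeSet) (hef : e ≠ f) :
    ∃ (u : V) (w : G.Walk u u), w.IsCycle ∧ e ∈ w.edges ∧ f ∈ w.edges := by
  classical
  have := Fintype.ofFinite V
  induction e using Sym2.ind with
  | _ s1 s2 =>
  induction f using Sym2.ind with
  | _ t1 t2 =>
  rw [mem_edgeSet] at he hf
  rcases menger_pth G (0 : Sym2 V → ZMod 2) ∅ {s1, s2} {t1, t2} (by simp) 2 with
    ⟨X, x, y, c, h1, h2⟩ | ⟨Z, h1, h2⟩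
  · obtain ⟨a1, a2, a3, a4, a5, a6⟩ := h1 0
    obtain ⟨b1, b2, b3, b4, b5, b6⟩ := h1 1
    have h01 := h2 0 1 (by decide)
    have h10 : ∀ v ∈ X 1, v ∉ X 0 := fun v hv hv' => h01 v hv' hv
    have hxx : x 0 ≠ x 1 := fun e => h01 (x 0) a1.left (e ▸ b1.left)
    have hyy : y 0 ≠ y 1 := fun e => h01 (y 0) a1.right (e ▸ b1.right)
    have hends : Ends (y 0) (y 1) t1 t2 := by
      rcases a3 with ha | ha <;> rcases b3 with hb | hb
      · exact absurd (ha.trans hb.symm) hyy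
      · exact Or.inl ⟨ha, hb⟩
      · exact Or.inr ⟨ha, hb⟩
      · rw [Set.mem_singleton_iff] at ha hb
        exact absurd (ha.trans hb.symm) hyy
    rcases a2 with ha | ha <;> rcases b2 with hb | hb
    · exact absurd (ha.trans hb.symm) hxx
    · rw [Set.mem_singleton_iff] at hb
      rw [ha] at a1
      rw [hb] at b1
      obtain ⟨u, w, k1, k2, k3, -⟩ := link_to_circ he hf hef hends a1 b1 h01
      exact ⟨u, w, k1, k2, k3⟩
    · rw [Set.mem_singleton_iff] at ha
      rw [ha] at a1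
      rw [hb] at b1
      obtain ⟨u, w, k1, k2, k3, -⟩ := link_to_circ he hf hef hends.swap b1 a1 h10
      exact ⟨u, w, k1, k2, k3⟩
    · rw [Set.mem_singleton_iff] at ha hb
      exact absurd (ha.trans hb.symm) hxx
  · exfalso
    have hZ : Z.card ≤ 1 := by omega
    have hc := hG.2 (Z : Set V) (by rw [Set.ncard_coe_finset]; exact hZ)
    have hns : ∀ a b : V, a ≠ b → ∃ c, (c = a ∨ c = b) ∧ c ∉ (Z : Set V) := by
      intro a b hab
      by_contra hcon
      push Not at hcon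
      have h3 := hcon a (Or.inl rfl)
      have h4 := hcon b (Or.inr rfl)
      have : ({a, b} : Finset V) ⊆ Z := by
        intro z hz
        simp only [Finset.mem_insert, Finset.mem_singleton] at hz
        rcases hz with rfl | rfl
        · exact_mod_cast h3
        · exact_mod_cast h4
      have h5 := Finset.card_le_card this
      rw [Finset.card_pair hab] at h5
      omega
    obtain ⟨a, ha, haZ⟩ := hns s1 s2 he.ne
    obtain ⟨b, hb, hbZ⟩ := hns t1 t2 hf.ne
    obtain ⟨X, c, hX, hXS⟩ := conn_pth (σ := (0 : Sym2 V → ZMod 2)) hc haZ hbZ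
    obtain ⟨z, hz, hzZ⟩ := h2 a b X c (by simpa using ha) (by simpa using hb) hX (by simp)
    exact hXS z hz (by exact_mod_cast hzZ)

end Pool.Agent.D0H8.NC
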