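import Pool.Agent.D0H8.NC.Basic

/-! # Pairs of disjoint paths between two pairs of vertices, all of the same sign -/

set_option autoImplicit false

namespace Pool.Agent.D0H8.NC

open SimpleGraph Pool.Agent.Results.MP_790549_co.CommonNegativeCircles

variable {V : Type}

/-- any two disjoint paths from `{s1, s2}` to `{t1, t2}` have total sign `κ`, and no set of at most
two vertices other than `{s1, s2}`, `{t1, t2}` separates `{s1, s2}` from `{t1, t2}` -/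
structure Cst (G : SimpleGraph V) (σ : Sym2 V → ZMod 2) (s1 s2 t1 t2 : V) (κ : ZMod 2) : Prop where
  s12 : s1 ≠ s2
  t12 : t1 ≠ t2
  st11 : s1 ≠ t1
  st12 : s1 ≠ t2
  st21 : s2 ≠ t1
  st22 : s2 ≠ t2
  ns : ¬ G.Adj s1 s2
  nt : ¬ G.Adj t1 t2
  link1 : ∀ X Y c d, Pth G σ X s1 t1 c → Pth G σ Y s2 t2 d → (∀ v ∈ X, v ∉ Y) → c + d = κ
  link2 : ∀ X Y c d, Pth G σ X s1 t2 c → Pth G σ Y s2 t1 d → (∀ v ∈ X, v ∉ Y) → c + d = κ
  sep : ∀ Z : Finset V, Z.card ≤ 2 → ¬ (s1 ∈ Z ∧ s2 ∈ Z) → ¬ (t1 ∈ Z ∧ t2 ∈ Z) →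
    ∃ a b X c, (a = s1 ∨ a = s2) ∧ (b = t1 ∨ b = t2) ∧ Pth G σ X a b c ∧ ∀ v ∈ X, v ∉ Z
  sepS : ∀ m, m ≠ s1 → m ≠ s2 → (∃ m', G.Adj m m') →
    ∃ b X c, (b = t1 ∨ b = t2) ∧ Pth G σ X m b c ∧ s1 ∉ X ∧ s2 ∉ X
  sepT : ∀ m, m ≠ t1 → m ≠ t2 → (∃ m', G.Adj m m') →
    ∃ a X c, (a = s1 ∨ a = s2) ∧ Pth G σ X m a c ∧ t1 ∉ X ∧ t2 ∉ X

variable {G : SimpleGraph V} {σ : Sym2 V → ZMod 2} {s1 s2 t1 t2 : V} {κ : ZMod 2}

theorem Cst.swapS (h : Cst G σ s1 s2 t1 t2 κ) : Cst G σ s2 s1 t1 t2 κ where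
  s12 := h.s12.symm
  t12 := h.t12
  st11 := h.st21
  st12 := h.st22
  st21 := h.st11
  st22 := h.st12
  ns := fun hh => h.ns hh.symm
  nt := h.nt
  link1 := fun X Y c d hX hY hd => by
    rw [add_comm]; exact h.link2 Y X d c hY hX fun v hv hv' => hd v hv' hv
  link2 := fun X Y c d hX hY hd => by
    rw [add_comm]; exact h.link1 Y X d c hY hX fun v hv hv' => hd v hv' hv
  sep := fun Z hZ h1 h2 => by
    obtain ⟨a, b, X, c, ha, hb, hX, hd⟩ := h.sep Z hZ (fun hh => h1 ⟨hh.2, hh.1⟩) h2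
    exact ⟨a, b, X, c, ha.symm, hb, hX, hd⟩
  sepS := fun m h1 h2 h3 => by
    obtain ⟨b, X, c, hb, hX, h4, h5⟩ := h.sepS m h2 h1 h3
    exact ⟨b, X, c, hb, hX, h5, h4⟩
  sepT := fun m h1 h2 h3 => by
    obtain ⟨a, X, c, ha, hX, h4, h5⟩ := h.sepT m h1 h2 h3
    exact ⟨a, X, c, ha.symm, hX, h4, h5⟩

theorem Cst.flip (h : Cst G σ s1 s2 t1 t2 κ) : Cst G σ t1 t2 s1 s2 κ where
  s12 := h.t12
  t12 := h.s12
  st11 := h.st11.symm
  st12 := h.st21.symm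
  st21 := h.st12.symm
  st22 := h.st22.symm
  ns := h.nt
  nt := h.ns
  link1 := fun X Y c d hX hY hd => h.link1 X Y c d hX.symm hY.symm hd
  link2 := fun X Y c d hX hY hd => by
    rw [add_comm]; exact h.link2 Y X d c hY.symm hX.symm fun v hv hv' => hd v hv' hv
  sep := fun Z hZ h1 h2 => by
    obtain ⟨a, b, X, c, ha, hb, hX, hd⟩ := h.sep Z hZ h2 h1
    exact ⟨b, a, X, c, hb, ha, hX.symm, hd⟩
  sepS := h.sepT
  sepT := h.sepS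

theorem Cst.swapT (h : Cst G σ s1 s2 t1 t2 κ) : Cst G σ s1 s2 t2 t1 κ := h.flip.swapS.flip

/-- two disjoint paths inside `A` from `x`, `x'` to `s1`, `s2` in some order -/
def Lk2 (G : SimpleGraph V) (σ : Sym2 V → ZMod 2) (A : Set V) (x x' s1 s2 : V) (α : ZMod 2) :
    Prop :=
  ∃ P P' p p', P ⊆ A ∧ P' ⊆ A ∧ (∀ v ∈ P, v ∉ P') ∧ p + p' = α ∧
    ((Pth G σ P x s1 p ∧ Pth G σ P' x' s2 p') ∨ (Pth G σ P x s2 p ∧ Pth G σ P' x' s1 p'))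

theorem Lk2.symm {A : Set V} {x x' : V} {α : ZMod 2} (h : Lk2 G σ A x x' s1 s2 α) :
    Lk2 G σ A x' x s1 s2 α := by
  obtain ⟨P, P', p, p', h1, h2, h3, h4, h5⟩ := h
  refine ⟨P', P, p', p, h2, h1, fun v hv hv' => h3 v hv' hv, by rw [add_comm, h4], ?_⟩
  rcases h5 with h5 | h5
  · exact Or.inr ⟨h5.2, h5.1⟩
  · exact Or.inl ⟨h5.2, h5.1⟩

theorem Lk2.mono {A B : Set V} {x x' : V} {α : ZMod 2} (h : Lk2 G σ A x x' s1 s2 α)
    (hAB : A ⊆ B) : Lk2 G σ B x x' s1 s2 α := by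
  obtain ⟨P, P', p, p', h1, h2, h3, h4, h5⟩ := h
  exact ⟨P, P', p, p', h1.trans hAB, h2.trans hAB, h3, h4, h5⟩

theorem cat3 {P R Q : Set V} {x y s t : V} {p r q : ZMod 2} (hP : Pth G σ P x s p)
    (hR : Pth G σ R x y r) (hQ : Pth G σ Q y t q) (h1 : ∀ v ∈ P, v ∈ R → v = x)
    (h2 : ∀ v ∈ R, v ∈ Q → v = y) (h3 : ∀ v ∈ P, v ∈ Q → v = y) :
    Pth G σ (P ∪ R ∪ Q) s t (p + r + q) :=
  (hP.symm.append hR h1).append hQ fun v hv hv' => by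
    rcases hv with hv | hv
    · exact h3 v hv hv'
    · exact h2 v hv hv'

theorem Cst.pair (hC : Cst G σ s1 s2 t1 t2 κ) {A B X X' : Set V} {x x' y y' : V}
    {α β r r' : ZMod 2} (hα : Lk2 G σ A x x' s1 s2 α) (hβ : Lk2 G σ B y y' t1 t2 β)
    (hR : Pth G σ X x y r) (hR' : Pth G σ X' x' y' r') (hXX : ∀ v ∈ X, v ∉ X')
    (hXA : ∀ v ∈ X, v ∈ A → v = x) (hXB : ∀ v ∈ X, v ∈ B → v = y)
    (hXA' : ∀ v ∈ X', v ∈ A → v = x') (hXB' : ∀ v ∈ X', v ∈ B → v = y')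
    (hAB : ∀ v ∈ A, v ∈ B → v = x' ∧ v = y') : α + β + r + r' = κ := by
  obtain ⟨P, P', p, p', a1, a2, a3, a4, a5⟩ := hα
  obtain ⟨Q, Q', q, q', b1, b2, b3, b4, b5⟩ := hβ
  have hx'P' : x' ∈ P' := by rcases a5 with a5 | a5 <;> exact a5.2.left
  have hy'Q' : y' ∈ Q' := by rcases b5 with b5 | b5 <;> exact b5.2.left
  have hPQ : ∀ v ∈ P, v ∉ Q := fun v hv hv' => by
    have := hAB v (a1 hv) (b1 hv')
    exact a3 v hv (this.1 ▸ hx'P')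
  have hPQ' : ∀ v ∈ P, v ∉ Q' := fun v hv hv' => by
    have := hAB v (a1 hv) (b2 hv')
    exact a3 v hv (this.1 ▸ hx'P')
  have hP'Q : ∀ v ∈ P', v ∉ Q := fun v hv hv' => by
    have := hAB v (a2 hv) (b1 hv')
    exact b3 v hv' (this.2 ▸ hy'Q')
  have hxP : x ∈ P := by rcases a5 with a5 | a5 <;> exact a5.1.left
  have hyQ : y ∈ Q := by rcases b5 with b5 | b5 <;> exact b5.1.left
  have hdis : ∀ v ∈ P ∪ X ∪ Q, v ∉ P' ∪ X' ∪ Q' := by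
    rintro v ((hv | hv) | hv) ((hv' | hv') | hv')
    · exact a3 v hv hv'
    · have := hXA' v hv' (a1 hv)
      subst this; exact a3 _ hv hx'P'
    · exact hPQ' v hv hv'
    · have := hXA v hv (a2 hv')
      subst this; exact a3 _ hxP hv'
    · exact hXX v hv hv'
    · have := hXB v hv (b2 hv')
      subst this; exact b3 _ hyQ hv'
    · exact hP'Q v hv' hv
    · have := hXB' v hv' (b1 hv)
      subst this; exact b3 _ hv hy'Q'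
    · exact b3 v hv hv'
  have c1 : ∀ s t, Pth G σ P x s p → Pth G σ Q y t q → Pth G σ (P ∪ X ∪ Q) s t (p + r + q) :=
    fun s t h1 h2 => cat3 h1 hR h2 (fun v hv hv' => hXA v hv' (a1 hv))
      (fun v hv hv' => hXB v hv (b1 hv')) (fun v hv hv' => absurd hv' (hPQ v hv))
  have c2 : ∀ s t, Pth G σ P' x' s p' → Pth G σ Q' y' t q' →
      Pth G σ (P' ∪ X' ∪ Q') s t (p' + r' + q') :=
    fun s t h1 h2 => cat3 h1 hR' h2 (fun v hv hv' => hXA' v hv' (a2 hv))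
      (fun v hv hv' => hXB' v hv (b2 hv')) (fun v hv hv' => (hAB v (a2 hv) (b2 hv')).2)
  have hsum : α + β + r + r' = (p + r + q) + (p' + r' + q') := by rw [← a4, ← b4]; ring
  rw [hsum]
  rcases a5 with ⟨a5, a6⟩ | ⟨a5, a6⟩ <;> rcases b5 with ⟨b5, b6⟩ | ⟨b5, b6⟩
  · exact hC.link1 _ _ _ _ (c1 _ _ a5 b5) (c2 _ _ a6 b6) hdis
  · exact hC.link2 _ _ _ _ (c1 _ _ a5 b5) (c2 _ _ a6 b6) hdis
  · rw [add_comm]
    exact hC.link2 _ _ _ _ (c2 _ _ a6 b6) (c1 _ _ a5 b5) fun v hv hv' => hdis v hv' hv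
  · rw [add_comm]
    exact hC.link1 _ _ _ _ (c2 _ _ a6 b6) (c1 _ _ a5 b5) fun v hv hv' => hdis v hv' hv

/-- the total sign of three choices of two of three vertices on a path -/
def Tri (G : SimpleGraph V) (σ : Sym2 V → ZMod 2) (B : Set V) (z1 z2 z3 t1 t2 : V) (b : ZMod 2) :
    Prop :=
  ∃ β12 β13 β23, β12 + β13 + β23 = b ∧ Lk2 G σ B z1 z2 t1 t2 β12 ∧ Lk2 G σ B z1 z3 t1 t2 β13 ∧
    Lk2 G σ B z2 z3 t1 t2 β23

theorem Tri.perm12 {B : Set V} {z1 z2 z3 t1 t2 : V} {b : ZMod 2} (h : Tri G σ B z1 z2 z3 t1 t2 b) :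
    Tri G σ B z2 z1 z3 t1 t2 b := by
  obtain ⟨b1, b2, b3, h1, h2, h3, h4⟩ := h
  exact ⟨b1, b3, b2, by rw [← h1]; ring, h2.symm, h4, h3⟩

theorem Tri.perm23 {B : Set V} {z1 z2 z3 t1 t2 : V} {b : ZMod 2} (h : Tri G σ B z1 z2 z3 t1 t2 b) :
    Tri G σ B z1 z3 z2 t1 t2 b := by
  obtain ⟨b1, b2, b3, h1, h2, h3, h4⟩ := h
  exact ⟨b2, b1, b3, by rw [← h1]; ring, h3, h2, h4.symm⟩

theorem zz (x : ZMod 2) : x + x = 0 := CharTwo.add_self_eq_zero x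

/-- two vertices of a path in order -/
theorem Pth.order {X : Set V} {x y z z' : V} {c : ZMod 2} (h : Pth G σ X x y c) (hz : z ∈ X)
    (hz' : z' ∈ X) :
    (∃ A B C a b d, Pth G σ A x z a ∧ Pth G σ B z z' b ∧ Pth G σ C z' y d ∧ a + b + d = c ∧
      (∀ v, v ∈ X ↔ v ∈ A ∨ v ∈ B ∨ v ∈ C) ∧ (∀ v ∈ A, v ∈ B → v = z) ∧
      (∀ v ∈ B, v ∈ C → v = z') ∧ (∀ v ∈ A, v ∈ C → v = z ∧ v = z')) ∨
    (∃ A B C a b d, Pth G σ A x z' a ∧ Pth G σ B z' z b ∧ Pth G σ C z y d ∧ a + b + d = c ∧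
      (∀ v, v ∈ X ↔ v ∈ A ∨ v ∈ B ∨ v ∈ C) ∧ (∀ v ∈ A, v ∈ B → v = z') ∧
      (∀ v ∈ B, v ∈ C → v = z) ∧ (∀ v ∈ A, v ∈ C → v = z ∧ v = z')) := by
  obtain ⟨P, Q, p, q, h1, h2, h3, h4, h5⟩ := h.split hz
  rcases (h1 z').1 hz' with hz'' | hz''
  · right
    obtain ⟨A, B, a, b, k1, k2, k3, k4, k5⟩ := h4.split hz''
    refine ⟨A, B, Q, a, b, q, k4, k5, h5, by rw [k3, h3], ?_, k2, ?_, ?_⟩
    · intro v; rw [h1, k1]; tauto
    · intro v hv hv'; exact h2 v ((k1 v).2 (Or.inr hv)) hv'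
    · intro v hv hv'
      have e := h2 v ((k1 v).2 (Or.inl hv)) hv'
      exact ⟨e, k2 v hv (e ▸ k5.right)⟩
  · left
    obtain ⟨A, B, a, b, k1, k2, k3, k4, k5⟩ := h5.split hz''
    refine ⟨P, A, B, p, a, b, h4, k4, k5, by rw [add_assoc, k3, h3], ?_, ?_, k2, ?_⟩
    · intro v; rw [h1, k1]
    · intro v hv hv'; exact h2 v hv ((k1 v).2 (Or.inl hv'))
    · intro v hv hv'
      have e := h2 v hv ((k1 v).2 (Or.inr hv'))
      exact ⟨e, k2 v (e ▸ k4.left) hv'⟩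

theorem tri_sorted {A B C D : Set V} {t1 t2 z1 z2 z3 : V} {a b c d : ZMod 2}
    (hA : Pth G σ A t1 z1 a) (hB : Pth G σ B z1 z2 b) (hC : Pth G σ C z2 z3 c)
    (hD : Pth G σ D z3 t2 d) (hBC : ∀ v ∈ B, v ∈ C → v = z2)
    (hAB : ∀ v ∈ A, v ∈ B → v = z1) (hCD : ∀ v ∈ C, v ∈ D → v = z3)
    (hAC : ∀ v ∈ A, v ∉ C) (hAD : ∀ v ∈ A, v ∉ D) (hBD : ∀ v ∈ B, v ∉ D) {W : Set V}
    (hW : ∀ v, v ∈ A ∨ v ∈ B ∨ v ∈ C ∨ v ∈ D → v ∈ W) :
    Tri G σ W z1 z2 z3 t1 t2 (a + b + c + d) := by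
  refine ⟨a + (c + d), a + d, (a + b) + d, ?_, ?_, ?_, ?_⟩
  · have h1 := zz (a + d)
    linear_combination h1
  · refine ⟨A, C ∪ D, a, c + d, fun v hv => hW v (Or.inl hv), ?_, ?_, rfl,
      Or.inl ⟨hA.symm, hC.append hD hCD⟩⟩
    · rintro v (hv | hv)
      · exact hW v (by tauto)
      · exact hW v (by tauto)
    · rintro v hv (hv' | hv')
      · exact hAC v hv hv'
      · exact hAD v hv hv'
  · exact ⟨A, D, a, d, fun v hv => hW v (Or.inl hv), fun v hv => hW v (by tauto), hAD, rfl,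
      Or.inl ⟨hA.symm, hD⟩⟩
  · refine ⟨A ∪ B, D, a + b, d, ?_, fun v hv => hW v (by tauto), ?_, rfl,
      Or.inl ⟨(hA.append hB hAB).symm, hD⟩⟩
    · rintro v (hv | hv)
      · exact hW v (by tauto)
      · exact hW v (by tauto)
    · rintro v (hv | hv) hv'
      · exact hAD v hv hv'
      · exact hBD v hv hv'

theorem tri {B : Set V} {t1 t2 z1 z2 z3 : V} {b : ZMod 2} (h : Pth G σ B t1 t2 b)
    (h1 : z1 ∈ B) (h2 : z2 ∈ B) (h3 : z3 ∈ B) (h12 : z1 ≠ z2) (h13 : z1 ≠ z3) (h23 : z2 ≠ z3) :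
    Tri G σ B z1 z2 z3 t1 t2 b := by
  -- sorted when `z1` comes before `z2`
  have key : ∀ z1 z2 z3 : V, z3 ∈ B → z1 ≠ z2 → z1 ≠ z3 → z2 ≠ z3 →
      (∃ A' B' C' a b' d, Pth G σ A' t1 z1 a ∧ Pth G σ B' z1 z2 b' ∧ Pth G σ C' z2 t2 d ∧
      a + b' + d = b ∧
      (∀ v, v ∈ B ↔ v ∈ A' ∨ v ∈ B' ∨ v ∈ C') ∧ (∀ v ∈ A', v ∈ B' → v = z1) ∧
      (∀ v ∈ B', v ∈ C' → v = z2) ∧ (∀ v ∈ A', v ∈ C' → v = z1 ∧ v = z2)) →
      Tri G σ B z1 z2 z3 t1 t2 b := by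
    intro z1 z2 z3 h3 h12 h13 h23 ⟨A, B', C, a, b', d, k1, k2, k3, k4, k5, k6, k7, k8⟩
    have k8' : ∀ v ∈ A, v ∉ C := fun v hv hv' => h12 ((k8 v hv hv').1.symm.trans (k8 v hv hv').2)
    rcases (k5 z3).1 h3 with hz | hz | hz
    · -- z3, z1, z2
      obtain ⟨P, Q, p, q, m1, m2, m3, m4, m5⟩ := k1.split hz
      have := tri_sorted (W := B) m4 m5 k2 k3 (fun v hv hv' => k6 v ((m1 v).2 (Or.inr hv)) hv')
        m2 k7 (fun v hv hv' => by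
          have e := k6 v ((m1 v).2 (Or.inl hv)) hv'
          subst e
          exact h13 (m2 v hv m5.right)) (fun v hv => k8' v ((m1 v).2 (Or.inl hv)))
        (fun v hv => k8' v ((m1 v).2 (Or.inr hv))) (by
          intro v; rw [k5, m1]; tauto)
      have e : p + q + b' + d = b := by rw [m3, k4]
      rw [e] at this
      exact (this.perm12).perm23
    · -- z1, z3, z2
      obtain ⟨P, Q, p, q, m1, m2, m3, m4, m5⟩ := k2.split hz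
      have := tri_sorted (W := B) k1 m4 m5 k3 m2 (fun v hv hv' => k6 v hv ((m1 v).2 (Or.inl hv')))
        (fun v hv hv' => k7 v ((m1 v).2 (Or.inr hv)) hv')
        (fun v hv hv' => by
          have e := k6 v hv ((m1 v).2 (Or.inr hv'))
          subst e
          exact h13 (m2 v m4.left hv')) k8' (fun v hv hv' => by
          have e := k7 v ((m1 v).2 (Or.inl hv)) hv'
          subst e
          exact h23 (m2 v hv m5.right)) (by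
          intro v; rw [k5, m1]; tauto)
      have e : a + p + q + d = b := by rw [add_assoc a p q, m3, k4]
      rw [e] at this
      exact this.perm23
    · -- z1, z2, z3
      obtain ⟨P, Q, p, q, m1, m2, m3, m4, m5⟩ := k3.split hz
      have := tri_sorted (W := B) k1 k2 m4 m5 (fun v hv hv' => k7 v hv ((m1 v).2 (Or.inl hv')))
        k6 m2 (fun v hv hv' => k8' v hv ((m1 v).2 (Or.inl hv')))
        (fun v hv hv' => k8' v hv ((m1 v).2 (Or.inr hv')))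
        (fun v hv hv' => by
          have e := k7 v hv ((m1 v).2 (Or.inr hv'))
          subst e
          exact h23 (m2 v m4.left hv')) (by
          intro v; rw [k5, m1]; tauto)
      have e : a + b' + p + q = b := by rw [add_assoc (a + b') p q, m3, k4]
      rw [e] at this
      exact this
  rcases h.order h1 h2 with ho | ho
  · exact key z1 z2 z3 h3 h12 h13 h23 ho
  · obtain ⟨A, B', C, a, b', d, k1, k2, k3, k4, k5, k6, k7, k8⟩ := ho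
    exact (key z2 z1 z3 h3 h12.symm h23 h13 ⟨A, B', C, a, b', d, k1, k2, k3, k4, k5, k6, k7,
      fun v hv hv' => (k8 v hv hv').symm⟩).perm12

/-- three disjoint connections, the middle one possibly trivial -/
theorem Cst.three (hC : Cst G σ s1 s2 t1 t2 κ) {A B : Set V} {a b : ZMod 2}
    (hA : Pth G σ A s1 s2 a) (hB : Pth G σ B t1 t2 b)
    {x1 x2 x3 y1 y2 y3 : V} {X1 X2 X3 : Set V} {r1 r2 r3 : ZMod 2}
    (hR1 : Pth G σ X1 x1 y1 r1) (hR2 : Pth G σ X2 x2 y2 r2) (hR3 : Pth G σ X3 x3 y3 r3)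
    (hx1 : x1 ∈ A) (hx2 : x2 ∈ A) (hx3 : x3 ∈ A) (hy1 : y1 ∈ B) (hy2 : y2 ∈ B) (hy3 : y3 ∈ B)
    (h12 : ∀ v ∈ X1, v ∉ X2) (h13 : ∀ v ∈ X1, v ∉ X3) (h23 : ∀ v ∈ X2, v ∉ X3)
    (hA1 : ∀ v ∈ X1, v ∈ A → v = x1) (hA2 : ∀ v ∈ X2, v ∈ A → v = x2)
    (hA3 : ∀ v ∈ X3, v ∈ A → v = x3)
    (hB1 : ∀ v ∈ X1, v ∈ B → v = y1) (hB2 : ∀ v ∈ X2, v ∈ B → v = y2)
    (hB3 : ∀ v ∈ X3, v ∈ B → v = y3)
    (hAB : ∀ v ∈ A, v ∉ B) : a + b = κ := by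
  have nx12 : x1 ≠ x2 := fun e => h12 x1 hR1.left (e ▸ hR2.left)
  have nx13 : x1 ≠ x3 := fun e => h13 x1 hR1.left (e ▸ hR3.left)
  have nx23 : x2 ≠ x3 := fun e => h23 x2 hR2.left (e ▸ hR3.left)
  have ny12 : y1 ≠ y2 := fun e => h12 y1 hR1.right (e ▸ hR2.right)
  have ny13 : y1 ≠ y3 := fun e => h13 y1 hR1.right (e ▸ hR3.right)
  have ny23 : y2 ≠ y3 := fun e => h23 y2 hR2.right (e ▸ hR3.right)
  obtain ⟨α12, α13, α23, e1, a12, a13, a23⟩ := tri hA hx1 hx2 hx3 nx12 nx13 nx23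
  obtain ⟨β12, β13, β23, e2, b12, b13, b23⟩ := tri hB hy1 hy2 hy3 ny12 ny13 ny23
  have k12 := hC.pair a12 b12 hR1 hR2 h12 hA1 hB1 hA2 hB2 (fun v hv hv' => absurd hv' (hAB v hv))
  have k13 := hC.pair a13 b13 hR1 hR3 h13 hA1 hB1 hA3 hB3 (fun v hv hv' => absurd hv' (hAB v hv))
  have k23 := hC.pair a23 b23 hR2 hR3 h23 hA2 hB2 hA3 hB3 (fun v hv hv' => absurd hv' (hAB v hv))
  have f : ∀ a12 a13 a23 b12 b13 b23 r1 r2 r3 κ : ZMod 2, a12 + b12 + r1 + r2 = κ →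
      a13 + b13 + r1 + r3 = κ → a23 + b23 + r2 + r3 = κ →
      (a12 + a13 + a23) + (b12 + b13 + b23) = κ := by
    intro a12 a13 a23 b12 b13 b23 r1 r2 r3 κ h1 h2 h3
    have z1 := zz r1
    have z2 := zz r2
    have z3 := zz r3
    have z4 := zz κ
    linear_combination h1 + h2 + h3 - z1 - z2 - z3 + z4
  rw [← e1, ← e2]
  exact f _ _ _ _ _ _ _ _ _ _ k12 k13 k23

end Pool.Agent.D0H8.NC
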