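import Pool.Agent.D0H8.NC.Circle

/-! # Three-connected graphs -/

set_option autoImplicit false

namespace Pool.Agent.D0H8.NC

open SimpleGraph Pool.Agent.Results.MP_790549_co.CommonNegativeCircles

variable {V : Type} {G : SimpleGraph V} {σ : Sym2 V → ZMod 2} {s1 s2 t1 t2 : V} {κ : ZMod 2}

/-- if all paths from `a` to `b` avoiding `U` have the same sign, then every circle avoiding `U` with
two vertices on such a path is positive -/
theorem rank1 {a b : V} {U : Set V} (h : ∀ X c, Pth G σ X a b c → (∀ z ∈ X, z ∉ U) → c = κ)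
    {P : Set V} {c : ZMod 2} (hP : Pth G σ P a b c) (hPU : ∀ z ∈ P, z ∉ U) {v x y : V}
    (w : G.Walk v v) (hw : w.IsCycle) (hwU : ∀ z ∈ w.support, z ∉ U) (hx : x ∈ w.support)
    (hy : y ∈ w.support) (hxy : x ≠ y) (hxP : x ∈ P) (hyP : y ∈ P) : sgn σ w = 0 := by
  obtain ⟨G', f, hle, hP', hpot⟩ := hP.pot
  have ear : ∀ E p q ε, Pth G σ E p q ε → (∀ v ∈ E, v ∈ w.support) → p ∈ P → q ∈ P →
      (∀ v ∈ E, v ∈ P → v = p ∨ v = q) → ε = f p + f q := by
    intro E p q ε hE hEw hp hq hEP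
    by_cases hpq : p = q
    · subst hpq
      rw [(hE.eq_of_eq).2]; exact (zz _).symm
    have key : ∀ (p q : V) (ε : ZMod 2), Pth G σ E p q ε → p ≠ q →
        (∀ v ∈ E, v ∈ P → v = p ∨ v = q) →
        (∃ A B C i j k, Pth G' σ A a p i ∧ Pth G' σ B p q j ∧ Pth G' σ C q b k ∧ i + j + k = c ∧
        (∀ v, v ∈ P ↔ v ∈ A ∨ v ∈ B ∨ v ∈ C) ∧ (∀ v ∈ A, v ∈ B → v = p) ∧
        (∀ v ∈ B, v ∈ C → v = q) ∧ (∀ v ∈ A, v ∈ C → v = p ∧ v = q)) → ε = f p + f q := by
      intro p q ε hE hpq hEP ⟨A, B, C, i, j, k, k1, k2, k3, k4, k5, k6, k7, k8⟩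
      have hAC : ∀ v ∈ A, v ∉ C := fun v hv hv' =>
        hpq ((k8 v hv hv').1.symm.trans (k8 v hv hv').2)
      have hnew : Pth G σ (A ∪ E ∪ C) a b (i + ε + k) := by
        refine ((k1.mono hle).append hE ?_).append (k3.mono hle) ?_
        · intro v hv hv'
          rcases hEP v hv' ((k5 v).2 (Or.inl hv)) with h | h
          · exact h
          · subst h; exact absurd k3.left (hAC _ hv)
        · rintro v (hv | hv) hv'
          · exact absurd hv' (hAC v hv)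
          · rcases hEP v hv ((k5 v).2 (Or.inr (Or.inr hv'))) with h | h
            · subst h; exact absurd hv' (hAC _ k1.right)
            · exact h
      have e1 := h _ _ hnew (by
        rintro z ((hz | hz) | hz)
        · exact hPU z ((k5 z).2 (Or.inl hz))
        · exact hwU z (hEw z hz)
        · exact hPU z ((k5 z).2 (Or.inr (Or.inr hz))))
      have e0 := h _ _ hP hPU
      have e2 := hpot.pth k2
      linear_combination (norm := (ring_nf; try reduce_mod_char)) e1 + e0 + k4 + e2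
    rcases hP'.order hp hq with ho | ho
    · exact key p q ε hE hpq hEP ho
    · obtain ⟨A, B, C, i, j, k, k1, k2, k3, k4, k5, k6, k7, k8⟩ := ho
      have := key q p ε hE.symm (Ne.symm hpq) (fun v hv hv' => (hEP v hv hv').symm)
        ⟨A, B, C, i, j, k, k1, k2, k3, k4, k5, k6, k7, fun v hv hv' => (k8 v hv hv').symm⟩
      rw [this, add_comm]
  obtain ⟨D1, D2, d1, d2, g1, g2, g3, g4, g5⟩ := circle_split (σ := σ) w hw hx hy hxy
  have h1 := seg_path (W := P) (f := f) (Q := {z | z ∈ w.support}) ear D1 x y d1 g1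
    (fun v hv => (g4 v).2 (Or.inl hv)) hxP hyP
  have h2 := seg_path (W := P) (f := f) (Q := {z | z ∈ w.support}) ear D2 x y d2 g2
    (fun v hv => (g4 v).2 (Or.inr hv)) hxP hyP
  rw [g3, h1, h2]
  exact zz _

theorem Lnk.of {X1 X2 : Set V} {c1 c2 : ZMod 2} (h1 : Pth G σ X1 s1 t1 c1)
    (h2 : Pth G σ X2 s2 t2 c2) (hd : ∀ v ∈ X1, v ∉ X2) :
    ∃ G1 G2 f1 f2, Lnk G σ s1 s2 t1 t2 X1 X2 G1 G2 f1 f2 c1 c2 := by
  obtain ⟨G1, f1, a1, a2, a3⟩ := h1.pot
  obtain ⟨G2, f2, b1, b2, b3⟩ := h2.pot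
  exact ⟨G1, G2, f1, f2, a1, b1, a2, b2, a3, b3, hd⟩

theorem Cst.circle' [Fintype V] (hC : Cst G σ s1 s2 t1 t2 κ) {X1 X2 : Set V} {c1 c2 : ZMod 2}
    (h1 : Pth G σ X1 s1 t1 c1) (h2 : Pth G σ X2 s2 t2 c2) (hd : ∀ v ∈ X1, v ∉ X2)
    {v x y : V} (w : G.Walk v v)
    (hw : w.IsCycle) (hx : x ∈ w.support) (hy : y ∈ w.support) (hxy : x ≠ y) (hxX : x ∈ X1)
    (hyX : y ∈ X1) : sgn σ w = 0 := by
  obtain ⟨G1, G2, f1, f2, hL⟩ := Lnk.of h1 h2 hd
  exact hC.circle hL w hw hx hy hxy hxX hyX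

/-- a circle with two vertices on an ear -/
theorem Cst.circle_ear [Fintype V] (hC : Cst G σ s1 s2 t1 t2 κ) {X1 X2 : Set V} {c1 c2 : ZMod 2}
    (h1 : Pth G σ X1 s1 t1 c1) (h2 : Pth G σ X2 s2 t2 c2) (hd : ∀ v ∈ X1, v ∉ X2)
    {E : Set V} {a b : V} {ε : ZMod 2} (hE : Pth G σ E a b ε) (ha : a ∈ X1) (hb : b ∈ X1)
    (hab : a ≠ b) (hE1 : ∀ v ∈ E, v ∈ X1 → v = a ∨ v = b) (hE2 : ∀ v ∈ E, v ∉ X2)
    {v x y : V} (w : G.Walk v v)
    (hw : w.IsCycle) (hx : x ∈ w.support) (hy : y ∈ w.support) (hxy : x ≠ y) (hxE : x ∈ E)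
    (hyE : y ∈ E) : sgn σ w = 0 := by
  have key : ∀ (a b : V) (ε : ZMod 2), Pth G σ E a b ε → a ≠ b →
      (∀ v ∈ E, v ∈ X1 → v = a ∨ v = b) →
      (∃ A B C p q r, Pth G σ A s1 a p ∧ Pth G σ B a b q ∧ Pth G σ C b t1 r ∧ p + q + r = c1 ∧
      (∀ v, v ∈ X1 ↔ v ∈ A ∨ v ∈ B ∨ v ∈ C) ∧ (∀ v ∈ A, v ∈ B → v = a) ∧
      (∀ v ∈ B, v ∈ C → v = b) ∧ (∀ v ∈ A, v ∈ C → v = a ∧ v = b)) → sgn σ w = 0 := by
    intro a b ε hE hab hE1 ⟨A, B, C, p, q, r, k1, k2, k3, k4, k5, k6, k7, k8⟩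
    have hAC : ∀ v ∈ A, v ∉ C := fun v hv hv' => hab ((k8 v hv hv').1.symm.trans (k8 v hv hv').2)
    have hnew : Pth G σ (A ∪ E ∪ C) s1 t1 (p + ε + r) := by
      refine (k1.append hE ?_).append k3 ?_
      · intro v hv hv'
        rcases hE1 v hv' ((k5 v).2 (Or.inl hv)) with h | h
        · exact h
        · subst h; exact absurd k3.left (hAC _ hv)
      · rintro v (hv | hv) hv'
        · exact absurd hv' (hAC v hv)
        · rcases hE1 v hv ((k5 v).2 (Or.inr (Or.inr hv'))) with h | h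
          · subst h; exact absurd hv' (hAC _ k1.right)
          · exact h
    refine hC.circle' hnew h2 ?_ w hw hx hy hxy (Or.inl (Or.inr hxE)) (Or.inl (Or.inr hyE))
    rintro v ((hv | hv) | hv)
    · exact hd v ((k5 v).2 (Or.inl hv))
    · exact hE2 v hv
    · exact hd v ((k5 v).2 (Or.inr (Or.inr hv)))
  rcases h1.order ha hb with ho | ho
  · exact key a b ε hE hab hE1 ho
  · obtain ⟨A, B, C, p, q, r, k1, k2, k3, k4, k5, k6, k7, k8⟩ := ho
    exact key b a ε hE.symm (Ne.symm hab) (fun v hv hv' => (hE1 v hv hv').symm)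
      ⟨A, B, C, p, q, r, k1, k2, k3, k4, k5, k6, k7, fun v hv hv' => (k8 v hv hv').symm⟩

/-- a linkage exists -/
theorem Cst.exists_link [Fintype V] (hC : Cst G σ s1 s2 t1 t2 κ) :
    ∃ X1 X2 c1 c2, (∀ v ∈ X1, v ∉ X2) ∧ ((Pth G σ X1 s1 t1 c1 ∧ Pth G σ X2 s2 t2 c2) ∨
      (Pth G σ X1 s1 t2 c1 ∧ Pth G σ X2 s2 t1 c2)) := by
  rcases menger_pth G σ ∅ {s1, s2} {t1, t2} (by simp) 2 with ⟨X, x, y, c, h1, h2⟩ | ⟨Z, h1, h2⟩
  · obtain ⟨a1, a2, a3, a4, a5, a6⟩ := h1 0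
    obtain ⟨b1, b2, b3, b4, b5, b6⟩ := h1 1
    have h01 := h2 0 1 (by decide)
    have h10 : ∀ v ∈ X 1, v ∉ X 0 := fun v hv hv' => h01 v hv' hv
    have hxx : x 0 ≠ x 1 := fun e => h01 (x 0) a1.left (e ▸ b1.left)
    have hyy : y 0 ≠ y 1 := fun e => h01 (y 0) a1.right (e ▸ b1.right)
    generalize x 0 = x0 at *
    generalize x 1 = x1 at *
    generalize y 0 = y0 at *
    generalize y 1 = y1 at *
    rcases a2 with rfl | ha <;> rcases b2 with rfl | hb
    · exact absurd rfl hxx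
    · rw [Set.mem_singleton_iff] at hb
      subst hb
      rcases a3 with rfl | ha' <;> rcases b3 with rfl | hb'
      · exact absurd rfl hyy
      · rw [Set.mem_singleton_iff] at hb'
        subst hb'
        exact ⟨_, _, _, _, h01, Or.inl ⟨a1, b1⟩⟩
      · rw [Set.mem_singleton_iff] at ha'
        subst ha'
        exact ⟨_, _, _, _, h01, Or.inr ⟨a1, b1⟩⟩
      · rw [Set.mem_singleton_iff] at ha' hb'
        exact absurd (ha'.trans hb'.symm) hyy
    · rw [Set.mem_singleton_iff] at ha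
      subst ha
      rcases a3 with rfl | ha' <;> rcases b3 with rfl | hb'
      · exact absurd rfl hyy
      · rw [Set.mem_singleton_iff] at hb'
        subst hb'
        exact ⟨_, _, _, _, h10, Or.inr ⟨b1, a1⟩⟩
      · rw [Set.mem_singleton_iff] at ha'
        subst ha'
        exact ⟨_, _, _, _, h10, Or.inl ⟨b1, a1⟩⟩
      · rw [Set.mem_singleton_iff] at ha' hb'
        exact absurd (ha'.trans hb'.symm) hyy
    · rw [Set.mem_singleton_iff] at ha hb
      exact absurd (ha.trans hb.symm) hxx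
  · exfalso
    have hns : ∀ a b : V, a ≠ b → ¬ (a ∈ Z ∧ b ∈ Z) := by
      classical
      rintro a b hab ⟨ha, hb⟩
      have : ({a, b} : Finset V) ⊆ Z := by
        intro z hz
        simp only [Finset.mem_insert, Finset.mem_singleton] at hz
        rcases hz with rfl | rfl <;> assumption
      have h3 := Finset.card_le_card this
      rw [Finset.card_pair hab] at h3
      omega
    obtain ⟨a, b, X, c, ha, hb, hX, hd⟩ := hC.sep Z (by omega) (hns _ _ hC.s12) (hns _ _ hC.t12)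
    obtain ⟨v, hv, hvZ⟩ := h2 a b X c (by simpa using ha) (by simpa using hb) hX (by simp)
    exact hd v hv hvZ

end Pool.Agent.D0H8.NC
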