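import Pool.Agent.D0H8.NC.Conn

/-! # The characterisation for three-connected graphs -/

set_option autoImplicit false

namespace Pool.Agent.D0H8.NC

open SimpleGraph Pool.Agent.Results.MP_790549_co.CommonNegativeCircles

variable {V : Type} {G : SimpleGraph V} {σ : Sym2 V → ZMod 2}

/-- adjacent edges of a 3-connected graph -/
theorem three_adjacent [Fintype V] (hG : ThreeConn G) {v x y : V} (hx : G.Adj v x)
    (hy : G.Adj v y) (hxy : x ≠ y) (k : ZMod 2)
    (hk : ∀ (u : V) (w : G.Walk u u), w.IsCycle → s(v, x) ∈ w.edges → s(v, y) ∈ w.edges →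
      sgn σ w = k) : BalancedOffVertex G σ v := by
  classical
  intro u w hw hv
  have hpath : ∀ X c, Pth G σ X x y c → (∀ z ∈ X, z ∉ ({v} : Set V)) →
      c = k + σ s(v, x) + σ s(v, y) := by
    intro X c hX hXv
    obtain ⟨P, hP1, hP2, hP3⟩ := hX
    have hne : s(v, x) ≠ s(y, v) := by
      intro h
      rw [Sym2.eq_iff] at h
      rcases h with ⟨h, h'⟩ | ⟨h, h'⟩
      · exact hx.ne h'.symm
      · exact hxy h'
    obtain ⟨w', g1, g2, g3, g4⟩ := circ σ hx hy.symm hne P Walk.nil hP1 (by simp) (by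
      intro z hz hz'
      rw [Walk.support_nil, List.mem_singleton] at hz'
      subst hz'
      exact hXv z ((hP2 z).2 hz) rfl)
    rw [Sym2.eq_swap (a := y)] at g3 g4
    have := hk v w' g1 g2 g3
    rw [g4, hP3, sgn_nil] at this
    linear_combination (norm := (ring_nf; try reduce_mod_char)) this
  rcases menger_pth G σ {v} {x, y} {z | z ∈ w.support} (by
    rintro z (rfl | hz)
    · simpa using hx.ne'
    · rw [Set.mem_singleton_iff] at hz
      subst hz; simpa using hy.ne') 2 with ⟨X, p, d, c, h1, h2⟩ | ⟨Z, h1, h2⟩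
  · obtain ⟨a1, a2, a3, a4, a5, a6⟩ := h1 0
    obtain ⟨b1, b2, b3, b4, b5, b6⟩ := h1 1
    have h01 := h2 0 1 (by decide)
    have key : ∀ (x y : V) (X Y : Set V) (d1 d2 : V) (r1 r2 : ZMod 2),
        (∀ X c, Pth G σ X x y c → (∀ z ∈ X, z ∉ ({v} : Set V)) →
          c = k + σ s(v, x) + σ s(v, y)) →
        Pth G σ X x d1 r1 → Pth G σ Y y d2 r2 → (∀ z ∈ X, z ∉ Y) → d1 ∈ w.support →
        d2 ∈ w.support → (∀ z ∈ X, z ∈ w.support → z = d1) → (∀ z ∈ Y, z ∈ w.support → z = d2) →
        (∀ z ∈ X, z ∉ ({v} : Set V)) → (∀ z ∈ Y, z ∉ ({v} : Set V)) → sgn σ w = 0 := by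
      intro x y X Y d1 d2 r1 r2 hp hX hY hXY hd1 hd2 hXD hYD hXv hYv
      have hdd : d1 ≠ d2 := fun e => hXY d1 hX.right (e ▸ hY.right)
      obtain ⟨D1, D2, e1, e2, g1, g2, g3, g4, g5⟩ := circle_split (σ := σ) w hw hd1 hd2 hdd
      have hP : Pth G σ (X ∪ D1 ∪ Y) x y (r1 + e1 + r2) := by
        refine (hX.append g1 ?_).append hY.symm ?_
        · intro z hz hz'; exact hXD z hz ((g4 z).2 (Or.inl hz'))
        · rintro z (hz | hz) hz'
          · exact absurd hz' (hXY z hz)
          · exact hYD z hz' ((g4 z).2 (Or.inl hz))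
      have hDv : ∀ z ∈ w.support, z ∉ ({v} : Set V) := by
        intro z hz hzv
        rw [Set.mem_singleton_iff] at hzv
        exact hv (hzv ▸ hz)
      exact rank1 hp hP (by
        rintro z ((hz | hz) | hz)
        · exact hXv z hz
        · exact hDv z ((g4 z).2 (Or.inl hz))
        · exact hYv z hz) w hw hDv hd1 hd2 hdd (Or.inl (Or.inl hX.right)) (Or.inr hY.right)
    have hpp : p 0 ≠ p 1 := fun e => h01 (p 0) a1.left (e ▸ b1.left)
    generalize p 0 = p0 at *
    generalize p 1 = p1 at *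
    rcases a2 with rfl | ha <;> rcases b2 with rfl | hb
    · exact absurd rfl hpp
    · rw [Set.mem_singleton_iff] at hb
      subst hb
      exact key _ _ _ _ _ _ _ _ hpath a1 b1 h01 a3 b3 a5 b5 a6 b6
    · rw [Set.mem_singleton_iff] at ha
      subst ha
      exact key _ _ _ _ _ _ _ _ hpath b1 a1 (fun z hz hz' => h01 z hz' hz) b3 a3 b5 a5 b6 a6
    · rw [Set.mem_singleton_iff] at ha hb
      exact absurd (ha.trans hb.symm) hpp
  · exfalso
    have hcard : (insert v Z).card ≤ 2 := (Finset.card_insert_le _ _).trans (by omega)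
    have hc := hG.2 ((insert v Z : Finset V) : Set V) (by rw [Set.ncard_coe_finset]; exact hcard)
    obtain ⟨b, hb, hbZ⟩ := three_le_support w hw _ hcard
    obtain ⟨a, ha, haZ⟩ : ∃ a ∈ ({x, y} : Set V), a ∉ ((insert v Z : Finset V) : Set V) := by
      by_contra hcon
      push Not at hcon
      have h3 := hcon x (by simp)
      have h4 := hcon y (by simp)
      have : ({v, x, y} : Finset V) ⊆ insert v Z := by
        intro z hz
        simp only [Finset.mem_insert, Finset.mem_singleton] at hz
        rcases hz with rfl | rfl | rfl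
        · simp
        · exact_mod_cast h3
        · exact_mod_cast h4
      have h5 := Finset.card_le_card this
      rw [Finset.card_eq_three.2 ⟨v, x, y, hx.ne, hy.ne, hxy, rfl⟩] at h5
      omega
    obtain ⟨X, c, hX, hXS⟩ := conn_pth (σ := σ) hc haZ (by exact_mod_cast hbZ)
    obtain ⟨z, hz, hzZ⟩ := h2 a b X c ha hb hX (fun z hz hzv => hXS z hz (by
      rw [Set.mem_singleton_iff] at hzv
      subst hzv; simp))
    exact hXS z hz (by simp [hzZ])

/-- every vertex of a 3-connected graph has three neighbours -/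
theorem three_neighbors (hG : ThreeConn G) (v : V) :
    ∃ a b c, G.Adj v a ∧ G.Adj v b ∧ G.Adj v c ∧ a ≠ b ∧ a ≠ c ∧ b ≠ c := by
  classical
  have hfin : Finite V := Nat.finite_of_card_ne_zero (by have := hG.1; omega)
  by_contra hcon
  push Not at hcon
  have hN : (G.neighborSet v).ncard ≤ 2 := by
    by_contra h
    push Not at h
    obtain ⟨a, ha, b, hb, c, hc, hab, hac, hbc⟩ := (Set.two_lt_ncard_iff (Set.toFinite _)).1 h |>
      fun ⟨a, b, c, ha, hb, hc, hab, hac, hbc⟩ => (⟨a, ha, b, hb, c, hc, hab, hac, hbc⟩ :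
        ∃ a ∈ G.neighborSet v, ∃ b ∈ G.neighborSet v, ∃ c ∈ G.neighborSet v, a ≠ b ∧ a ≠ c ∧ b ≠ c)
    exact hbc (hcon a b c ha hb hc hab hac)
  have hc := hG.2 _ hN
  obtain ⟨u, hu⟩ : ∃ u, u ∉ insert v (G.neighborSet v) := by
    by_contra h
    push Not at h
    have h1 : insert v (G.neighborSet v) = Set.univ := Set.eq_univ_of_forall h
    have h2 := Set.ncard_insert_le v (G.neighborSet v)
    rw [h1, Set.ncard_univ] at h2
    have := hG.1
    omega
  rw [Set.mem_insert_iff, not_or] at hu
  obtain ⟨X, c, hX, hXS⟩ := conn_pth (σ := 0) hc (a := v) (b := u) (by simp) hu.2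
  obtain ⟨w, h1, h2, h3⟩ := hX
  cases w with
  | nil => exact hu.1 rfl
  | @cons _ m _ hm q => exact hXS m ((h2 m).2 (by simp)) hm

/-- **three-connected graphs** -/
theorem three_main (hG : ThreeConn G) : NegPair G σ ↔
    (∀ v, ¬ BalancedOffVertex G σ v) ∧
      ∀ e ∈ G.edgeSet, ∀ f ∈ G.edgeSet, ¬ BalancedOff G σ {e, f} := by
  classical
  have hfin : Finite V := Nat.finite_of_card_ne_zero (by have := hG.1; omega)
  have := Fintype.ofFinite V
  constructor
  · intro hN
    have hv : ∀ v, ¬ BalancedOffVertex G σ v := by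
      intro v hv
      obtain ⟨a, b, c, ha, hb, hc, hab, hac, hbc⟩ := three_neighbors hG v
      exact vertex_necessary σ hN v a b c ha hb hc hab hac hbc hv
    refine ⟨hv, ?_⟩
    have h1 : ∀ e : Sym2 V, ¬ BalancedOff G σ {e} := by
      intro e he
      induction e using Sym2.ind with
      | _ a b => exact hv a (off_vertex_of_off_edges σ a _ (by simp) he)
    intro e he f hf hb
    by_cases hef : e = f
    · subst hef
      rw [Set.pair_eq_singleton] at hb
      exact h1 e hb
    · rcases pair_necessary σ hN e f he hf hef hb with h | h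
      · exact h1 e h
      · exact h1 f h
  · rintro ⟨hv, he⟩
    by_contra hN
    unfold NegPair at hN
    push Not at hN
    obtain ⟨e, heE, f, hfE, hef, hcon⟩ := hN
    have hk : ∀ (u : V) (w : G.Walk u u), w.IsCycle → e ∈ w.edges → f ∈ w.edges →
        sgn σ w = 0 := fun u w h1 h2 h3 => zmod2_ne (hcon u w h1 h2 h3)
    induction e using Sym2.ind with
    | _ a b =>
    induction f using Sym2.ind with
    | _ c d =>
    rw [mem_edgeSet] at heE hfE
    by_cases h1 : a = c
    · subst h1
      exact hv a (three_adjacent hG heE hfE (fun h => hef (by rw [h])) 0 hk)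
    by_cases h2 : a = d
    · subst h2
      rw [Sym2.eq_swap (a := c)] at hk hef
      exact hv a (three_adjacent hG heE hfE.symm (fun h => hef (by rw [h])) 0 hk)
    by_cases h3 : b = c
    · subst h3
      rw [Sym2.eq_swap (a := a)] at hk hef
      exact hv b (three_adjacent hG heE.symm hfE (fun h => hef (by rw [h])) 0 hk)
    by_cases h4 : b = d
    · subst h4
      rw [Sym2.eq_swap (a := a), Sym2.eq_swap (a := c)] at hk hef
      exact hv b (three_adjacent hG heE.symm hfE.symm (fun h => hef (by rw [h])) 0 hk)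
    exact he _ heE _ hfE (three_disjoint hG heE hfE h1 h2 h3 h4 0 hk)

end Pool.Agent.D0H8.NC
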