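import Pool.Agent.D0H8.NC.Disj

/-! # Two circles that touch in one vertex -/

set_option autoImplicit false

namespace Pool.Agent.D0H8.NC

open SimpleGraph Pool.Agent.Results.MP_790549_co.CommonNegativeCircles

variable {V : Type} {G : SimpleGraph V} {σ : Sym2 V → ZMod 2} {s1 s2 t1 t2 : V} {κ : ZMod 2}

/-- the first vertex of a path in `W` -/
theorem Pth.first {X W : Set V} {x y : V} {c : ZMod 2} (h : Pth G σ X x y c)
    (hm : ∃ v ∈ X, v ∈ W) : ∃ m P Q p q, (∀ v, v ∈ X ↔ v ∈ P ∨ v ∈ Q) ∧ (∀ v ∈ P, v ∈ Q → v = m) ∧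
      p + q = c ∧ Pth G σ P x m p ∧ Pth G σ Q m y q ∧ m ∈ W ∧ (∀ v ∈ P, v ∈ W → v = m) := by
  classical
  have key : ∀ n : ℕ, ∀ m P Q p q, (∀ v, v ∈ X ↔ v ∈ P ∨ v ∈ Q) → (∀ v ∈ P, v ∈ Q → v = m) →
      p + q = c → Pth G σ P x m p → Pth G σ Q m y q → m ∈ W → P.ncard ≤ n →
      ∃ m P Q p q, (∀ v, v ∈ X ↔ v ∈ P ∨ v ∈ Q) ∧ (∀ v ∈ P, v ∈ Q → v = m) ∧
      p + q = c ∧ Pth G σ P x m p ∧ Pth G σ Q m y q ∧ m ∈ W ∧ (∀ v ∈ P, v ∈ W → v = m) := by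
    intro n
    induction n with
    | zero =>
      intro m P Q p q _ _ _ hP _ _ hn
      have := (Set.ncard_eq_zero hP.finite).1 (Nat.le_zero.1 hn)
      exact absurd hP.left (by rw [this]; simp)
    | succ n ih =>
      intro m P Q p q h1 h2 h3 hP hQ hmW hn
      by_cases hall : ∀ v ∈ P, v ∈ W → v = m
      · exact ⟨m, P, Q, p, q, h1, h2, h3, hP, hQ, hmW, hall⟩
      · push Not at hall
        obtain ⟨v, hv, hvW, hne⟩ := hall
        obtain ⟨A, B, a, b, k1, k2, k3, k4, k5⟩ := hP.split hv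
        refine ih v A (B ∪ Q) a (b + q) ?_ ?_ ?_ k4 (k5.append hQ ?_) hvW ?_
        · intro z; rw [h1, k1]; simp only [Set.mem_union]; tauto
        · rintro z hz (hz' | hz')
          · exact k2 z hz hz'
          · have e := h2 z ((k1 z).2 (Or.inl hz)) hz'
            subst e
            exact k2 z hz k5.right
        · rw [← add_assoc, k3, h3]
        · intro z hz hz'
          exact h2 z ((k1 z).2 (Or.inr hz)) hz'
        · have hlt : A.ncard < P.ncard := by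
            apply Set.ncard_lt_ncard _ hP.finite
            refine ⟨fun z hz => (k1 z).2 (Or.inl hz), fun hcon => ?_⟩
            exact hne (k2 m (hcon hP.right) k5.right).symm
          omega
  obtain ⟨v, hv, hvW⟩ := hm
  obtain ⟨A, B, a, b, k1, k2, k3, k4, k5⟩ := h.split hv
  exact key A.ncard v A B a b k1 k2 k3 k4 k5 hvW le_rfl

theorem lk2_of {B : Set V} {z z' : V} {b : ZMod 2} (h : Pth G σ B t1 t2 b)
    (hz : z ∈ B) (hz' : z' ∈ B) (hne : z ≠ z') : ∃ β, Lk2 G σ B z z' t1 t2 β := by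
  rcases h.order hz hz' with ⟨A, C, D, a, c, d, k1, k2, k3, k4, k5, k6, k7, k8⟩ |
    ⟨A, C, D, a, c, d, k1, k2, k3, k4, k5, k6, k7, k8⟩
  · exact ⟨a + d, A, D, a, d, fun v hv => (k5 v).2 (Or.inl hv),
      fun v hv => (k5 v).2 (Or.inr (Or.inr hv)),
      fun v hv hv' => hne ((k8 v hv hv').1.symm.trans (k8 v hv hv').2), rfl,
      Or.inl ⟨k1.symm, k3⟩⟩
  · exact ⟨d + a, D, A, d, a, fun v hv => (k5 v).2 (Or.inr (Or.inr hv)),
      fun v hv => (k5 v).2 (Or.inl hv),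
      fun v hv hv' => hne ((k8 v hv' hv).1.symm.trans (k8 v hv' hv).2), rfl,
      Or.inr ⟨k3, k1.symm⟩⟩

/-- two ways to reach a vertex `x` of the path `K` -/
theorem reach {K A C : Set V} {n u z x : V} {a c : ZMod 2}
    (hA : Pth G σ A n z a) (hC : Pth G σ C z u c) (hAC : ∀ v ∈ A, v ∈ C → v = z)
    (hK : ∀ v, v ∈ K ↔ v ∈ A ∨ v ∈ C) (hx : x ∈ K) (hxu : x ≠ u) (hzu : z ≠ u) :
    ∃ F F' f f', Pth G σ F n x f ∧ Pth G σ F' z x f' ∧ (∀ v ∈ F, v ∈ K) ∧ (∀ v ∈ F', v ∈ K) ∧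
      u ∉ F ∧ u ∉ F' ∧ f + f' = a ∧ (x ∈ A → ∀ v ∈ F', v ∈ A) := by
  have huA : u ∉ A := fun h => hzu (hAC u h hC.right).symm
  rcases (hK x).1 hx with hx' | hx'
  · obtain ⟨P, Q, p, q, k1, k2, k3, k4, k5⟩ := hA.split hx'
    refine ⟨P, Q, p, q, k4, k5.symm, fun v hv => (hK v).2 (Or.inl ((k1 v).2 (Or.inl hv))),
      fun v hv => (hK v).2 (Or.inl ((k1 v).2 (Or.inr hv))),
      fun h => huA ((k1 u).2 (Or.inl h)), fun h => huA ((k1 u).2 (Or.inr h)), k3,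
      fun _ v hv => (k1 v).2 (Or.inr hv)⟩
  · by_cases hxz : x = z
    · subst hxz
      refine ⟨A, {x}, a, 0, hA, Pth.refl x, fun v hv => (hK v).2 (Or.inl hv), ?_, huA, ?_, by simp,
        ?_⟩
      · intro v hv; rw [Set.mem_singleton_iff] at hv; subst hv; exact hx
      · intro h; exact hxu (Set.mem_singleton_iff.1 h).symm
      · intro h v hv; rw [Set.mem_singleton_iff] at hv; subst hv; exact h
    · obtain ⟨P, Q, p, q, k1, k2, k3, k4, k5⟩ := hC.split hx'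
      have huP : u ∉ P := fun h => hxu (k2 u h k5.right).symm
      refine ⟨A ∪ P, P, a + p, p, hA.append k4 ?_, k4, ?_, ?_, ?_, huP, ?_, ?_⟩
      · intro v hv hv'; exact hAC v hv ((k1 v).2 (Or.inl hv'))
      · rintro v (hv | hv)
        · exact (hK v).2 (Or.inl hv)
        · exact (hK v).2 (Or.inr ((k1 v).2 (Or.inl hv)))
      · intro v hv; exact (hK v).2 (Or.inr ((k1 v).2 (Or.inl hv)))
      · rintro (h | h)
        · exact huA h
        · exact huP h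
      · rw [add_assoc, zz, add_zero]
      · intro h; exact absurd (hAC x h hx') hxz

/-- a path from `x` to `B`, away from `A` and `u` -/
def Exit (G : SimpleGraph V) (σ : Sym2 V → ZMod 2) (A B : Set V) (u x : V) : Prop :=
  x ≠ u ∧ ∃ y R r, y ∈ B ∧ Pth G σ R x y r ∧ (∀ v ∈ R, v ∈ A → v = x) ∧ (∀ v ∈ R, v ∈ B → v = y)

theorem Cst.exits_aux (hC : Cst G σ s1 s2 t1 t2 κ) {J K B : Set V} {u : V} {j k b : ZMod 2}
    (hJ : Pth G σ J s1 u j) (hK : Pth G σ K s2 u k) (hJK : ∀ v ∈ J, v ∈ K → v = u)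
    (hB : Pth G σ B t1 t2 b) (hu : u ∈ B) (hAB : ∀ v ∈ J ∪ K, v ∈ B → v = u)
    {x1 x3 y1 y3 : V} {X1 X3 : Set V} {r1 r3 : ZMod 2}
    (hR1 : Pth G σ X1 x1 y1 r1) (hR3 : Pth G σ X3 x3 y3 r3)
    (hx1 : x1 ∈ K) (hx3 : x3 ∈ K) (hy1 : y1 ∈ B) (hy3 : y3 ∈ B)
    (hu1 : x1 ≠ u) (hu3 : x3 ≠ u)
    (h13 : ∀ v ∈ X1, v ∉ X3)
    (hA1 : ∀ v ∈ X1, v ∈ J ∪ K → v = x1) (hA3 : ∀ v ∈ X3, v ∈ J ∪ K → v = x3)
    (hB1 : ∀ v ∈ X1, v ∈ B → v = y1) (hB3 : ∀ v ∈ X3, v ∈ B → v = y3)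
    {x' : V} (hx' : x' ∈ J) (hE : Exit G σ (J ∪ K) B u x') : j + k + b = κ := by
  obtain ⟨hx'u, y', R, r, hy', hR, hRA, hRB⟩ := hE
  have huR : u ∉ R := fun h => hx'u (hRA u h (Or.inl hJ.right)).symm
  obtain ⟨m, P, Q, p, q, k1, k2, k3, k4, k5, k6, k7⟩ :=
    hR.first (W := X1 ∪ X3 ∪ B) ⟨y', hR.right, Or.inr hy'⟩
  have sP : ∀ v ∈ P, v ∈ R := fun v hv => (k1 v).2 (Or.inl hv)
  have hmR : m ∈ R := sP m k4.right
  have gen : ∀ (x1 x3 y1 y3 : V) (X1 X3 : Set V) (r1 r3 : ZMod 2), Pth G σ X1 x1 y1 r1 →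
      Pth G σ X3 x3 y3 r3 → x1 ∈ K → x3 ∈ K → y1 ∈ B → y3 ∈ B → x1 ≠ u → x3 ≠ u →
      (∀ v ∈ X1, v ∉ X3) → (∀ v ∈ X1, v ∈ J ∪ K → v = x1) → (∀ v ∈ X3, v ∈ J ∪ K → v = x3) →
      (∀ v ∈ X1, v ∈ B → v = y1) → (∀ v ∈ X3, v ∈ B → v = y3) → m ∈ X1 →
      (∀ v ∈ P, v ∈ X1 ∪ X3 ∪ B → v = m) → j + k + b = κ := by
    intro x1 x3 y1 y3 X1 X3 r1 r3 hR1 hR3 hx1 hx3 hy1 hy3 hu1 hu3 h13 hA1 hA3 hB1 hB3 hm k7
    obtain ⟨P1, Q1, p1, q1, m1, m2, m3, m4, m5⟩ := hR1.split hm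
    have hx1Q : x1 ∉ Q1 := by
      intro h
      have e := m2 x1 m4.left h
      have hmx : m = x' := hRA m hmR (Or.inr (e ▸ hx1))
      exact hx'u (hJK x' hx' (hmx ▸ e ▸ hx1))
    refine hC.three_u hJ hK hJK hB hu hAB (k4.append m5 ?_) hR3 hx' hx3 hy1 hy3 hx'u hu3 ?_ ?_ hA3
      ?_ hB3
    · intro v hv hv'
      exact k7 v hv (Or.inl (Or.inl ((m1 v).2 (Or.inr hv'))))
    · rintro v (hv | hv) hv'
      · have e := k7 v hv (Or.inl (Or.inr hv'))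
        subst e
        exact h13 v hm hv'
      · exact h13 v ((m1 v).2 (Or.inr hv)) hv'
    · rintro v (hv | hv) hv'
      · exact hRA v (sP v hv) hv'
      · have e := hA1 v ((m1 v).2 (Or.inr hv)) hv'
        subst e
        exact absurd hv hx1Q
    · rintro v (hv | hv) hv'
      · have e := k7 v hv (Or.inr hv')
        subst e
        exact hB1 v hm hv'
      · exact hB1 v ((m1 v).2 (Or.inr hv)) hv'
  by_cases hm1 : m ∈ X1
  · exact gen x1 x3 y1 y3 X1 X3 r1 r3 hR1 hR3 hx1 hx3 hy1 hy3 hu1 hu3 h13 hA1 hA3 hB1 hB3 hm1 k7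
  by_cases hm3 : m ∈ X3
  · exact gen x3 x1 y3 y1 X3 X1 r3 r1 hR3 hR1 hx3 hx1 hy3 hy1 hu3 hu1
      (fun v hv hv' => h13 v hv' hv) hA3 hA1 hB3 hB1 hm3 (fun v hv hv' => k7 v hv (by
        rcases hv' with (hv' | hv') | hv'
        · exact Or.inl (Or.inr hv')
        · exact Or.inl (Or.inl hv')
        · exact Or.inr hv'))
  have hmB : m ∈ B := by
    rcases k6 with (h | h) | h
    · exact absurd h hm1
    · exact absurd h hm3
    · exact h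
  exact hC.three_u hJ hK hJK hB hu hAB k4 hR3 hx' hx3 hmB hy3 hx'u hu3
    (fun v hv hv' => by
      have e := k7 v hv (Or.inl (Or.inr hv'))
      subst e
      exact hm3 hv')
    (fun v hv hv' => hRA v (sP v hv) hv') hA3 (fun v hv hv' => k7 v hv (Or.inr hv')) hB3

/-- both parts of the first circle have connections to the second one -/
theorem Cst.exits [Fintype V] (hC : Cst G σ s1 s2 t1 t2 κ) {J K B : Set V} {u : V}
    {j k b : ZMod 2} (hJ : Pth G σ J s1 u j) (hK : Pth G σ K s2 u k)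
    (hJK : ∀ v ∈ J, v ∈ K → v = u)
    (hB : Pth G σ B t1 t2 b) (hu : u ∈ B) (hAB : ∀ v ∈ J ∪ K, v ∈ B → v = u)
    {x x' : V} (hx : x ∈ J) (hE : Exit G σ (J ∪ K) B u x) (hx' : x' ∈ K)
    (hE' : Exit G σ (J ∪ K) B u x') : j + k + b = κ := by
  classical
  rcases menger_pth G σ {u} ((J ∪ K) \ {u}) (B \ {u}) (fun v hv => hv.2) 2 with
    ⟨X, x, y, c, h1, h2⟩ | ⟨Z, h1, h2⟩
  · obtain ⟨a1, a2, a3, a4, a5, a6⟩ := h1 0
    obtain ⟨b1, b2, b3, b4, b5, b6⟩ := h1 1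
    have h01 := h2 0 1 (by decide)
    have a4' : ∀ v ∈ X 0, v ∈ J ∪ K → v = x 0 := fun v hv hv' => a4 v hv ⟨hv', a6 v hv⟩
    have b4' : ∀ v ∈ X 1, v ∈ J ∪ K → v = x 1 := fun v hv hv' => b4 v hv ⟨hv', b6 v hv⟩
    have a5' : ∀ v ∈ X 0, v ∈ B → v = y 0 := fun v hv hv' => a5 v hv ⟨hv', a6 v hv⟩
    have b5' : ∀ v ∈ X 1, v ∈ B → v = y 1 := fun v hv hv' => b5 v hv ⟨hv', b6 v hv⟩
    rcases a2.1 with ha | ha <;> rcases b2.1 with hb | hb
    · have := hC.swapS.exits_aux hK hJ (fun v hv hv' => hJK v hv' hv) hB hu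
        (by rw [Set.union_comm]; exact hAB) a1 b1 ha hb a3.1 b3.1 a2.2 b2.2 h01
        (by rw [Set.union_comm]; exact a4') (by rw [Set.union_comm]; exact b4') a5' b5' hx'
        (by rw [Set.union_comm]; exact hE')
      rw [← this]; ring
    · exact hC.three_u hJ hK hJK hB hu hAB a1 b1 ha hb a3.1 b3.1 a2.2 b2.2 h01 a4' b4' a5' b5'
    · exact hC.three_u hJ hK hJK hB hu hAB b1 a1 hb ha b3.1 a3.1 b2.2 a2.2
        (fun v hv hv' => h01 v hv' hv) b4' a4' b5' a5'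
    · exact hC.exits_aux hJ hK hJK hB hu hAB a1 b1 ha hb a3.1 b3.1 a2.2 b2.2 h01 a4' b4' a5' b5'
        hx hE
  · exfalso
    obtain ⟨p, q, X, c, hp, hq, hX, hd⟩ := hC.nosep
      (hJ.append hK.symm hJK) hB (insert u Z)
      ((Finset.card_insert_le _ _).trans (by omega))
    simp only [Finset.mem_insert, not_or] at hd
    obtain ⟨v, hv, hvZ⟩ := h2 p q X c ⟨hp, (hd p hX.left).1⟩ ⟨hq, (hd q hX.right).1⟩ hX
      (fun v hv => (hd v hv).1)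
    exact (hd v hv).2 hvZ

end Pool.Agent.D0H8.NC
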