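import Pool.Agent.D0H8.NC.Touch

/-! # Two circles that touch in one vertex: the induction -/

set_option autoImplicit false

namespace Pool.Agent.D0H8.NC

open SimpleGraph Pool.Agent.Results.MP_790549_co.CommonNegativeCircles

variable {V : Type} {G : SimpleGraph V} {σ : Sym2 V → ZMod 2} {s1 s2 t1 t2 : V} {κ : ZMod 2}

theorem Cst.touch_aux [Fintype V] (hC : Cst G σ s1 s2 t1 t2 κ) {J B : Set V} {u : V}
    {j b : ZMod 2} (hJ : Pth G σ J s1 u j) (hB : Pth G σ B t1 t2 b) (hu : u ∈ B)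
    (hu1 : u ≠ s1) (hJB : ∀ v ∈ J, v ∈ B → v = u) :
    ∀ N : ℕ, ∀ (K1 K2 : Set V) (n : V) (k1 k2 : ZMod 2), K2.ncard ≤ N →
    Pth G σ K1 s2 n k1 → Pth G σ K2 n u k2 → (∀ v ∈ K1, v ∈ K2 → v = n) → n ≠ u →
    (∀ v ∈ J, v ∈ K1 ∪ K2 → v = u) → (∀ v ∈ K1 ∪ K2, v ∈ B → v = u) →
    (n = s2 ∨ ∃ p Y y, p ∈ J ∧ p ≠ u ∧ Pth G σ Y p n y ∧ (∀ v ∈ Y, v ∈ J → v = p) ∧
      (∀ v ∈ Y, v ∈ K1 ∪ K2 → v = n) ∧ (∀ v ∈ Y, v ∉ B)) →
    (∃ x ∈ K1 ∪ K2, Exit G σ (J ∪ (K1 ∪ K2)) B u x) →
    j + (k1 + k2) + b = κ := by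
  classical
  intro N
  induction N with
  | zero =>
    intro K1 K2 n k1 k2 hn _ hK2
    have := (Set.ncard_eq_zero hK2.finite).1 (Nat.le_zero.1 hn)
    exact absurd hK2.left (by rw [this]; simp)
  | succ N ih =>
    intro K1 K2 n k1 k2 hn hK1 hK2 hK12 hnu hJK hKB hY hEK
    have hK : Pth G σ (K1 ∪ K2) s2 u (k1 + k2) := hK1.append hK2 hK12
    have huK1 : u ∉ K1 := fun h => hnu (hK12 u h hK2.right).symm
    have huJ : u ∈ J := hJ.right
    have huK2 : u ∈ K2 := hK2.right
    have hnK1 : n ∈ K1 := hK1.right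
    have hnK2 : n ∈ K2 := hK2.left
    have hAB : ∀ v ∈ J ∪ (K1 ∪ K2), v ∈ B → v = u := by
      rintro v (hv | hv) hv'
      · exact hJB v hv hv'
      · exact hKB v hv hv'
    have hnJ : n ∉ J := fun h => hnu (hJK n h (Or.inl hnK1))
    have hnB : n ∉ B := fun h => hnu (hKB n (Or.inl hnK1) h)
    -- (i) an exit from `J`
    by_cases hEJ : ∃ x ∈ J, Exit G σ (J ∪ (K1 ∪ K2)) B u x
    · obtain ⟨x, hx, hE⟩ := hEJ
      obtain ⟨x', hx', hE'⟩ := hEK
      exact hC.exits hJ hK hJK hB hu hAB hx hE hx' hE'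
    -- the connection `Y` exists as soon as `n ≠ s2`
    have hY' : (∃ x ∈ K1, x ≠ n) → ∃ p Y y, p ∈ J ∧ p ≠ u ∧ Pth G σ Y p n y ∧
        (∀ v ∈ Y, v ∈ J → v = p) ∧ (∀ v ∈ Y, v ∈ K1 ∪ K2 → v = n) ∧ (∀ v ∈ Y, v ∉ B) := by
      rintro ⟨x, hx, hxn⟩
      rcases hY with hY | hY
      · subst hY
        have := (hK1.eq_of_eq).1
        rw [this, Set.mem_singleton_iff] at hx
        exact absurd hx hxn
      · exact hY
    -- (ii) an exit from `K1` before `n`
    by_cases hE1 : ∃ x ∈ K1, x ≠ n ∧ Exit G σ (J ∪ (K1 ∪ K2)) B u x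
    · obtain ⟨x, hx, hxn, hxu, y, R, r, hy, hR, hRA, hRB⟩ := hE1
      obtain ⟨p, Y, y', hpJ, hpu, hYp, hYJ, hYK, hYB⟩ := hY' ⟨x, hx, hxn⟩
      have hyu : y ≠ u := by
        intro e
        have : y = x := hRA y hR.right (Or.inl (e ▸ huJ))
        exact hxu (this.symm.trans e)
      -- `R` and `Y` are disjoint
      have hRY : ∀ v ∈ Y, v ∉ R := by
        intro v0 hv0 hv0'
        obtain ⟨m, P, Q, p', q', a1, a2, a3, a4, a5, a6, a7⟩ := hYp.first (W := R) ⟨v0, hv0, hv0'⟩
        obtain ⟨P', Q', p'', q'', b1, b2, b3, b4, b5⟩ := hR.split a6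
        apply hEJ
        have hmn : m ≠ n := by
          rintro rfl
          exact hxn (hRA _ a6 (Or.inr (Or.inl hnK1))).symm
        have hnP : n ∉ P := fun h => hmn (a2 n h a5.right).symm
        have hmx : m ≠ x := by
          rintro rfl
          exact hxn (hYK _ ((a1 _).2 (Or.inl a4.right)) (Or.inl hx))
        have hxQ : x ∉ Q' := fun h => hmx (b2 x b4.left h).symm
        refine ⟨p, hpJ, hpu, y, P ∪ Q', p' + q'', hy, a4.append b5 ?_, ?_, ?_⟩
        · intro v hv hv'; exact a7 v hv ((b1 v).2 (Or.inr hv'))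
        · rintro v (hv | hv) (hv' | hv')
          · exact hYJ v ((a1 v).2 (Or.inl hv)) hv'
          · have e := hYK v ((a1 v).2 (Or.inl hv)) hv'
            subst e; exact absurd hv hnP
          · have e := hRA v ((b1 v).2 (Or.inr hv)) (Or.inl hv')
            subst e; exact absurd hv hxQ
          · have e := hRA v ((b1 v).2 (Or.inr hv)) (Or.inr hv')
            subst e; exact absurd hv hxQ
        · rintro v (hv | hv) hv'
          · exact absurd hv' (hYB v ((a1 v).2 (Or.inl hv)))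
          · exact hRB v ((b1 v).2 (Or.inr hv)) hv'
      obtain ⟨Ja, Jb, ja, jb, c1, c2, c3, c4, c5⟩ := hJ.split hpJ
      obtain ⟨Ka, Kb, ka, kb, d1, d2, d3, d4, d5⟩ := hK1.split hx
      have huJa : u ∉ Ja := fun h => hpu (c2 u h c5.right).symm
      have hnKa : n ∉ Ka := fun h => hxn (d2 n h d5.right).symm
      have sJa : ∀ v ∈ Ja, v ∈ J := fun v hv => (c1 v).2 (Or.inl hv)
      have sKa : ∀ v ∈ Ka, v ∈ K1 := fun v hv => (d1 v).2 (Or.inl hv)
      have hJaY : ∀ v ∈ Ja, v ∈ Y → v = p := fun v hv hv' => hYJ v hv' (sJa v hv)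
      have hJaK : ∀ v ∈ Ja, v ∉ K1 ∪ K2 := fun v hv hv' => huJa (hJK v (sJa v hv) hv' ▸ hv)
      -- the two linkages
      obtain ⟨β, hβ⟩ := lk2_of hB hy hu hyu
      have hL1 : Lk2 G σ (J ∪ (K1 ∪ K2) ∪ Y) x u s1 s2 (ka + j) :=
        ⟨Ka, J, ka, j, fun v hv => Or.inl (Or.inr (Or.inl (sKa v hv))),
          fun v hv => Or.inl (Or.inl hv),
          fun v hv hv' => huK1 (hJK v hv' (Or.inl (sKa v hv)) ▸ sKa v hv), rfl,
          Or.inr ⟨d4.symm, hJ.symm⟩⟩
      have hpath : Pth G σ (Ja ∪ Y ∪ K2) s1 u (ja + y' + k2) := by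
        refine (c4.append hYp hJaY).append hK2 ?_
        rintro v (hv | hv) hv'
        · exact absurd (Or.inr hv') (hJaK v hv)
        · exact hYK v hv (Or.inr hv')
      have hL2 : Lk2 G σ (J ∪ (K1 ∪ K2) ∪ Y) x u s1 s2 (ka + (ja + y' + k2)) := by
        refine ⟨Ka, Ja ∪ Y ∪ K2, ka, _, fun v hv => Or.inl (Or.inr (Or.inl (sKa v hv))), ?_, ?_,
          rfl, Or.inr ⟨d4.symm, hpath.symm⟩⟩
        · rintro v ((hv | hv) | hv)
          · exact Or.inl (Or.inl (sJa v hv))
          · exact Or.inr hv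
          · exact Or.inl (Or.inr (Or.inr hv))
        · rintro v hv ((hv' | hv') | hv')
          · exact hJaK v hv' (Or.inl (sKa v hv))
          · exact hnKa (hYK v hv' (Or.inl (sKa v hv)) ▸ hv)
          · exact hnKa (hK12 v (sKa v hv) hv' ▸ hv)
      have huR : u ∉ R := fun h => hxu (hRA u h (Or.inl huJ)).symm
      have hRA' : ∀ v ∈ R, v ∈ J ∪ (K1 ∪ K2) ∪ Y → v = x := by
        rintro v hv (hv' | hv')
        · exact hRA v hv hv'
        · exact absurd hv (hRY v hv')
      have hAB' : ∀ v ∈ J ∪ (K1 ∪ K2) ∪ Y, v ∈ B → v = u ∧ v = u := by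
        rintro v (hv | hv) hv'
        · exact ⟨hAB v hv hv', hAB v hv hv'⟩
        · exact absurd hv' (hYB v hv)
      have e1 := hC.pair hL1 hβ hR (Pth.refl u) (fun v hv e => huR (e ▸ hv)) hRA' hRB
        (fun v hv _ => hv) (fun v hv _ => hv) hAB'
      have e2 := hC.pair hL2 hβ hR (Pth.refl u) (fun v hv e => huR (e ▸ hv)) hRA' hRB
        (fun v hv _ => hv) (fun v hv _ => hv) hAB'
      -- the disjoint circle
      have hA' : Pth G σ (Ja ∪ Y ∪ K1) s1 s2 (ja + y' + k1) := by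
        refine (c4.append hYp hJaY).append hK1.symm ?_
        rintro v (hv | hv) hv'
        · exact absurd (Or.inl hv') (hJaK v hv)
        · exact hYK v hv (Or.inl hv')
      have e3 := hC.disj hA' hB (by
        rintro v ((hv | hv) | hv) hv'
        · exact huJa (hJB v (sJa v hv) hv' ▸ hv)
        · exact hYB v hv hv'
        · exact huK1 (hKB v (Or.inl hv) hv' ▸ hv))
      linear_combination (norm := (ring_nf; try reduce_mod_char)) e1 + e2 + e3
    -- (iii) use that `{u, n}` does not separate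
    obtain ⟨a0, b0, X0, c0, ha0, hb0, hX0, hd0⟩ := hC.sep {u, n} (Finset.card_le_two) (by
      rintro ⟨h, -⟩
      simp only [Finset.mem_insert, Finset.mem_singleton] at h
      rcases h with h | h
      · exact hu1 h.symm
      · exact hnJ (h ▸ hJ.left)) (by
      rintro ⟨h, h'⟩
      simp only [Finset.mem_insert, Finset.mem_singleton] at h h'
      rcases h with h | h
      · rcases h' with h' | h'
        · exact hC.t12 (h.trans h'.symm)
        · exact hnB (h' ▸ hB.right)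
      · exact hnB (h ▸ hB.left))
    simp only [Finset.mem_insert, Finset.mem_singleton, not_or] at hd0
    have ha0' : a0 ∈ J ∪ K1 := by
      rcases ha0 with rfl | rfl
      · exact Or.inl hJ.left
      · exact Or.inr hK1.left
    have hb0' : b0 ∈ B := by
      rcases hb0 with rfl | rfl
      · exact hB.left
      · exact hB.right
    obtain ⟨Z, z1, z2, z, f1, f2, f3, f4, f5, f6⟩ := hX0.proper (A := J ∪ K1) (B := K2 ∪ B)
      ha0' (Or.inr hb0')
    have hZu : u ∉ Z := fun h => (hd0 u (f1 h)).1 rfl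
    have hZn : n ∉ Z := fun h => (hd0 n (f1 h)).2 rfl
    have hz1u : z1 ≠ u := fun e => hZu (e ▸ f4.left)
    have hz1n : z1 ≠ n := fun e => hZn (e ▸ f4.left)
    have hz2u : z2 ≠ u := fun e => hZu (e ▸ f4.right)
    have hz2n : z2 ≠ n := fun e => hZn (e ▸ f4.right)
    by_cases hz2B : z2 ∈ B
    · -- an exit, contradiction
      exfalso
      have hz2K : z2 ∉ K2 := fun h => hz2u (hKB z2 (Or.inr h) hz2B)
      have hE : Exit G σ (J ∪ (K1 ∪ K2)) B u z1 := by
        refine ⟨hz1u, z2, Z, z, hz2B, f4, ?_, fun v hv hv' => f6 v hv (Or.inr hv')⟩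
        rintro v hv (hv' | hv' | hv')
        · exact f5 v hv (Or.inl hv')
        · exact f5 v hv (Or.inr hv')
        · exact absurd (f6 v hv (Or.inl hv') ▸ hv') hz2K
      rcases f2 with h | h
      · exact hEJ ⟨z1, h, hE⟩
      · exact hE1 ⟨z1, h, hz1n, hE⟩
    have hz2K : z2 ∈ K2 := f3.resolve_right hz2B
    have hZB : ∀ v ∈ Z, v ∉ B := fun v hv hv' => hz2B (f6 v hv (Or.inr hv') ▸ hv')
    obtain ⟨Ka, Kb, ka, kb, d1, d2, d3, d4, d5⟩ := hK2.split hz2K
    have hnKb : n ∉ Kb := fun h => hz2n (d2 n d4.left h).symm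
    have huKa : u ∉ Ka := fun h => hz2u (d2 u h d5.right).symm
    have sKa : ∀ v ∈ Ka, v ∈ K2 := fun v hv => (d1 v).2 (Or.inl hv)
    have sKb : ∀ v ∈ Kb, v ∈ K2 := fun v hv => (d1 v).2 (Or.inr hv)
    have hcard : Kb.ncard ≤ N := by
      have hlt : Kb.ncard < K2.ncard := by
        apply Set.ncard_lt_ncard _ hK2.finite
        exact ⟨fun v hv => sKb v hv, fun hcon => hnKb (hcon hnK2)⟩
      omega
    have hK1b : ∀ v ∈ K1, v ∉ Kb := fun v hv hv' => hnKb (hK12 v hv (sKb v hv') ▸ hv')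
    -- (b1): a better connection from `J`
    have b1 : ∀ p ∈ J, p ≠ u → ∀ Y y, Pth G σ Y p z2 y → (∀ v ∈ Y, v ∈ J → v = p) →
        (∀ v ∈ Y, v ∈ K1 ∪ K2 → v = z2) → (∀ v ∈ Y, v ∉ B) → j + (k1 + k2) + b = κ := by
      intro p hp hpu Y y hYp hYJ hYK hYB
      have hsub : ∀ v, v ∈ (K1 ∪ Ka) ∪ Kb ↔ v ∈ K1 ∪ K2 := by
        intro v; simp only [Set.mem_union, d1]; tauto
      have := ih (K1 ∪ Ka) Kb z2 (k1 + ka) kb hcard
        (hK1.append d4 fun v hv hv' => hK12 v hv (sKa v hv')) d5 (by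
          rintro v (hv | hv) hv'
          · exact absurd hv' (hK1b v hv)
          · exact d2 v hv hv') hz2u
        (fun v hv hv' => hJK v hv ((hsub v).1 hv')) (fun v hv hv' => hKB v ((hsub v).1 hv) hv')
        (Or.inr ⟨p, Y, y, hp, hpu, hYp, hYJ, fun v hv hv' => hYK v hv ((hsub v).1 hv'), hYB⟩) (by
          obtain ⟨x, hx, hxu, y, R, r, g1, g2, g3, g4⟩ := hEK
          refine ⟨x, (hsub x).2 hx, hxu, y, R, r, g1, g2, ?_, g4⟩
          rintro v hv (hv' | hv')
          · exact g3 v hv (Or.inl hv')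
          · exact g3 v hv (Or.inr ((hsub v).1 hv')))
      rw [← this, ← d3]; ring
    rcases f2 with hz1 | hz1
    · refine b1 z1 hz1 hz1u Z z f4 (fun v hv hv' => f5 v hv (Or.inl hv')) ?_ hZB
      rintro v hv (hv' | hv')
      · have e := f5 v hv (Or.inr hv')
        subst e
        exact absurd (hJK _ hz1 (Or.inl hv')) hz1u
      · exact f6 v hv (Or.inl hv')
    -- (b2): a chord of `K`
    obtain ⟨p, Y, y, hpJ, hpu, hYp, hYJ, hYK, hYB⟩ := hY' ⟨z1, hz1, hz1n⟩
    have hz1J : z1 ∉ J := fun h => hz1u (hJK z1 h (Or.inl hz1))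
    have hZJ : ∀ v ∈ Z, v ∉ J := fun v hv hv' => hz1J (f5 v hv (Or.inl hv') ▸ hv')
    have hZK1 : ∀ v ∈ Z, v ∈ K1 → v = z1 := fun v hv hv' => f5 v hv (Or.inr hv')
    have hZK2 : ∀ v ∈ Z, v ∈ K2 → v = z2 := fun v hv hv' => f6 v hv (Or.inl hv')
    by_cases hYZ : ∃ v ∈ Y, v ∈ Z
    · obtain ⟨m, P, Q, p', q', a1, a2, a3, a4, a5, a6, a7⟩ := hYp.first (W := Z) hYZ
      obtain ⟨P', Q', p'', q'', b1', b2', b3', b4', b5'⟩ := f4.split a6
      have hmn : m ≠ n := fun e => hZn (e ▸ a6)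
      have hnP : n ∉ P := fun h => hmn (a2 n h a5.right).symm
      have hmz : m ≠ z1 := by
        rintro rfl
        exact hmn (hYK _ ((a1 _).2 (Or.inl a4.right)) (Or.inl hz1))
      have hz1Q : z1 ∉ Q' := fun h => hmz (b2' z1 b4'.left h).symm
      refine b1 p hpJ hpu (P ∪ Q') (p' + q'') (a4.append b5' ?_) ?_ ?_ ?_
      · intro v hv hv'; exact a7 v hv ((b1' v).2 (Or.inr hv'))
      · rintro v (hv | hv) hv'
        · exact hYJ v ((a1 v).2 (Or.inl hv)) hv'
        · exact absurd hv' (hZJ v ((b1' v).2 (Or.inr hv)))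
      · rintro v (hv | hv) hv'
        · have e := hYK v ((a1 v).2 (Or.inl hv)) hv'
          subst e; exact absurd hv hnP
        · have hvZ : v ∈ Z := (b1' v).2 (Or.inr hv)
          rcases hv' with hv' | hv'
          · have e := hZK1 v hvZ hv'
            subst e; exact absurd hv hz1Q
          · exact hZK2 v hvZ hv'
      · rintro v (hv | hv) hv'
        · exact hYB v ((a1 v).2 (Or.inl hv)) hv'
        · exact hZB v ((b1' v).2 (Or.inr hv)) hv'
    push Not at hYZ
    obtain ⟨Kc, Kd, kc, kd, e1, e2, e3, e4, e5⟩ := hK1.split hz1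
    have hnKc : n ∉ Kc := fun h => hz1n (e2 n h e5.right).symm
    have sKc : ∀ v ∈ Kc, v ∈ K1 := fun v hv => (e1 v).2 (Or.inl hv)
    have hKcK2 : ∀ v ∈ Kc, v ∉ K2 := fun v hv hv' => hnKc (hK12 v (sKc v hv) hv' ▸ hv)
    -- the exit of `K`
    obtain ⟨x, hx, hxE⟩ := hEK
    have hxK2 : x ∈ K2 := by
      rcases hx with hx | hx
      · by_cases hxn : x = n
        · exact hxn ▸ hnK2
        · exact absurd ⟨x, hx, hxn, hxE⟩ hE1
      · exact hx
    obtain ⟨hxu, yR, R, r, hyR, hR, hRA, hRB⟩ := hxE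
    have huR : u ∉ R := fun h => hxu (hRA u h (Or.inl huJ)).symm
    have hyRu : yR ≠ u := fun e => huR (e ▸ hR.right)
    have hRZ : ∀ v ∈ Z, v ∈ R → v = z2 ∧ x = z2 := by
      intro v hv hv'
      obtain ⟨m, P, Q, p', q', a1, a2, a3, a4, a5, a6, a7⟩ := f4.first (W := R) ⟨v, hv, hv'⟩
      obtain ⟨P', Q', p'', q'', b1', b2', b3', b4', b5'⟩ := hR.split a6
      have hmZ : m ∈ Z := (a1 m).2 (Or.inl a4.right)
      by_cases hmz : m = z2
      · subst hmz
        have hxm : m = x := hRA m a6 (Or.inr (Or.inr hz2K))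
        have hvx : v = m := by
          rcases (a1 v).1 hv with h | h
          · exact a7 v h hv'
          · rw [(a5.eq_of_eq).1] at h
            exact h
        exact ⟨hvx, hxm.symm⟩
      · exfalso
        have hz2P : z2 ∉ P := fun h => hmz (a2 z2 h a5.right).symm
        have hmx : m ≠ x := by
          rintro rfl
          exact hmz (hZK2 _ hmZ hxK2)
        have hxQ : x ∉ Q' := fun h => hmx (b2' x b4'.left h).symm
        apply hE1
        refine ⟨z1, hz1, hz1n, hz1u, yR, P ∪ Q', p' + q'', hyR, a4.append b5' ?_, ?_, ?_⟩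
        · intro w hw hw'; exact a7 w hw ((b1' w).2 (Or.inr hw'))
        · rintro w (hw | hw) hw'
          · have hwZ : w ∈ Z := (a1 w).2 (Or.inl hw)
            rcases hw' with hw' | hw' | hw'
            · exact absurd hw' (hZJ w hwZ)
            · exact hZK1 w hwZ hw'
            · have e := hZK2 w hwZ hw'
              subst e; exact absurd hw hz2P
          · have e := hRA w ((b1' w).2 (Or.inr hw)) hw'
            subst e; exact absurd hw hxQ
        · rintro w (hw | hw) hw'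
          · exact absurd hw' (hZB w ((a1 w).2 (Or.inl hw)))
          · exact hRB w ((b1' w).2 (Or.inr hw)) hw'
    -- both ways to `x`
    obtain ⟨F, F', φ, φ', g1, g2, g3, g4, g5, g6, g7, g8⟩ := reach d4 d5 d2 d1 hxK2 hxu hz2u
    obtain ⟨β, hβ⟩ := lk2_of hB hyR hu hyRu
    have hpath1 : Pth G σ (K1 ∪ F) s2 x (k1 + φ) :=
      hK1.append g1 fun v hv hv' => hK12 v hv (g3 v hv')
    have hpath2a : Pth G σ (Kc ∪ Z) s2 z2 (kc + z) :=
      e4.append f4 fun v hv hv' => hZK1 v hv' (sKc v hv)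
    have hpath2 : Pth G σ (Kc ∪ Z ∪ F') s2 x (kc + z + φ') := by
      refine hpath2a.append g2 ?_
      rintro v (hv | hv) hv'
      · exact absurd (g4 v hv') (hKcK2 v hv)
      · exact hZK2 v hv (g4 v hv')
    have hL1 : Lk2 G σ (J ∪ (K1 ∪ K2) ∪ Z) x u s1 s2 (k1 + φ + j) := by
      refine ⟨K1 ∪ F, J, _, j, ?_, fun v hv => Or.inl (Or.inl hv), ?_, rfl,
        Or.inr ⟨hpath1.symm, hJ.symm⟩⟩
      · rintro v (hv | hv)
        · exact Or.inl (Or.inr (Or.inl hv))
        · exact Or.inl (Or.inr (Or.inr (g3 v hv)))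
      · rintro v (hv | hv) hv'
        · exact huK1 (hJK v hv' (Or.inl hv) ▸ hv)
        · exact g5 (hJK v hv' (Or.inr (g3 v hv)) ▸ hv)
    have hL2 : Lk2 G σ (J ∪ (K1 ∪ K2) ∪ Z) x u s1 s2 (kc + z + φ' + j) := by
      refine ⟨Kc ∪ Z ∪ F', J, _, j, ?_, fun v hv => Or.inl (Or.inl hv), ?_, rfl,
        Or.inr ⟨hpath2.symm, hJ.symm⟩⟩
      · rintro v ((hv | hv) | hv)
        · exact Or.inl (Or.inr (Or.inl (sKc v hv)))
        · exact Or.inr hv
        · exact Or.inl (Or.inr (Or.inr (g4 v hv)))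
      · rintro v ((hv | hv) | hv) hv'
        · exact huK1 (hJK v hv' (Or.inl (sKc v hv)) ▸ sKc v hv)
        · exact hZJ v hv hv'
        · exact g6 (hJK v hv' (Or.inr (g4 v hv)) ▸ hv)
    have hRA' : ∀ v ∈ R, v ∈ J ∪ (K1 ∪ K2) ∪ Z → v = x := by
      rintro v hv (hv' | hv')
      · exact hRA v hv hv'
      · exact (hRZ v hv' hv).1.trans (hRZ v hv' hv).2.symm
    have hAB' : ∀ v ∈ J ∪ (K1 ∪ K2) ∪ Z, v ∈ B → v = u ∧ v = u := by
      rintro v (hv | hv) hv'
      · exact ⟨hAB v hv hv', hAB v hv hv'⟩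
      · exact absurd hv' (hZB v hv)
    have q1 := hC.pair hL1 hβ hR (Pth.refl u) (fun v hv e => huR (e ▸ hv)) hRA' hRB
      (fun v hv _ => hv) (fun v hv _ => hv) hAB'
    have q2 := hC.pair hL2 hβ hR (Pth.refl u) (fun v hv e => huR (e ▸ hv)) hRA' hRB
      (fun v hv _ => hv) (fun v hv _ => hv) hAB'
    -- the induction hypothesis for the rerouted path
    have hKbKb : ∀ v ∈ Kc ∪ Z, v ∈ Kb → v = z2 := by
      rintro v (hv | hv) hv'
      · exact absurd (sKb v hv') (hKcK2 v hv)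
      · exact hZK2 v hv (sKb v hv')
    have hfin := ih (Kc ∪ Z) Kb z2 (kc + z) kb hcard hpath2a d5 hKbKb hz2u (by
        rintro v hv ((hv' | hv') | hv')
        · exact hJK v hv (Or.inl (sKc v hv'))
        · exact absurd hv (hZJ v hv')
        · exact hJK v hv (Or.inr (sKb v hv'))) (by
        rintro v ((hv | hv) | hv) hv'
        · exact hKB v (Or.inl (sKc v hv)) hv'
        · exact absurd hv' (hZB v hv)
        · exact hKB v (Or.inr (sKb v hv)) hv')
      (Or.inr ⟨p, Y ∪ Ka, y + ka, hpJ, hpu, hYp.append d4 fun v hv hv' =>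
          hYK v hv (Or.inr (sKa v hv')), by
        rintro v (hv | hv) hv'
        · exact hYJ v hv hv'
        · exact absurd (hJK v hv' (Or.inr (sKa v hv)) ▸ hv) huKa, by
        rintro v (hv | hv) ((hv' | hv') | hv')
        · have e := hYK v hv (Or.inl (sKc v hv'))
          subst e; exact absurd hv' hnKc
        · exact absurd hv' (hYZ v hv)
        · have e := hYK v hv (Or.inr (sKb v hv'))
          subst e; exact absurd hv' hnKb
        · exact absurd (sKa v hv) (hKcK2 v hv')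
        · exact hZK2 v hv' (sKa v hv)
        · exact d2 v hv hv', by
        rintro v (hv | hv) hv'
        · exact hYB v hv hv'
        · exact huKa (hKB v (Or.inr (sKa v hv)) hv' ▸ hv)⟩) (by
        rcases (d1 x).1 hxK2 with hx' | hx'
        · -- the exit starts in `Ka`
          have hF' : ∀ v ∈ F', v ∈ Ka := g8 hx'
          refine ⟨z2, Or.inl (Or.inr f4.right), hz2u, yR, F' ∪ R, φ' + r, hyR,
            g2.append hR ?_, ?_, ?_⟩
          · intro v hv hv'
            exact hRA v hv' (Or.inr (Or.inr (g4 v hv)))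
          · rintro v (hv | hv) (hv' | (hv' | hv') | hv')
            · exact absurd (hJK v hv' (Or.inr (g4 v hv)) ▸ hv) g6
            · exact absurd (g4 v hv) (hKcK2 v hv')
            · exact hZK2 v hv' (g4 v hv)
            · exact d2 v (hF' v hv) hv'
            · have e := hRA v hv (Or.inl hv')
              subst e
              exact absurd (hJK _ hv' (Or.inr hxK2)) hxu
            · have e := hRA v hv (Or.inr (Or.inl (sKc v hv')))
              subst e
              exact absurd hxK2 (hKcK2 _ hv')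
            · exact (hRZ v hv' hv).1
            · have e := hRA v hv (Or.inr (Or.inr (sKb v hv')))
              subst e
              exact d2 _ hx' hv'
          · rintro v (hv | hv) hv'
            · exact absurd (hKB v (Or.inr (g4 v hv)) hv' ▸ hv) g6
            · exact hRB v hv hv'
        · refine ⟨x, Or.inr hx', hxu, yR, R, r, hyR, hR, ?_, hRB⟩
          rintro v hv (hv' | (hv' | hv') | hv')
          · exact hRA v hv (Or.inl hv')
          · exact hRA v hv (Or.inr (Or.inl (sKc v hv')))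
          · exact (hRZ v hv' hv).1.trans (hRZ v hv' hv).2.symm
          · exact hRA v hv (Or.inr (Or.inr (sKb v hv'))))
    linear_combination (norm := (ring_nf; try reduce_mod_char)) q1 + q2 + hfin + g7 + d3

end Pool.Agent.D0H8.NC
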